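import Pool.Agent.MP_993212_an.H18.WSpec

/-! Smallness, nonnegativity and the room lemma. -/

set_option linter.unusedSectionVars false

namespace Pool.Agent.MP_993212_an.H15F

open Matrix Polynomial Finset H92 H18 Filter
open H15 hiding cf

theorem n1_zero : N1 0 := fun _ => by simp
theorem n1_add {p q : ℤ[X]} (a : N1 p) (b : N1 q) : N1 (p + q) := fun k => by
  rw [coeff_add]; exact add_nonneg (a k) (b k)
theorem n1_pow (k : ℕ) : N1 (X ^ k) := fun n => by rw [coeff_X_pow]; split_ifs <;> simp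
theorem n1_mul {p q : ℤ[X]} (a : N1 p) (b : N1 q) : N1 (p * q) := fun k => by
  rw [coeff_mul]; exact sum_nonneg fun _ _ => mul_nonneg (a _) (b _)
theorem n1_sum {ι : Type} (T : Finset ι) {f : ι → ℤ[X]} (a : ∀ i, N1 (f i)) : N1 (∑ i ∈ T, f i) :=
  fun k => by rw [finsetSum_coeff]; exact sum_nonneg fun i _ => a i k
theorem n1_nat (c : ℕ) : N1 (c : ℤ[X]) := fun k => by
  rw [← C_eq_natCast, coeff_C]; split_ifs <;> simp
theorem n1_Wd (h : ℕ) : N1 (Wd h) := n1_sum _ fun _ => n1_pow _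

variable {ρ ρ₁ e e' K : ℝ} {m n : ℕ} {p q : ℤ[X]}

theorem nz_zero : nz ρ 0 = 0 := by simp [nz]
theorem nz_one : nz ρ 1 = 1 := by simp [nz, nm_one]
theorem nz_sum {ι : Type} (T : Finset ι) (f : ι → ℤ[X]) :
    nz ρ (∑ i ∈ T, f i) ≤ ∑ i ∈ T, nz ρ (f i) := by
  rw [nz, map_sum]; exact nm_sum _ _
theorem nz_mono (h0 : 0 ≤ ρ) (h : ρ ≤ ρ₁) (p : ℤ[X]) : nz ρ p ≤ nz ρ₁ p := nm_mono h0 h _
theorem nz_pow_mul (h0 : 0 ≤ ρ) (k : ℕ) (p : ℤ[X]) : nz ρ (X ^ k * p) = ρ ^ k * nz ρ p := by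
  rw [nz, map_mul, map_pow, zr_X, nm_X_pow_mul, abs_of_nonneg h0, nz]
theorem nz_mul_le {a b : ℝ} (h : nz ρ p ≤ a) (h' : nz ρ q ≤ b) : nz ρ (p * q) ≤ a * b :=
  (nz_mul _ _).trans (mul_le_mul h h' (nz_nonneg _) ((nz_nonneg _).trans h))
theorem nz_add_le {a b : ℝ} (h : nz ρ p ≤ a) (h' : nz ρ q ≤ b) : nz ρ (p + q) ≤ a + b :=
  (nz_add _ _).trans (add_le_add h h')
theorem nz_sub_le {a b : ℝ} (h : nz ρ p ≤ a) (h' : nz ρ q ≤ b) : nz ρ (p - q) ≤ a + b :=
  (nz_sub _ _).trans (add_le_add h h')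
theorem nz_pow_le (h : nz ρ p ≤ e) (k : ℕ) : nz ρ (p ^ k) ≤ e ^ k := by
  induction k with
  | zero => simp [nz_one]
  | succ k ih => rw [pow_succ, pow_succ]; exact nz_mul_le ih h
theorem nz_geom (he : 0 < e) (h : nz ρ p ≤ 1 - e) (k : ℕ) :
    nz ρ (∑ i ∈ range k, p ^ i) ≤ e⁻¹ := by
  induction k with
  | zero => simp [nz_zero, he.le]
  | succ k ih =>
    rw [geom_sum_succ]
    refine (nz_add_le (nz_mul_le h ih) nz_one.le).trans (le_of_eq ?_)
    field_simp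
    ring
theorem nz_W (h0 : 0 ≤ ρ) (h1 : ρ ≤ 1) (h : ℕ) : nz ρ (∑ i ∈ range h, X ^ i) ≤ h :=
  (nz_sum _ _).trans ((sum_le_card_nsmul _ _ 1 fun i _ =>
    (nz_X_pow h0 i).trans_le (pow_le_one₀ h0 h1)).trans (by simp))
theorem Wd_eq (h : ℕ) : Wd h = X ^ h * ∑ i ∈ range h, X ^ i := by
  simp [Wd, mul_sum, pow_add]

/-- small relative to the level `m` -/
def Sm (ρ : ℝ) (m : ℕ) (e : ℝ) (p : ℤ[X]) : Prop := ∃ y, p = X ^ m * y ∧ nz ρ y ≤ e

theorem Sm.zero (he : 0 ≤ e) : Sm ρ m e 0 := ⟨0, by simp, nz_zero.trans_le he⟩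
theorem Sm.add (a : Sm ρ m e p) (b : Sm ρ m e' q) : Sm ρ m (e + e') (p + q) := by
  obtain ⟨y, rfl, h⟩ := a
  obtain ⟨y', rfl, h'⟩ := b
  exact ⟨y + y', by ring, nz_add_le h h'⟩
theorem Sm.neg (a : Sm ρ m e p) : Sm ρ m e (-p) := by
  obtain ⟨y, rfl, h⟩ := a
  exact ⟨-y, by ring, (nz_neg _).trans_le h⟩
theorem Sm.mul (a : Sm ρ m e p) (b : nz ρ q ≤ K) : Sm ρ m (e * K) (p * q) := by
  obtain ⟨y, rfl, h⟩ := a
  exact ⟨y * q, by ring, nz_mul_le h b⟩
theorem Sm.mul' (a : Sm ρ m e p) (b : nz ρ q ≤ K) : Sm ρ m (e * K) (q * p) := mul_comm p q ▸ a.mul b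
theorem Sm.le (a : Sm ρ m e p) (h : e ≤ e') : Sm ρ m e' p := by
  obtain ⟨y, rfl, h'⟩ := a
  exact ⟨y, rfl, h'.trans h⟩
theorem Sm.mono (h0 : 0 ≤ ρ) (h1 : ρ ≤ 1) (a : Sm ρ m e p) (h : n ≤ m) : Sm ρ n e p := by
  obtain ⟨y, rfl, h'⟩ := a
  refine ⟨X ^ (m - n) * y, by rw [← mul_assoc, ← pow_add, Nat.add_sub_cancel' h], ?_⟩
  rw [nz_pow_mul h0]
  exact (mul_le_of_le_one_left (nz_nonneg _) (pow_le_one₀ h0 h1)).trans h'
theorem Sm.nz_le (h0 : 0 ≤ ρ) (h1 : ρ ≤ 1) (a : Sm ρ m e p) : nz ρ p ≤ e := by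
  obtain ⟨y, rfl, h'⟩ := a.mono h0 h1 (Nat.zero_le _)
  simpa using h'
theorem Sm.dvd (a : Sm ρ m e p) : X ^ m ∣ p := let ⟨y, h, _⟩ := a; ⟨y, h⟩
theorem Sm.sum {ι : Type} (T : Finset ι) {f : ι → ℤ[X]} {g : ι → ℝ}
    (a : ∀ i ∈ T, Sm ρ m (g i) (f i)) : Sm ρ m (∑ i ∈ T, g i) (∑ i ∈ T, f i) := by
  classical
  induction T using Finset.induction_on with
  | empty => exact Sm.zero (by simp)
  | insert i T hi ih =>
    rw [sum_insert hi, sum_insert hi]
    exact (a i (mem_insert_self _ _)).add (ih fun j hj => a j (mem_insert_of_mem hj))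
theorem Sm.of_dvd (h0 : 0 < ρ) (a : X ^ m ∣ p) (b : nz ρ p ≤ e * ρ ^ m) : Sm ρ m e p := by
  obtain ⟨y, rfl⟩ := a
  rw [nz_pow_mul h0.le, mul_comm] at b
  exact ⟨y, rfl, le_of_mul_le_mul_right b (by positivity)⟩

/-- deep and bounded at a larger radius is small -/
theorem deep_small (h0 : 0 < ρ) (h : ρ < ρ₁) (K : ℝ) (m : ℕ) (he : 0 < e) :
    ∀ᶠ L in atTop, ∀ p : ℤ[X], X ^ L ∣ p → nz ρ₁ p ≤ K → Sm ρ m e p := by
  have h1 : 0 < ρ₁ := h0.trans h
  have t := (tendsto_pow_atTop_nhds_zero_of_lt_one (div_pos h0 h1).le ((div_lt_one h1).2 h)).mul_const K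
  rw [zero_mul] at t
  filter_upwards [t.eventually (gt_mem_nhds (show 0 < e * ρ ^ m by positivity)),
    eventually_ge_atTop m] with L a b p c d
  exact Sm.of_dvd h0 ((pow_dvd_pow _ b).trans c) ((nm_deep h0 h.le (zr_dvd c)).trans
    ((mul_le_mul_of_nonneg_left d (by positivity)).trans a.le))

theorem exists_abs (p : ℤ[X]) :
    ∃ q, N1 q ∧ N1 (q - p) ∧ (p = 0 → q = 0) ∧ ∀ ρ m e, 0 < ρ → Sm ρ m e p → Sm ρ m e q := by
  let q : ℤ[X] := ∑ k ∈ p.support, monomial k |p.coeff k|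
  have hq : ∀ k, q.coeff k = |p.coeff k| := fun k => by
    simp only [q, finsetSum_coeff, coeff_monomial, sum_ite_eq', mem_support_iff]
    split_ifs with h
    · rfl
    · simp [not_not.1 h]
  refine ⟨q, fun k => hq k ▸ abs_nonneg _, fun k => ?_, fun h => by simp [q, h], fun ρ m e h0 a => ?_⟩
  · rw [coeff_sub, hq]; exact sub_nonneg.2 (le_abs_self _)
  · refine Sm.of_dvd h0 (X_pow_dvd_iff.2 fun k hk => by rw [hq, X_pow_dvd_iff.1 a.dvd k hk, abs_zero]) ?_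
    have : nz ρ q = nz ρ p := by
      rw [nz_eq (T := p.support) fun k hk => by simpa [hq] using hk, nz_eq le_rfl]
      simp [hq, abs_mul]
    obtain ⟨y, rfl, hy⟩ := a
    rw [this, nz_pow_mul h0.le, mul_comm]
    exact mul_le_mul_of_nonneg_right hy (by positivity)

/-- nonnegative power series -/
def S1 (F : PowerSeries ℤ) : Prop := ∀ k, 0 ≤ PowerSeries.coeff k F

theorem S1.add {F H : PowerSeries ℤ} (a : S1 F) (b : S1 H) : S1 (F + H) := fun k => by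
  rw [map_add]; exact add_nonneg (a k) (b k)
theorem S1.mul {F H : PowerSeries ℤ} (a : S1 F) (b : S1 H) : S1 (F * H) := fun k => by
  rw [PowerSeries.coeff_mul]; exact sum_nonneg fun _ _ => mul_nonneg (a _) (b _)
theorem s1_coe (a : N1 p) : S1 (p : PowerSeries ℤ) := fun k => by rw [coeff_coe]; exact a k

theorem coeff_mul_le (h0 : 0 ≤ ρ) {F : PowerSeries ℤ}
    (hF : ∀ k, |(PowerSeries.coeff k F : ℤ)| * ρ ^ k ≤ 1) (y : ℤ[X]) (k : ℕ) :
    (PowerSeries.coeff k ((y : PowerSeries ℤ) * F) : ℤ) * ρ ^ k ≤ nz ρ y := by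
  rw [PowerSeries.coeff_mul, Nat.sum_antidiagonal_eq_sum_range_succ_mk,
    nz_eq (T := y.support ∪ range (k + 1)) subset_union_left]
  push_cast
  rw [sum_mul]
  refine le_trans (sum_le_sum fun i hi => ?_)
    (sum_le_sum_of_subset_of_nonneg subset_union_right fun _ _ _ => abs_nonneg _)
  refine (le_abs_self _).trans ?_
  have e : ρ ^ k = ρ ^ i * ρ ^ (k - i) := by
    rw [← pow_add, Nat.add_sub_cancel' (Nat.lt_succ_iff.1 (mem_range.1 hi))]
  have := hF (k - i)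
  push_cast at this
  rw [e, mul_mul_mul_comm, abs_mul, abs_mul _ (ρ ^ (k - i)),
    abs_of_nonneg (pow_nonneg h0 (k - i))]
  exact mul_le_of_le_one_right (abs_nonneg _) this

variable {h c : ℕ}

theorem coeff_rec {F : PowerSeries ℤ} {w : ℤ[X]}
    (e : (1 - (((c : ℤ[X]) * X ^ h : ℤ[X]) : PowerSeries ℤ)) * F = w) (k : ℕ) :
    PowerSeries.coeff k F = w.coeff k + if h ≤ k then c * PowerSeries.coeff (k - h) F else 0 := by
  have e2 : F = (w : PowerSeries ℤ) + PowerSeries.X ^ h * (c • F) := by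
    rw [← e]
    have : (((c : ℤ[X]) : ℤ[X]) : PowerSeries ℤ) = c := map_natCast coeToPowerSeries.ringHom c
    rw [Polynomial.coe_mul, Polynomial.coe_pow, coe_X, this, nsmul_eq_mul]
    ring
  conv_lhs => rw [e2]
  rw [map_add, coeff_coe, PowerSeries.coeff_X_pow_mul', map_nsmul, nsmul_eq_mul]

theorem window (h0 : 0 < ρ) (h1 : ρ < 1) (hh : 1 ≤ h) (hc : (c : ℝ) * ρ ^ h = 1) {F : PowerSeries ℤ}
    (e : (1 - (((c : ℤ[X]) * X ^ h : ℤ[X]) : PowerSeries ℤ)) * F = 1) (hF : S1 F) {y y' : ℤ[X]}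
    (hy : nz ρ y ≤ ρ ^ h / 2) (hy' : nz ρ y' ≤ ρ ^ h / 2) :
    S1 (((∑ i ∈ range h, X ^ i - y : ℤ[X]) : PowerSeries ℤ) * F - y') := by
  have e3 : ∀ k, h ≤ k → ∀ x : ℤ, ((c * x : ℤ) : ℝ) * ρ ^ k = x * ρ ^ (k - h) := fun k hk x => by
    conv_lhs => rw [← Nat.add_sub_cancel' hk, pow_add]
    push_cast
    linear_combination (x * ρ ^ (k - h)) * hc
  have u : ∀ k, |(PowerSeries.coeff k F : ℤ)| * ρ ^ k ≤ 1 := fun k => by
    rw [abs_of_nonneg (hF k)]
    induction k using Nat.strong_induction_on with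
    | _ k ih =>
      rw [coeff_rec (w := 1) (e.trans Polynomial.coe_one.symm) k, coeff_one]
      split_ifs with a b b
      · omega
      · simp [a]
      · rw [zero_add, e3 k b]; exact ih _ (by omega)
      · simp
  have l : ∀ k, ρ ^ h ≤
      (PowerSeries.coeff k (((∑ i ∈ range h, X ^ i : ℤ[X]) : PowerSeries ℤ) * F) : ℤ) * ρ ^ k :=
    fun k => by
    induction k using Nat.strong_induction_on with
    | _ k ih =>
      rw [coeff_rec (c := c) (h := h) (w := ∑ i ∈ range h, X ^ i)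
        (by rw [mul_left_comm, e, mul_one]) k]
      simp only [finsetSum_coeff, coeff_X_pow, sum_ite_eq, mem_range]
      split_ifs with a b b
      · omega
      · simpa using pow_le_pow_of_le_one h0.le h1.le a.le
      · rw [zero_add, e3 k b]; exact ih _ (by omega)
      · omega
  intro k
  have a1 := coeff_mul_le h0.le u y k
  have a2 := coeff_mul_le h0.le (F := 1) (fun k => by
    rw [PowerSeries.coeff_one]; split_ifs with a <;> simp [a]) y' k
  rw [mul_one] at a2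
  rw [Polynomial.coe_sub, sub_mul, map_sub, map_sub, ← Int.cast_nonneg_iff (R := ℝ)]
  refine (mul_nonneg_iff_of_pos_right (pow_pos h0 k)).1 ?_
  rw [Int.cast_sub, Int.cast_sub, sub_mul, sub_mul]
  linarith [l k]

variable {I : Type} [Fintype I] [DecidableEq I]

/-- a row with room -/
def RowOK (ρ : ℝ) (h : ℕ) (z : I) (β t : I → ℤ[X]) : Prop :=
  (∀ l, N1 (t l)) ∨ ∃ (m : ℕ) (d : I → ℤ[X]), N1 (t z + d z - X ^ m * Wd h) ∧
    Sm ρ (m + h) (ρ ^ h / 2) (d z) ∧ ∀ l, l ≠ z → N1 (t l + d l) ∧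
      (d l = 0 ∨ ∃ k, N1 (β l - X ^ k) ∧ Sm ρ (m + h + k) (ρ ^ h / 2) (d l))

theorem nn_Lb {z : I} {g : ℤ[X]} {β : I → ℤ[X]} (hg : N1 g) (hβ : ∀ l, N1 (β l)) :
    NN (Lb z g β) := fun i l => by
  simp only [Lb, of_apply]
  split_ifs
  exacts [hg, hβ l, n1_zero]

theorem cf_Lb {z : I} {g : ℤ[X]} {β : I → ℤ[X]} (hg : X ∣ g) (hβ : ∀ l, X ∣ β l) :
    cf 0 (Lb z g β) = 0 := by
  ext i l
  simp only [cf, Lb, map_apply, of_apply, Matrix.zero_apply]
  split_ifs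
  exacts [X_dvd_iff.1 hg, X_dvd_iff.1 (hβ l), coeff_zero 0]

theorem dvd_g (hh : 1 ≤ h) : (X : ℤ[X]) ∣ (c : ℤ[X]) * X ^ h :=
  (dvd_pow_self X (by omega)).mul_left _

/-- the room lemma -/
theorem room (hM : Moves) (h0 : 0 < ρ) (h1 : ρ < 1) (hh : 1 ≤ h) (hc : (c : ℝ) * ρ ^ h = 1) {z : I}
    {β : I → ℤ[X]} (hβ : ∀ l, N1 (β l)) (hβ' : ∀ l, X ∣ β l) {Q : Matrix I I ℤ[X]}
    (hT : ∀ i, RowOK ρ h z β ((1 - Lb z ((c : ℤ[X]) * X ^ h) β - Q) i)) :
    Dec Q (Lb z ((c : ℤ[X]) * X ^ h) β) := by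
  set L := Lb z ((c : ℤ[X]) * X ^ h) β with hL
  obtain ⟨a1, -, a3, a4⟩ := hM.ser I Q L (nn_Lb (n1_mul (n1_nat c) (n1_pow h)) hβ)
    (cf_Lb (dvd_g hh) hβ')
  have e0 : ms Q L = sr (1 - L - Q) * gs L := by
    have : sr (1 - L - Q) = 1 - sr L - sr Q := by
      change coeToPowerSeries.ringHom.mapMatrix _ = _
      rw [map_sub, map_sub, map_one]; rfl
    rw [this, sub_mul, a1, ms]
  have r1 : ∀ i l, i ≠ z → gs L i l = if i = l then 1 else 0 := fun i l hi => by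
    have := congrFun (congrFun a1 i) l
    rw [sub_mul, one_mul, Matrix.sub_apply, mul_apply, sum_eq_zero fun j _ => by
      simp [sr, hL, Lb, hi], sub_zero, one_apply] at this
    exact this
  have r2 : ∀ l, (1 - (((c : ℤ[X]) * X ^ h : ℤ[X]) : PowerSeries ℤ)) * gs L z l =
      if l = z then 1 else (β l : PowerSeries ℤ) := fun l => by
    have := congrFun (congrFun a1 z) l
    rw [sub_mul, one_mul, Matrix.sub_apply, mul_apply, ← add_sum_erase _ _ (mem_univ z),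
      sum_congr rfl (g := fun j => if j = l then (β j : PowerSeries ℤ) else 0) fun j hj => by
        have hj := ne_of_mem_erase hj
        rw [r1 j l hj]
        simp [sr, hL, Lb, hj], sum_ite_eq', one_apply] at this
    have e1 : sr L z z = (((c : ℤ[X]) * X ^ h : ℤ[X]) : PowerSeries ℤ) := by simp [sr, hL, Lb]
    rw [e1] at this
    by_cases hl : l = z
    · subst hl; simp only [mem_erase, ne_eq, not_true, false_and, if_false, if_true] at this ⊢
      linear_combination this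
    · simp only [mem_erase, ne_eq, hl, not_false_iff, mem_univ, and_self, if_true, Ne.symm hl,
        if_false] at this ⊢
      linear_combination this
  have r3 := r2 z
  rw [if_pos rfl] at r3
  have r4 : ∀ l, l ≠ z → gs L z l = gs L z z * β l := fun l hl => by
    have := r2 l
    rw [if_neg hl] at this
    linear_combination gs L z z * this - gs L z l * r3
  have g0 : S1 (gs L z z) := a3 z z
  refine a4.2 fun i l => ?_
  change S1 _
  set t := (1 - L - Q) i with ht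
  have e1 : ms Q L i l = t z * gs L z l + if l = z then 0 else (t l : PowerSeries ℤ) := by
    rw [e0, mul_apply, ← add_sum_erase _ _ (mem_univ z),
      sum_congr rfl (g := fun j => if j = l then (t j : PowerSeries ℤ) else 0) fun j hj => by
        simp [sr, ht, r1 j l (ne_of_mem_erase hj)], sum_ite_eq']
    simp [sr, ht]
  rw [e1]
  rcases hT i with a | ⟨m, d, b1, ⟨y, b2, b3⟩, b4⟩
  · refine ((s1_coe (a z)).mul (a3 z l)).add ?_
    split_ifs
    exacts [fun _ => by simp, s1_coe (a l)]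
  have w0 := window h0 h1 hh hc r3 g0 b3 (y' := 0) (nz_zero.trans_le (by positivity))
  have e2 : (t z : PowerSeries ℤ) = (t z + d z - X ^ m * Wd h : ℤ[X]) +
      (X ^ (m + h) : ℤ[X]) * (∑ i ∈ range h, X ^ i - y : ℤ[X]) := by
    rw [← Polynomial.coe_mul, ← Polynomial.coe_add, b2, Wd_eq]
    congr 1
    ring
  have w1 : S1 (t z * gs L z z) := by
    rw [e2, add_mul, mul_assoc]
    exact ((s1_coe b1).mul g0).add ((s1_coe (n1_pow _)).mul (by simpa using w0))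
  by_cases hl : l = z
  · simpa [hl] using w1
  rw [if_neg hl, r4 l hl]
  obtain ⟨c1, c2 | ⟨k, c2, y', c3, c4⟩⟩ := b4 l hl
  · rw [c2, add_zero] at c1
    exact (mul_assoc (t z : PowerSeries ℤ) _ _ ▸ w1.mul (s1_coe (hβ l))).add (s1_coe c1)
  have w2 := window h0 h1 hh hc r3 g0 b3 c4
  have := (((w1.mul (s1_coe c2)).add (((s1_coe b1).mul g0).mul (s1_coe (n1_pow k)))).add
    ((s1_coe (n1_pow (m + h + k))).mul w2)).add (s1_coe c1)
  have e3 : ((t l + d l : ℤ[X]) : PowerSeries ℤ) = t l + (X ^ (m + h + k) : ℤ[X]) * y' := by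
    rw [c3, Polynomial.coe_add, Polynomial.coe_mul]
  have e4 : ((X ^ (m + h + k) : ℤ[X]) : PowerSeries ℤ) = (X ^ (m + h) : ℤ[X]) * (X ^ k : ℤ[X]) := by
    rw [pow_add, Polynomial.coe_mul]
  rw [e3, e4, Polynomial.coe_sub (β l)] at this
  convert this using 1
  linear_combination gs L z z * (X ^ k : ℤ[X]) * e2

end Pool.Agent.MP_993212_an.H15F
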