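import Pool.Agent.MP_993212_an.H15.FatA

/-! The fat stage: two normal forms with close classes are equivalent. -/

set_option linter.unusedSectionVars false

namespace Pool.Agent.MP_993212_an.H15F

open Matrix Polynomial Finset H92 H18 Filter
open H15 hiding cf

variable {I G : Type} [Fintype I] [DecidableEq I] [AddCommGroup G] [Module ℤ[X] G]
variable {ρ a b : ℝ} {L : ℕ} {A A' B B' : Matrix I I ℤ[X]}

/-- bounded entries -/
def MB (ρ a : ℝ) (A : Matrix I I ℤ[X]) : Prop := ∀ i j, nz ρ (A i j) ≤ a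

theorem MB.mul (h : MB ρ a A) (h' : MB ρ b B) : MB ρ (Fintype.card I * (a * b)) (A * B) :=
  fun i j => (nz_sum _ _).trans ((sum_le_card_nsmul _ _ _ fun k _ =>
    nz_mul_le (h i k) (h' k j)).trans (by simp))

theorem mb_one (h : 0 ≤ a) : MB ρ (1 + a) (1 : Matrix I I ℤ[X]) := fun i j => by
  rw [one_apply]
  split_ifs
  · rw [nz_one]; linarith
  · rw [nz_zero]; linarith

theorem MB.one_add (h : MB ρ a A) : MB ρ (1 + a) (1 + A) := fun i j =>
  nz_add_le ((mb_one le_rfl i j).trans (add_zero _).le) (h i j)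

theorem MB.one_sub (h : MB ρ a A) : MB ρ (1 + a) (1 - A) := fun i j =>
  nz_sub_le ((mb_one le_rfl i j).trans (add_zero _).le) (h i j)

theorem nz_single (z i : I) : nz ρ ((Pi.single z 1 : I → ℤ[X]) i) ≤ 1 := by
  rw [Pi.single_apply]
  split_ifs
  · exact nz_one.le
  · exact nz_zero.trans_le zero_le_one

theorem mb_col {s : I → ℤ[X]} (h : ∀ j, nz ρ (s j) ≤ a) (z : I) :
    MB ρ a (vecMulVec s (Pi.single z 1)) := fun i j =>
  (nz_mul_le (h i) (nz_single z j)).trans (mul_one _).le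

theorem mb_row {s : I → ℤ[X]} (h : ∀ j, nz ρ (s j) ≤ a) (z : I) :
    MB ρ a (vecMulVec (Pi.single z 1) s) := fun i j =>
  (nz_mul_le (nz_single z i) (h j)).trans (one_mul _).le

/-- congruent matrices -/
def MC (L : ℕ) (A B : Matrix I I ℤ[X]) : Prop := ∀ i j, X ^ L ∣ (A - B) i j

theorem MC.rfl : MC L A A := fun _ _ => by simp

theorem MC.symm (h : MC L A B) : MC L B A := fun i j => by
  have := (h i j).neg_right
  rwa [← Matrix.neg_apply, neg_sub] at this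

theorem MC.mul (h : MC L A A') (h' : MC L B B') : MC L (A * B) (A' * B') := fun i j => by
  have : A * B - A' * B' = (A - A') * B + A' * (B - B') := by noncomm_ring
  rw [this, Matrix.add_apply, mul_apply, mul_apply]
  exact dvd_add (dvd_sum fun k _ => (h i k).mul_right _) (dvd_sum fun k _ => (h' k j).mul_left _)

theorem MC.one_sub (h : MC L A B) : MC L (1 - A) (1 - B) := fun i j => by
  rw [sub_sub_sub_cancel_left]; exact h.symm i j

theorem sq_zero {S : I → Prop} (h : ∀ a b, B a b ≠ 0 → ¬S a ∧ S b) : B * B = 0 := by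
  ext1 i j
  refine sum_eq_zero fun k _ => ?_
  by_contra e
  exact (h k j (right_ne_zero_of_mul e)).1 (h i k (left_ne_zero_of_mul e)).2

theorem act_mul (A B : Matrix I I ℤ[X]) (ξ : I → G) : act (A * B) ξ = act A (act B ξ) :=
  H16.pl_mul A B ξ

theorem act_col (s : I → ℤ[X]) (z : I) (ξ : I → G) :
    act (1 + vecMulVec s (Pi.single z 1)) ξ = fun i => ξ i + s i • ξ z := by
  funext i
  simp [act, add_smul, sum_add_distrib, one_apply, vecMulVec_apply, Pi.single_apply, ite_smul]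

theorem col_inv {s : I → ℤ[X]} {z : I} (h : s z = 0) :
    (1 - vecMulVec s (Pi.single z 1)) * (1 + vecMulVec s (Pi.single z 1)) = 1 := by
  rw [sub_mul, one_mul, mul_add, mul_one, vv_mul]
  simp [h]

theorem NF.mono {η ε ε' : ℝ} {z : I} {L L' : ℕ} {dg : I → ℤ[X]} {N : Matrix I I ℤ[X]}
    (h : NF ρ η ε z L dg N) (e : ε ≤ ε') (l : L' ≤ L) : NF ρ η ε' z L' dg N :=
  ⟨h.hs, h.inv, fun u v n => ⟨(pow_dvd_pow _ l).trans (h.off u v n).1, (h.off u v n).2.trans e⟩,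
    fun i => (pow_dvd_pow _ l).trans (h.dia i), h.lt⟩

theorem FF.pert {K e e' : ℝ} {h c L L₀ : ℕ} {γ : I → ℕ} {z p q : I} {N D : Matrix I I ℤ[X]}
    (h0 : 0 ≤ ρ) (h1 : ρ ≤ 1) (hh : 1 ≤ h) (f : FF ρ K e h c L γ z p q N) (l : L₀ ≤ L)
    (d : ∀ i j, Sm ρ (L₀ + 2 * h) e' (D i j)) : FF ρ K (e + e') h c L₀ γ z p q (N - D) := by
  have d1 := fun i j => (d i j).nz_le h0 h1
  have d2 : ∀ k ≤ L₀ + 2 * h, ∀ i j, X ^ k ∣ D i j := fun k hk i j =>
    (pow_dvd_pow _ hk).trans (d i j).dvd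
  have k : ∀ i j y, (X ^ L ∣ N i j - y ∧ nz ρ (N i j - y) ≤ e) →
      X ^ L₀ ∣ (N - D) i j - y ∧ nz ρ ((N - D) i j - y) ≤ e + e' := fun i j y a => by
    rw [Matrix.sub_apply, sub_right_comm]
    exact ⟨dvd_sub ((pow_dvd_pow _ l).trans a.1) (d2 _ (by omega) i j), nz_sub_le a.2 (d1 i j)⟩
  refine ⟨?_, fun i n => k _ _ _ (f.col i n), ?_, ?_, fun i n => k _ _ _ (f.row i n),
    fun i j n1 n2 n3 => by simpa using k i j 0 (by simpa using f.off i j n1 n2 n3), fun i n => ?_⟩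
  · ext i j
    have a := congrFun (congrFun f.zero i) j
    have b := X_dvd_iff.1 (pow_one (X : ℤ[X]) ▸ d2 1 (by omega) i j)
    simp only [cf, map_apply, Matrix.zero_apply] at a ⊢
    rw [Matrix.sub_apply, coeff_sub, a, b, sub_zero]
  · obtain ⟨y, a1, a2, a3⟩ := f.hub
    refine ⟨y, a1, ?_⟩
    rw [Matrix.sub_apply, sub_right_comm (N z z), sub_right_comm _ (D z z)]
    exact ⟨dvd_sub a2 (d2 _ (by omega) z z), (nz_sub_le a3 (d1 z z)).trans (add_assoc _ _ _).le⟩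
  · exact (nz_sub_le f.bd (d1 z z)).trans (add_assoc _ _ _).le
  · obtain ⟨φ, a1, a2, a3, a4⟩ := f.dia i n
    exact ⟨φ, a1, a2, a3, k _ _ _ a4⟩

theorem exists_U {χ : ℤ[X]} (hχ : χ.coeff 0 = 1) {N₁ N₂ : Matrix I I ℤ[X]} {ξ₂ : I → G}
    {v : GL I ℤ[X]} (z1 : cf 0 N₁ = 0) (z2 : cf 0 N₂ = 0) (d1 : (1 - N₁).det = χ)
    (d2 : (1 - N₂).det = χ) (p1 : H16.Pres (1 - N₁) (act v.val ξ₂)) (p2 : H16.Pres (1 - N₂) ξ₂)
    (hv : v ∈ Cn I (tI 1)) : ∃ U ∈ Cn I (tI 1), (1 - N₁) * v.val = U.val * (1 - N₂) := by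
  have p3 := p1.mul_right v.mul_inv
  rw [show act v.val ξ₂ = H16.pl v.val ξ₂ from rfl, ← H16.pl_mul, v.inv_mul, H16.pl_one] at p3
  choose U hU using fun u => (p2.2 _).1 ((p3.2 (((1 - N₁) * v.val) u)).2 ⟨Pi.single u 1, by
    rw [single_one_vecMul]; rfl⟩)
  have e : (1 - N₁) * v.val = of U * (1 - N₂) := by
    ext1 i j
    rw [hU i]; rfl
  have h0 : χ ≠ 0 := by rintro rfl; simp at hχ
  have e2 := congrArg det e
  rw [det_mul, det_mul, d1, d2, mul_comm, mul_left_inj' h0] at e2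
  obtain ⟨U', hU'⟩ := (isUnit_iff_isUnit_det _).2 (e2 ▸ (isUnit_iff_isUnit_det _).1 v.isUnit)
  refine ⟨U', mem_Cn_one.2 ?_, hU' ▸ e⟩
  have c : ∀ N : Matrix I I ℤ[X], cf 0 N = 0 → H16.cof (1 - N) 0 = 1 := fun N h => by
    ext i j
    have := congrFun (congrFun h i) j
    simp only [cf, map_apply, Matrix.zero_apply] at this
    simp [H16.cof, this, one_apply, apply_ite (fun p : ℤ[X] => p.coeff 0)]
  have e3 := congrArg (H16.cof · 0) e
  simp only [H16.cof_mul0, c _ z1, c _ z2, one_mul, mul_one] at e3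
  intro i j
  rw [hU', ← mem_Cn_one.1 hv i j]
  exact (congrFun (congrFun e3 i) j).symm

theorem chain (hM : Moves) {Q L : Matrix I I ℤ[X]} {ξ : I → G} {R : GL I ℤ[X] → Prop}
    (hR : ∀ x, R x → VP (x.val * Q) L) (h : Eqv Q L ξ Q L ξ) {g : GL I ℤ[X]}
    (hg : Relation.ReflTransGen (fun x y => R x ∧ R y ∧ Mv (fun _ _ _ => True) x y) 1 g) :
    Eqv Q L ξ (g.val * Q) L ξ := by
  have r : ∀ x : GL I ℤ[X], act (x.val * Q) ξ = 0 := fun x => by
    rw [act_mul, h.rel]; funext i; simp [act]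
  have k : ∀ x i j k, R x → R (xe i j (X ^ k) * x) →
      Eqv (x.val * Q) L ξ ((xe i j (X ^ k) * x).val * Q) L ξ := fun x i j k a b => by
    by_cases e : i = j
    · simpa [e] using Eqv.refl (hR x a) (r x)
    have b' := hR _ b
    rw [Units.val_mul, xe_val e, Matrix.mul_assoc] at b' ⊢
    refine hM.row G I _ L _ ξ (· = i) (hR x a) (r x) (fun u v n => ?_) b'
    rw [Matrix.single_apply] at n
    split_ifs at n with c
    · exact ⟨c.1.symm, c.2 ▸ Ne.symm e⟩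
    · exact absurd rfl n
  induction hg with
  | refl => simpa using h
  | tail _ s ih =>
    obtain ⟨a, b, i, j, n, -, rfl | rfl⟩ := s
    exacts [ih.trans (k _ _ _ _ a b), ih.trans (k _ _ _ _ b a).symm]

theorem fat_of (hM : Moves) (hL : LastStmt) (hB : BoundStmt) (hC : CloseStmt) (hR : RoomStmt)
    (hG : RegStmt) : FatStmt := by
  intro ρ ρ₁ η h c χ h0 hρ h1 hη hh hc hχ hD
  have h1' : ρ < 1 := hρ.trans h1
  have h0' : 0 < ρ₁ := h0.trans hρ
  obtain ⟨γ₀, hR⟩ := hR ρ ρ₁ (η / 2) h c h0 hρ h1 (half_pos hη) hh hc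
  obtain ⟨r, hr, hG⟩ := hG ρ h c γ₀ h0 h1' hh hc
  obtain ⟨ν₀, hl⟩ := loc h0 h1' hr
  filter_upwards [eventually_ge_atTop ν₀, eventually_ge_atTop (2 * (2 * h + γ₀))] with ν n1 n2
  intro I _ _ z p q h3 hpq hp hq
  obtain ⟨εB, eB, KB, hB⟩ := hB I ρ₁ η χ h0' hη
  obtain ⟨εL, eL, KL, hL⟩ := hL I ρ₁ η KB h0' h1 hη
  obtain ⟨γ, g1, g2, g3, hR⟩ := hR I z p q
  obtain ⟨K', θ, hθ, hR⟩ := hR (max KL KB)
  obtain ⟨r₁, hr₁, ε, hε, L₀, hG⟩ := hG I z p q γ K' hp hq g1 g2 g3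
  obtain ⟨δ, hδ, L₁, hl⟩ := hl ν n1 I h3 p q hpq r₁ hr₁ L₀
  obtain ⟨κ, k1, k2, k3⟩ : ∃ κ : ℝ, max KL KB ≤ κ ∧ K' ≤ κ ∧ 1 ≤ κ :=
    ⟨max (max (max KL KB) K') 1, by simp, by simp, by simp⟩
  obtain ⟨Kf, hf⟩ : ∃ Kf, ∀ A B C D : Matrix I I ℤ[X], MB ρ₁ (1 + κ) A → MB ρ₁ (1 + κ) B →
      MB ρ₁ (1 + κ) C → MB ρ₁ (1 + κ) D → MB ρ₁ Kf (A * B * C * D) :=
    ⟨_, fun _ _ _ _ a b c d => ((a.mul b).mul c).mul d⟩
  obtain ⟨Lc, hC⟩ := hC I ρ ρ₁ Kf δ χ L₁ h0 hρ hδ hχ hD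
  obtain ⟨Ls, hs⟩ := eventually_atTop.1 (deep_small h0 hρ (Kf + Kf) (L₀ + 2 * h) (half_pos hε))
  obtain ⟨L, l0, l1, l2, l3⟩ : ∃ L, L₀ ≤ L ∧ Lc ≤ L ∧ Ls ≤ L ∧ ν + 1 ≤ L :=
    ⟨L₀ + Lc + Ls + (ν + 1), by omega, by omega, by omega, by omega⟩
  obtain ⟨L', hR⟩ := hR (ε / 2) L (half_pos hε)
  refine ⟨min εB εL, lt_min eB eL, L + L', by omega, ?_⟩
  intro G _ _ N₁ N₂ Z ξ₁ ξ₂ dg D f1 f2 w1 w2 d1 d2 dp dq p1 p2 zD sD sZ bZ eξ
  have zz : Z * Z = 0 := sq_zero (S := (· ∈ D)) fun a b n => (sZ a b n).2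
  have dZ : ∀ k ≤ L, ∀ i j, X ^ k ∣ Z i j := fun k hk i j =>
    (pow_dvd_pow _ (by omega)).trans (bZ i j).1
  let v : GL I ℤ[X] := ⟨1 + Z, 1 - Z, by rw [add_mul, mul_sub, mul_sub, zz]; simp,
    by rw [sub_mul, mul_add, mul_add, zz]; simp⟩
  have hv : v ∈ Hn I (tI (ν + 1)) := nil_mem (· ∉ D)
    (fun i j n => by simpa using (sZ i j (by simpa [v] using n)).2)
    fun i j => xe_mem_Hn i j (mem_tI.2 (by simpa [v] using dZ _ l3 i j))
  obtain ⟨U, hU, eU⟩ := exists_U hχ (v := v) f1.hs.2 f2.hs.2 d1 d2 (eξ ▸ p1) p2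
    (Cn_mono (tI_anti (by omega)) (Hn_le_Cn _ hv))
  refine ⟨v, hv, U, hU, eξ.symm, eU, fun hU' => ?_⟩
  have world : ∀ (N : Matrix I I ℤ[X]) (ξ : I → G), NF ρ₁ η (min εB εL) z (L + L') dg N →
      N1 (N z z - ((c : ℤ[X]) * X ^ h + Wd h)) → (1 - N).det = χ → H16.Pres (1 - N) ξ →
      ∃ (N' : Matrix I I ℤ[X]) (g : GL I ℤ[X]) (s s' : I → ℤ[X]), g ∈ Hn I (tI ν) ∧
        1 - N' = g.val * (1 - N) ∧ s z = 0 ∧ s' z = 0 ∧ MB ρ₁ κ N' ∧
        MC L (1 - N') (diagonal dg) ∧ (∀ j, nz ρ₁ (s j) ≤ κ) ∧ (∀ j, nz ρ₁ (s' j) ≤ κ) ∧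
        (∀ j, Src N j → j ≠ z → s j = Wd h) ∧ (∀ j, j ≠ z → X ^ L ∣ dg j * s j - Wd h) ∧
        (∀ j, j ≠ z → X ^ L ∣ dg j * s' j - X ^ γ j) ∧
        Eqv (1 - N) 0 ξ ((1 - vecMulVec (Pi.single z 1) s') * (1 - N') *
          (1 - vecMulVec s (Pi.single z 1))) (Lb z ((c : ℤ[X]) * X ^ h) fun l => X ^ γ l)
          (fun i => ξ i + s i • ξ z) ∧
        FF ρ K' (ε / 2) h c L γ z p q (1 - (1 - vecMulVec (Pi.single z 1) s') * (1 - N') *
          (1 - vecMulVec s (Pi.single z 1))) := fun N ξ f w d pr => by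
    have r : act (1 - N) ξ = 0 := funext fun u => (pr.2 _).2 ⟨Pi.single u 1, by
      rw [single_one_vecMul]; rfl⟩
    have b := hB N z _ dg (NF.mono f (min_le_left _ _) le_rfl) d
    obtain ⟨N', g, M, a1, a2, a3, a4, a5, a6, a7⟩ := hL G N ξ z θ ρ _ h dg
      (NF.mono f (min_le_right _ _) le_rfl) r hθ h0
      (by convert n1_add w (n1_mul (n1_nat c) (n1_pow h)) using 1; ring) b
    obtain ⟨s, s', c1, c2, c3, c4, c5⟩ := hR G N' ξ dg M
      (NF.mono a6 (le_max_left _ _) (by omega)) a7 (a5 ▸ w) (a5 ▸ b.trans (le_max_right _ _))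
      a3.rel' dp dq
    have u : ∀ t : I → ℤ[X], t z = 0 → (∀ j, j ≠ z → nz ρ₁ (t j) ≤ K') → ∀ j, nz ρ₁ (t j) ≤ κ :=
      fun t t0 t1 j => by
        by_cases e : j = z
        · rw [e, t0, nz_zero]; linarith
        · exact (t1 j e).trans k2
    refine ⟨N', g, s, s', Hn_mono (tI_anti (by omega)) a1, a2, c1, c2, fun i j => ?_,
      fun i j => ?_, u s c1 fun j n => (c5 j n).2.2.1, u s' c2 fun j n => (c5 j n).2.2.2.1,
      fun j m n => (c5 j n).2.2.2.2 ((a4 j (by simp)).1 m), fun j n => (c5 j n).1,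
      fun j n => (c5 j n).2.1, a3.trans c3, c4⟩
    · by_cases e : i = j
      · subst e
        by_cases e : i = z
        · rw [e, a5]; exact b.trans ((le_max_right _ _).trans k1)
        · linarith [a6.lt i e]
      · exact (a6.off i j e).2.trans ((le_max_left _ _).trans k1)
    · refine (pow_dvd_pow X (show L ≤ L + L' by omega)).trans ?_
      by_cases e : i = j
      · subst e; simpa using a6.dia i
      · simpa [e] using (a6.off i j e).1
  obtain ⟨M₁, g₁, s₁, t₁, a1, a2, a3, a4, a5, a6, a7, a8, a9, aa, ab, ac, ad⟩ :=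
    world N₁ ξ₁ f1 w1 d1 p1
  obtain ⟨M₂, g₂, s₂, t₂, b1, b2, b3, b4, b5, b6, b7, b8, b9, ba, bb, bc, bd⟩ :=
    world N₂ ξ₂ f2 w2 d2 p2
  have cg : ∀ s t y : I → ℤ[X], s z = 0 → t z = 0 → (∀ j, j ≠ z → X ^ L ∣ dg j * s j - y j) →
      (∀ j, j ≠ z → X ^ L ∣ dg j * t j - y j) → ∀ j, X ^ L ∣ s j - t j := fun s t y s0 t0 x x' j => by
    by_cases e : j = z
    · simp [e, s0, t0]
    have c0 : (X : ℤ[X]) ∣ 1 - dg j := by
      have u := (dvd_pow_self X (show L + L' ≠ 0 by omega)).trans (f1.dia j)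
      have u' : (X : ℤ[X]) ∣ N₁ j j := X_dvd_iff.2 (congrFun (congrFun f1.hs.2 j) j)
      convert dvd_add u u' using 1
      ring
    obtain ⟨y', hy⟩ := c0
    have c1 : IsCoprime (X : ℤ[X]) (dg j) := ⟨y', 1, by linear_combination -hy⟩
    refine c1.pow_left.dvd_of_dvd_mul_left ?_
    convert dvd_sub (x j e) (x' j e) using 1
    ring
  have cs := cg s₁ s₂ (fun _ => Wd h) a3 b3 aa ba
  have ct := cg t₁ t₂ _ a4 b4 ab bb
  set e : I → ℤ[X] := Pi.single z 1 with he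
  set E₁ := 1 - vecMulVec e t₁
  set E₂ := 1 - vecMulVec e t₂
  set V₁ := 1 - vecMulVec s₁ e with hV₁
  set V₂ := 1 - vecMulVec s₂ e with hV₂
  set B := Z + vecMulVec (s₁ - s₂ - Z *ᵥ s₂) e with hBB
  have cE : MC L E₁ E₂ := MC.one_sub fun i j => by
    rw [← vecMulVec_sub]; exact (ct j).mul_left _
  have cV : MC L V₁ V₂ := MC.one_sub fun i j => by
    rw [← sub_vecMulVec]; exact (cs i).mul_right _
  have cP : MC L (1 - M₁) (1 - M₂) := fun i j => by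
    convert dvd_sub (a6 i j) (b6 i j) using 1
    simp
  have cZ : MC L (1 + Z) 1 := fun i j => by simpa using dZ L le_rfl i j
  have z0 : ∀ j, Z z j = 0 := fun j => by
    by_contra n
    exact (sZ z j n).1 rfl
  have eB : 1 + B = (1 + vecMulVec s₁ e) * (1 + Z) * V₂ := by
    have : e ᵥ* Z = 0 := by rw [he, single_one_vecMul]; exact funext z0
    simp only [hBB, hV₂, mul_add, add_mul, mul_sub, one_mul, mul_one, vecMulVec_mul, this,
      mul_vecMulVec, sub_vecMulVec, vecMulVec_zero, vecMulVec_mulVec]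
    simp only [he, single_dotProduct, b3, mul_zero, MulOpposite.op_zero, zero_smul, zero_vecMulVec,
      zero_mulVec]
    abel
  have sB : ∀ a b, B a b ≠ 0 → ¬(a ∈ D ∨ a = z) ∧ (b ∈ D ∨ b = z) := fun a b n => by
    constructor
    · intro x
      have x1 : ∀ j, Z a j = 0 := fun j => by
        by_contra n
        exact x.elim (sZ a j n).2.1 (sZ a j n).1
      have x2 : s₁ a = s₂ a := by
        rcases x with x | x
        · rw [a9 a (sD a x).1 (ne_of_mem_of_not_mem x zD), b9 a (sD a x).2 (ne_of_mem_of_not_mem x zD)]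
        · rw [x, a3, b3]
      exact n (by simp [hBB, vecMulVec_apply, x1, x2, mulVec, dotProduct])
    · by_contra x
      rw [not_or] at x
      have x1 : Z a b = 0 := by
        by_contra n
        exact x.1 (sZ a b n).2.2
      exact n (by simp [hBB, vecMulVec_apply, x1, he, x.2])
  have e5 : E₁ * (1 - M₁) * V₁ * (1 + B) = E₁ * (1 - M₁) * (1 + Z) * V₂ := by
    rw [eB]
    simp only [← Matrix.mul_assoc]
    rw [Matrix.mul_assoc _ V₁, col_inv a3, Matrix.mul_one]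
  have k0 : 0 ≤ κ := by linarith
  have m5 : MB ρ₁ Kf (E₁ * (1 - M₁) * (1 + Z) * V₂) := hf _ _ _ _ (mb_row a8 z).one_sub a5.one_sub
    (MB.one_add fun i j => (bZ i j).2.trans k3) (mb_col b7 z).one_sub
  have m1 : MB ρ₁ Kf (E₁ * (1 - M₁) * V₁) := by
    simpa using hf _ _ _ _ (mb_row a8 z).one_sub a5.one_sub (mb_one k0) (mb_col a7 z).one_sub
  have m2 : MB ρ₁ Kf (E₂ * (1 - M₂) * V₂) := by
    simpa using hf _ _ _ _ (mb_row b8 z).one_sub b5.one_sub (mb_one k0) (mb_col b7 z).one_sub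
  have c1 : MC L (E₁ * (1 - M₁) * (1 + Z) * V₂) (E₁ * (1 - M₁) * V₁) := by
    simpa using ((MC.rfl (A := E₁ * (1 - M₁))).mul cZ).mul cV.symm
  have c2 : MC L (E₁ * (1 - M₁) * (1 + Z) * V₂) (E₂ * (1 - M₂) * V₂) := by
    simpa using ((cE.mul cP).mul cZ).mul (MC.rfl (A := V₂))
  have n3 : 2 * h + γ₀ ≤ ν / 2 := by omega
  have reg : ∀ (Q D : Matrix I I ℤ[X]) (x : GL I ℤ[X]), FF ρ K' (ε / 2) h c L γ z p q (1 - Q) →
      (∀ i j, Sm ρ (L₀ + 2 * h) (ε / 2) (D i j)) → Reg ρ r r₁ p q (ν / 2) L₀ x →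
      VP (x.val * (Q + D)) (Lb z ((c : ℤ[X]) * X ^ h) fun l => X ^ γ l) := fun Q D x f d y => by
    have := FF.pert h0.le h1'.le hh f l0 d
    rw [add_halves] at this
    simpa [sub_sub] using hG _ x _ this n3 y
  choose Ab x1 x2 _ x4 using fun i j =>
    exists_abs ((E₁ * (1 - M₁) * (1 + Z) * V₂ - E₁ * (1 - M₁) * V₁) i j)
  obtain ⟨P, T, y1, y2, y3⟩ := (reg _ (of Ab) 1 ad (fun i j => x4 i j _ _ _ h0
    (hs L l2 _ (c1 i j) (nz_sub_le (m5 i j) (m1 i j)))) fun i j => by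
      split_ifs <;> simp [nz_zero, hr.le, hr₁.le]).dec
  rw [Units.val_one, Matrix.one_mul, sub_eq_iff_eq_add] at y3
  have q5 := hM.col G I _ _ B P _ (fun b => b ∈ D ∨ b = z) ac.vp' ac.rel' sB y1
    (fun i j => by
      rw [y3]
      change N1 _
      convert n1_add (y2 i j) (x1 i j) using 1
      simp only [Matrix.sub_apply, Matrix.add_apply, of_apply]
      ring)
    (fun i j => by
      rw [y3, e5]
      change N1 _
      convert n1_add (y2 i j) (x2 i j) using 1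
      simp only [Matrix.sub_apply, Matrix.add_apply, of_apply]
      ring)
    (by
      refine ⟨1, (pow_one _).trans ?_⟩
      ext i j
      have u1 := congrFun (congrFun ad.zero i) j
      have u2 := X_dvd_iff.1 ((dvd_pow_self X (show L ≠ 0 by omega)).trans (c1 i j))
      rw [e5]
      simp only [cf, map_apply, Matrix.sub_apply, coeff_sub, Matrix.zero_apply, one_apply,
        apply_ite (fun p : ℤ[X] => p.coeff 0), coeff_one_zero, coeff_zero] at u1 u2 ⊢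
      linarith)
  have eξ' : act (1 - B) (fun i => ξ₁ i + s₁ i • ξ₁ z) = fun i => ξ₂ i + s₂ i • ξ₂ z := by
    rw [← act_col, ← act_col, eξ, ← act_mul, ← act_mul]
    congr 1
    have u : (1 - B) * (1 + B) = 1 := by rw [sub_mul, mul_add B, sq_zero sB]; simp
    calc _ = (1 - B) * (1 + B) * (1 + vecMulVec s₂ e) := by
          rw [eB, Matrix.mul_assoc (1 - B) (_ * V₂), Matrix.mul_assoc _ V₂, col_inv b3,
            Matrix.mul_one, Matrix.mul_assoc]
      _ = _ := by rw [u, Matrix.one_mul]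
  have v1 : ∀ t : I → ℤ[X], t z = 0 → (tv e (-t)).val = 1 - vecMulVec e t := fun t t0 => by
    rw [tv_val (by simp [he, t0]), vecMulVec_neg, sub_eq_add_neg]
  let Uf := tv e (-t₁) * (g₁ * U * g₂⁻¹) * (tv e (-t₂))⁻¹
  have eU' : E₁ * (1 - M₁) * (1 + Z) * V₂ = Uf.val * (E₂ * (1 - M₂) * V₂) := by
    have u : (1 - N₁) * (1 + Z) = U.val * (1 - N₂) := eU
    simp only [Uf, E₁, E₂, Units.val_mul, ← v1 _ a4, ← v1 _ b4, a2, b2, Matrix.mul_assoc,
      Units.inv_mul_cancel_left]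
    rw [← Matrix.mul_assoc (1 - N₁), u, Matrix.mul_assoc]
  have hUf : Uf ∈ Hn I (tI ν) := by
    have u1 : tv e (-t₁) * (tv e (-t₂))⁻¹ ∈ Hn I (tI ν) := by
      rw [← tv_neg_right, ← tv_add_right (by simp [he, a4]) (by simp [he, b4])]
      refine row_mem (by simp [a4, b4]) fun j => xe_mem_Hn _ _ (mem_tI.2 ?_)
      convert ((pow_dvd_pow X (show ν ≤ L by omega)).trans (ct j)).neg_right using 1
      simp only [Pi.add_apply, Pi.neg_apply]
      ring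
    have u2 := mul_mem u1 ((inferInstance : (Hn I (tI ν)).Normal).conj_mem _
      (mul_mem (mul_mem a1 hU') (inv_mem b1)) (tv e (-t₂)))
    convert u2 using 1
    simp only [Uf]
    group
  obtain ⟨o1, o2⟩ := hC _ _ _ eU' (bc.det.symm.trans d2) fun i j =>
    ⟨m5 i j, m2 i j, (pow_dvd_pow _ l1).trans (c2 i j)⟩
  have q6 := chain hM (fun x y => by
    simpa using reg _ 0 x bd (fun _ _ => Sm.zero (half_pos hε).le) y) (Eqv.refl bc.vp' bc.rel')
    (hl Uf hUf (mem_Cn.2 fun i j => mem_tI.2 (o2 i j)) o1)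
  rw [e5, eξ', eU'] at q5
  exact (ac.trans q5).trans (bc.trans q6).symm

end Pool.Agent.MP_993212_an.H15F
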