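import Pool.Agent.MP_993212_an.H15.KSym

/-! The matrix free part of the generation lemma: the group generated by the letters of the first
layer is commutative, normal, and a quotient of the additive group of integer matrices. -/

set_option linter.unusedSectionVars false

namespace Pool.Agent.MP_993212_an.H15

open Matrix

variable {R : Type} [CommRing R] {s : Type} [Fintype s] [DecidableEq s] {Q : Type} [Group Q]

/-- the diagonal type element -/
def hh (x : s → s → R → Q) (ε : R) (i j : s) : Q :=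
  x i j 1 * x j i ε * (x i j 1)⁻¹ * (x j i ε)⁻¹ * x i j ε

/-- the sign of an index -/
def sg (R : Type) [CommRing R] (i j a : s) : R := (if a = i then 1 else 0) - if a = j then 1 else 0

/-- the relations used in the generation lemma -/
structure KS (x : s → s → R → Q) (ε : R) : Prop where
  add : ∀ i j a b, x i j (a + b) = x i j a * x i j b
  self : ∀ i a, x i i a = 1
  c1 : ∀ {i j k}, i ≠ j → j ≠ k → i ≠ k → ∀ a b,
    x i j a * x j k b * (x i j a)⁻¹ = x i k (a * b) * x j k b
  c2 : ∀ {i j k}, i ≠ j → j ≠ k → i ≠ k → ∀ a c,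
    x i j a * x k i c * (x i j a)⁻¹ = x k j (-(c * a)) * x k i c
  c0 : ∀ {i j k l}, j ≠ k → i ≠ l → ∀ a b, Commute (x i j a) (x k l b)
  sq : ∀ i j c, x i j (ε * ε * c) = 1
  int : ∀ c, ∃ n : ℤ, ∀ i j, x i j (ε * c) = x i j ε ^ n
  opp : ∀ c, ∃ n : ℤ, ∀ i j, Commute (x i j (c - n)) (x j i ε)
  ee : ∀ i j, Commute (x i j ε) (x j i ε)
  dg : ∀ {i j}, i ≠ j → ∀ a b c, hh x ε i j * x a b c * (hh x ε i j)⁻¹ =
    x a b ((1 + ε * sg R i j a) * c * (1 - ε * sg R i j b))

/-- the first layer -/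
def NN (x : s → s → R → Q) (ε : R) : Subgroup Q :=
  Subgroup.closure ({g | ∃ i j, g = x i j ε} ∪ {g | ∃ i j, g = hh x ε i j})

variable {x : s → s → R → Q} {ε : R}

theorem e_mem (i j : s) : x i j ε ∈ NN x ε := Subgroup.subset_closure (Or.inl ⟨i, j, rfl⟩)

theorem h_mem (i j : s) : hh x ε i j ∈ NN x ε := Subgroup.subset_closure (Or.inr ⟨i, j, rfl⟩)

namespace KS

variable (K : KS x ε)
include K

theorem zero (i j : s) : x i j 0 = 1 := by
  have := K.add i j 0 0
  rwa [add_zero, left_eq_mul] at this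

theorem neg (i j : s) (a : R) : x i j (-a) = (x i j a)⁻¹ := by
  rw [eq_inv_iff_mul_eq_one, ← K.add, neg_add_cancel, K.zero]

theorem hh_self (i : s) : hh x ε i i = 1 := by simp [hh, K.self]

theorem ec_mem (i j : s) (c : R) : x i j (ε * c) ∈ NN x ε := by
  obtain ⟨n, h⟩ := K.int c
  exact h i j ▸ (NN x ε).zpow_mem (e_mem i j) n

theorem conj_h (a b : s) (c : R) (i j : s) : x a b c * hh x ε i j * (x a b c)⁻¹ ∈ NN x ε := by
  by_cases hij : i = j
  · simp [hij, K.hh_self, one_mem]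
  have e : x a b c * hh x ε i j * (x a b c)⁻¹ =
      x a b c * (hh x ε i j * x a b c * (hh x ε i j)⁻¹)⁻¹ * hh x ε i j := by group
  rw [e, K.dg hij, ← K.neg, ← K.add]
  refine (NN x ε).mul_mem ?_ (h_mem i j)
  have := K.ec_mem a b (c * (sg R i j b - sg R i j a + ε * sg R i j a * sg R i j b))
  convert this using 2
  ring

theorem conj_of_opp {a b : s} {c : R} (h : x a b c * x b a ε * (x a b c)⁻¹ ∈ NN x ε) :
    ∀ y ∈ NN x ε, x a b c * y * (x a b c)⁻¹ ∈ NN x ε := by
  by_cases hab : a = b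
  · simp [hab, K.self]
  intro y hy
  refine (Subgroup.closure_le ((NN x ε).comap (MulAut.conj (x a b c)).toMonoidHom)).2 ?_ hy
  rintro _ (⟨i, j, rfl⟩ | ⟨i, j, rfl⟩)
  swap
  · exact K.conj_h a b c i j
  change x a b c * x i j ε * (x a b c)⁻¹ ∈ NN x ε
  by_cases hij : i = j
  · simp [hij, K.self, one_mem]
  by_cases h1 : b = i <;> by_cases h2 : a = j
  · subst h1 h2; exact h
  · subst h1
    rw [K.c1 hab hij h2, mul_comm c]
    exact (NN x ε).mul_mem (K.ec_mem _ _ _) (e_mem _ _)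
  · subst h2
    rw [K.c2 hab h1 (Ne.symm hij), K.neg]
    exact (NN x ε).mul_mem ((NN x ε).inv_mem (K.ec_mem _ _ _)) (e_mem _ _)
  · rw [(K.c0 h1 h2 _ _).eq, mul_inv_cancel_right]
    exact e_mem _ _

theorem conj_e (a b : s) : x a b 1 * x b a ε * (x a b 1)⁻¹ = hh x ε a b * (x a b ε)⁻¹ * x b a ε := by
  rw [hh]; group

theorem conj_one (a b : s) : ∀ y ∈ NN x ε, x a b 1 * y * (x a b 1)⁻¹ ∈ NN x ε :=
  K.conj_of_opp (K.conj_e a b ▸ (NN x ε).mul_mem ((NN x ε).mul_mem (h_mem _ _)
    ((NN x ε).inv_mem (e_mem _ _))) (e_mem _ _))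

theorem same (a b : s) (c d : R) : Commute (x a b c) (x a b d) := by
  rw [Commute, SemiconjBy, ← K.add, ← K.add, add_comm]

theorem conj_neg_one (a b : s) : ∀ y ∈ NN x ε, x a b (-1) * y * (x a b (-1))⁻¹ ∈ NN x ε := by
  refine K.conj_of_opp ?_
  have h1 := K.conj_h a b (-1) a b
  have e : x a b (-1) * x b a ε * (x a b (-1))⁻¹ =
      (x a b (-1) * x a b ε * (x a b (-1))⁻¹) * (x a b (-1) * hh x ε a b * (x a b (-1))⁻¹)⁻¹ *
        x b a ε := by
    rw [K.neg, hh]; group
  rw [e, (K.same a b _ _).eq, mul_inv_cancel_right]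
  exact (NN x ε).mul_mem ((NN x ε).mul_mem (e_mem _ _) ((NN x ε).inv_mem h1)) (e_mem _ _)

theorem conj_mem (a b : s) (c : R) : ∀ y ∈ NN x ε, x a b c * y * (x a b c)⁻¹ ∈ NN x ε := by
  have hadd : ∀ c d, (∀ y ∈ NN x ε, x a b c * y * (x a b c)⁻¹ ∈ NN x ε) →
      (∀ y ∈ NN x ε, x a b d * y * (x a b d)⁻¹ ∈ NN x ε) →
      ∀ y ∈ NN x ε, x a b (c + d) * y * (x a b (c + d))⁻¹ ∈ NN x ε := by
    intro c d h1 h2 y hy
    have := h1 _ (h2 y hy)
    rw [K.add]
    convert this using 1
    group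
  obtain ⟨n, hn⟩ := K.opp c
  rw [← sub_add_cancel c n]
  refine hadd _ _ (K.conj_of_opp ?_) ?_
  · rw [(hn a b).eq, mul_inv_cancel_right]
    exact e_mem _ _
  · clear hn
    induction n using Int.induction_on with
    | zero => simp [K.zero]
    | succ n ih => rw [Int.cast_add, Int.cast_one]; exact hadd _ _ ih (K.conj_one a b)
    | pred n ih =>
      rw [Int.cast_sub, Int.cast_one, sub_eq_add_neg]; exact hadd _ _ ih (K.conj_neg_one a b)

theorem ee' (a b i j : s) : Commute (x a b ε) (x i j ε) := by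
  by_cases hab : a = b
  · simp [hab, K.self]
  by_cases hij : i = j
  · simp [hij, K.self]
  by_cases h1 : b = i <;> by_cases h2 : a = j
  · subst h1 h2; exact K.ee _ _
  · subst h1
    have := K.c1 hab hij h2 ε ε
    rw [← mul_one (ε * ε), K.sq, one_mul, mul_inv_eq_iff_eq_mul] at this
    exact this
  · subst h2
    have := K.c2 hab h1 (Ne.symm hij) ε ε
    rw [K.neg, ← mul_one (ε * ε), K.sq, inv_one, one_mul, mul_inv_eq_iff_eq_mul] at this
    exact this
  · exact K.c0 h1 h2 _ _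

theorem e_comm (a b : s) : ∀ y ∈ NN x ε, Commute y (x a b ε) := by
  intro y hy
  induction hy using Subgroup.closure_induction with
  | mem y hy =>
    rcases hy with ⟨i, j, rfl⟩ | ⟨i, j, rfl⟩
    · exact K.ee' _ _ _ _
    by_cases hij : i = j
    · simp [hij, K.hh_self]
    have := K.dg hij a b ε
    rw [show (1 + ε * sg R i j a) * ε * (1 - ε * sg R i j b) = ε + ε * ε *
      (sg R i j a - sg R i j b - ε * sg R i j a * sg R i j b) by ring, K.add, K.sq, mul_one,
      mul_inv_eq_iff_eq_mul] at this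
    exact this
  | one => simp
  | mul y z _ _ h1 h2 => exact h1.mul_left h2
  | inv y _ h1 => exact h1.inv_left

theorem comm {y z : Q} (hy : y ∈ NN x ε) (hz : z ∈ NN x ε) : Commute y z := by
  induction hz using Subgroup.closure_induction with
  | mem z hz =>
    rcases hz with ⟨i, j, rfl⟩ | ⟨i, j, rfl⟩
    · exact K.e_comm _ _ y hy
    refine (Commute.mul_right ?_ (K.e_comm _ _ y hy).inv_right).mul_right (K.e_comm _ _ y hy)
    have := (K.e_comm j i _ (K.conj_neg_one i j y hy)).eq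
    rw [K.neg, inv_inv] at this
    rw [Commute, SemiconjBy]
    calc y * (x i j 1 * x j i ε * (x i j 1)⁻¹)
        = x i j 1 * ((x i j 1)⁻¹ * y * x i j 1 * x j i ε) * (x i j 1)⁻¹ := by group
      _ = _ := by rw [this]; group
  | one => simp
  | mul y z _ _ h1 h2 => exact h1.mul_right h2
  | inv y _ h1 => exact h1.inv_right

/-- conjugation by a letter with entry one, on the first layer -/
def ph (a b : s) : NN x ε →* NN x ε :=
  ((MulAut.conj (x a b 1)).toMonoidHom.comp (NN x ε).subtype).codRestrict _ fun y =>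
    K.conj_one a b y y.2

theorem ph_val (a b : s) (y : NN x ε) : (K.ph a b y : Q) = x a b 1 * y * (x a b 1)⁻¹ := rfl

theorem hh_rel {i j k : s} (hij : i ≠ j) (hjk : j ≠ k) (hik : i ≠ k) :
    hh x ε i k = hh x ε i j * (hh x ε k j)⁻¹ := by
  let _ : CommGroup (NN x ε) :=
    { (inferInstance : Group (NN x ε)) with mul_comm := fun y z => Subtype.ext (K.comm y.2 z.2) }
  let E : s → s → NN x ε := fun a b => ⟨x a b ε, e_mem a b⟩
  let H : s → s → NN x ε := fun a b => ⟨hh x ε a b, h_mem a b⟩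
  have f1 : ∀ {a b c}, a ≠ b → b ≠ c → a ≠ c → K.ph a b (E b c) = E a c * E b c :=
    fun h1 h2 h3 => Subtype.ext (by simpa [ph_val, E] using K.c1 h1 h2 h3 1 ε)
  have f2 : ∀ {a b c}, a ≠ b → b ≠ c → a ≠ c → K.ph a b (E c a) = (E c b)⁻¹ * E c a :=
    fun h1 h2 h3 => Subtype.ext (by simpa [ph_val, E, K.neg] using K.c2 h1 h2 h3 1 ε)
  have f3 : ∀ a b, K.ph a b (E b a) = H a b * (E a b)⁻¹ * E b a :=
    fun a b => Subtype.ext (K.conj_e a b)
  have f4 : K.ph i j (E k j) = E k j := Subtype.ext (by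
    rw [ph_val, (K.c0 hjk hij _ _).eq, mul_inv_cancel_right])
  have f5 : K.ph i j (H k j) = (E i j)⁻¹ * H k j := Subtype.ext (by
    have := K.dg hjk.symm i j 1
    simp only [sg, if_neg hik, if_neg hij, if_neg hjk, if_true, sub_zero, mul_zero, add_zero,
      mul_one, one_mul, zero_sub, mul_neg, sub_neg_eq_add] at this
    rw [add_comm, K.add] at this
    change x i j 1 * hh x ε k j * (x i j 1)⁻¹ = (x i j ε)⁻¹ * hh x ε k j
    calc _ = x i j 1 * (hh x ε k j * x i j 1 * (hh x ε k j)⁻¹)⁻¹ * hh x ε k j := by group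
      _ = _ := by rw [this, (K.same i j ε 1).eq, _root_.mul_inv_rev, (K.same i j ε 1).inv_inv.eq]; group)
  have f6 : ∀ y, K.ph i k (K.ph k j y) = K.ph i j (K.ph k j (K.ph i k y)) := fun y =>
    Subtype.ext (by
      have := K.c1 hik hjk.symm hij 1 1
      rw [mul_one, mul_inv_eq_iff_eq_mul] at this
      simp only [ph_val]
      calc _ = (x i k 1 * x k j 1) * y * (x i k 1 * x k j 1)⁻¹ := by group
        _ = _ := by rw [this]; group)
  have g := f6 (E j i)
  simp only [f1 hjk.symm hij.symm hik.symm, f2 hik hjk.symm hij, f3, map_mul, map_inv,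
    f2 hij hjk hik, f1 hij hjk hik, f4, f5] at g
  have g2 : H i k = H i j * (H k j)⁻¹ := by
    apply Additive.ofMul.injective
    have g3 := congrArg Additive.ofMul g
    simp only [ofMul_mul, ofMul_inv] at g3 ⊢
    linear_combination (norm := abel) g3
  exact congrArg Subtype.val g2

theorem exists_sigma (h3 : Three s) (o : s) : ∃ σ : Matrix s s ℤ → Q, σ 0 = 1 ∧
    (∀ A B, σ (A + B) = σ A * σ B) ∧ (∀ i j, i ≠ j → σ (single i j 1) = x i j ε) ∧
    ∀ i j, i ≠ j → σ (single i i 1 - single j j 1) = hh x ε i j := by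
  let _ : CommGroup (NN x ε) :=
    { (inferInstance : Group (NN x ε)) with mul_comm := fun y z => Subtype.ext (K.comm y.2 z.2) }
  let E : s → s → NN x ε := fun a b => ⟨x a b ε, e_mem a b⟩
  let H : s → s → NN x ε := fun a b => ⟨hh x ε a b, h_mem a b⟩
  have E0 : ∀ a, E a a = 1 := fun a => Subtype.ext (K.self a ε)
  have H0 : ∀ a, H a a = 1 := fun a => Subtype.ext (K.hh_self a)
  let σ : Matrix s s ℤ → NN x ε := fun A => (∏ i, ∏ j, E i j ^ A i j) * ∏ i, H i o ^ A i i
  have hadd : ∀ A B, σ (A + B) = σ A * σ B := fun A B => by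
    simp only [σ, Matrix.add_apply, _root_.zpow_add, Finset.prod_mul_distrib]
    exact mul_mul_mul_comm _ _ _ _
  have h0 : σ 0 = 1 := by simp [σ]
  have hs : ∀ i j, σ (single i j 1) = E i j * if i = j then H i o else 1 := fun i j => by
    simp only [σ, Matrix.single_apply, ite_and, pow_ite, zpow_one, zpow_zero]
    congr 1
    · rw [Finset.prod_eq_single i (fun a _ h => by simp [h.symm]) (by simp)]
      simp
    · rw [Finset.prod_eq_single i (fun a _ h => by simp [h.symm]) (by simp)]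
      simp [eq_comm]
  refine ⟨fun A => σ A, by simp [h0], fun A B => by simp [hadd], fun i j h => by simp [hs, h, E],
    fun i j h => ?_⟩
  have e : σ (single i i 1 - single j j 1) = H i o * (H j o)⁻¹ := by
    rw [eq_mul_inv_iff_mul_eq]
    have h1 := hs i i
    have h2 := hs j j
    rw [if_pos rfl, E0, one_mul] at h1 h2
    rw [← h1, ← h2, ← hadd, sub_add_cancel]
  simp only [e]
  change hh x ε i o * (hh x ε j o)⁻¹ = _
  by_cases h1 : j = o
  · rw [h1, K.hh_self, inv_one, mul_one]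
  by_cases h2 : i = o
  · subst h2
    obtain ⟨m, m1, m2⟩ := h3 i j
    rw [K.hh_self, one_mul, K.hh_rel (Ne.symm m2) m1 h1, K.hh_rel (Ne.symm m1) m2 h]
    group
  · exact (K.hh_rel h2 (Ne.symm h1) h).symm

end KS

end Pool.Agent.MP_993212_an.H15
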