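import Mathlib

/-! Elementary groups over a commutative ring: letters, rank one transvections, relative
elementary groups, congruence subgroups. -/

set_option linter.unusedSectionVars false

namespace Pool.Agent.MP_993212_an.H15

open Matrix
open scoped commutatorElement

variable {R : Type} [CommRing R] {s : Type} [Fintype s] [DecidableEq s]

theorem vv_mul (a b c d : s → R) :
    vecMulVec a b * vecMulVec c d = (b ⬝ᵥ c) • vecMulVec a d := by
  rw [vecMulVec_mul_vecMulVec, vecMulVec_smul]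

open Classical in
/-- the unit `1 + v wᵀ` when `w ⬝ᵥ v = 0` -/
noncomputable def tv (v w : s → R) : GL s R :=
  if h : w ⬝ᵥ v = 0 then
    ⟨1 + vecMulVec v w, 1 - vecMulVec v w,
      by rw [add_mul, one_mul, mul_sub, mul_one, vv_mul, h, zero_smul]; abel,
      by rw [sub_mul, one_mul, mul_add, mul_one, vv_mul, h, zero_smul]; abel⟩
  else 1

/-- the elementary letter `1 + a E i j`, trivial for `i = j` -/
noncomputable def xe (i j : s) (a : R) : GL s R := tv (Pi.single i a) (Pi.single j 1)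

/-- the elementary group -/
def El (s R : Type) [CommRing R] [Fintype s] [DecidableEq s] : Subgroup (GL s R) :=
  Subgroup.closure {g | ∃ i j a, g = xe i j a}

/-- the group generated by the letters with entries in prescribed ideals -/
def Fl (I : s → s → Ideal R) : Subgroup (GL s R) :=
  Subgroup.closure {g | ∃ i j, ∃ a ∈ I i j, g = xe i j a}

/-- the relative elementary group -/
def Hn (s : Type) [Fintype s] [DecidableEq s] (I : Ideal R) : Subgroup (GL s R) :=
  Subgroup.normalClosure {g | ∃ i j, ∃ a ∈ I, g = xe i j a}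

instance (I : Ideal R) : (Hn s I).Normal := Subgroup.normalClosure_normal

/-- the congruence subgroup -/
def Cn (s : Type) [Fintype s] [DecidableEq s] (I : Ideal R) : Subgroup (GL s R) :=
  (Units.map (Ideal.Quotient.mk I).mapMatrix.toMonoidHom).ker

instance (I : Ideal R) : (Cn s I).Normal := MonoidHom.normal_ker _

/-- there are at least three indices -/
def Three (s : Type) : Prop := ∀ k l : s, ∃ m, m ≠ k ∧ m ≠ l

theorem three_of_card (h : 3 ≤ Fintype.card s) : Three s := fun k l => by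
  by_contra h2
  have : (Finset.univ : Finset s) ⊆ {k, l} := fun m _ => by
    by_contra h3
    exact h2 ⟨m, by simpa using h3⟩
  have h4 := Finset.card_le_card this
  have h5 := Finset.card_le_two (a := k) (b := l)
  rw [Finset.card_univ] at h4
  omega

theorem mem_Cn {I : Ideal R} {g : GL s R} : g ∈ Cn s I ↔ ∀ i j, (g.val - 1) i j ∈ I := by
  rw [Cn, MonoidHom.mem_ker, Units.ext_iff, ← Matrix.ext_iff]
  refine forall₂_congr fun i j => ?_
  rw [Matrix.sub_apply, ← Ideal.Quotient.eq]
  by_cases h : i = j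
  · subst h; simp
  · simp [h]

theorem tv_val {v w : s → R} (h : w ⬝ᵥ v = 0) : (tv v w).val = 1 + vecMulVec v w := by
  rw [tv, dif_pos h]

theorem tv_inv_val {v w : s → R} (h : w ⬝ᵥ v = 0) : (tv v w)⁻¹.val = 1 - vecMulVec v w := by
  rw [tv, dif_pos h]; rfl

theorem tv_of_ne {v w : s → R} (h : w ⬝ᵥ v ≠ 0) : tv v w = 1 := by rw [tv, dif_neg h]

@[simp] theorem tv_zero_left (w : s → R) : tv 0 w = 1 :=
  Units.ext (by rw [tv_val (by simp)]; simp)

@[simp] theorem tv_zero_right (v : s → R) : tv v 0 = 1 :=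
  Units.ext (by rw [tv_val (by simp)]; simp)

theorem tv_add_right {v w w' : s → R} (h : w ⬝ᵥ v = 0) (h' : w' ⬝ᵥ v = 0) :
    tv v (w + w') = tv v w * tv v w' := by
  apply Units.ext
  rw [Units.val_mul, tv_val h, tv_val h', tv_val (by simp [h, h']), vecMulVec_add, add_mul, one_mul,
    mul_add, mul_one, vv_mul, h, zero_smul]
  abel

theorem tv_add_left {v v' w : s → R} (h : w ⬝ᵥ v = 0) (h' : w ⬝ᵥ v' = 0) :
    tv (v + v') w = tv v w * tv v' w := by
  apply Units.ext
  rw [Units.val_mul, tv_val h, tv_val h', tv_val (by simp [h, h']), add_vecMulVec, add_mul, one_mul,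
    mul_add, mul_one, vv_mul, h', zero_smul]
  abel

theorem tv_smul (c : R) (v w : s → R) : tv (c • v) w = tv v (c • w) := by
  by_cases h : c * (w ⬝ᵥ v) = 0
  · apply Units.ext
    rw [tv_val (by simpa using h), tv_val (by simpa using h), smul_vecMulVec, vecMulVec_smul]
  · rw [tv_of_ne (by simpa using h), tv_of_ne (by simpa using h)]

theorem tv_neg (v w : s → R) : tv (-v) w = (tv v w)⁻¹ := by
  by_cases h : w ⬝ᵥ v = 0
  · apply Units.ext
    rw [tv_val (by simpa using h), tv_inv_val h, neg_vecMulVec, sub_eq_add_neg]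
  · rw [tv_of_ne (by simpa using h), tv_of_ne h, inv_one]

theorem tv_neg_right (v w : s → R) : tv v (-w) = (tv v w)⁻¹ := by
  rw [← tv_neg, ← neg_one_smul R v, tv_smul, neg_one_smul]

theorem conj_tv (g : GL s R) (v w : s → R) :
    g * tv v w * g⁻¹ = tv (g.val *ᵥ v) (w ᵥ* g⁻¹.val) := by
  have e : (w ᵥ* g⁻¹.val) ⬝ᵥ (g.val *ᵥ v) = w ⬝ᵥ v := by
    rw [← dotProduct_mulVec, mulVec_mulVec, Units.inv_mul, one_mulVec]
  by_cases h : w ⬝ᵥ v = 0
  · apply Units.ext
    rw [tv_val (e.trans h), Units.val_mul, Units.val_mul, tv_val h, mul_add, add_mul, mul_one,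
      Units.mul_inv, mul_vecMulVec, vecMulVec_mul]
  · rw [tv_of_ne h, tv_of_ne (e ▸ h), mul_one, mul_inv_cancel]

theorem comm_tv {a b c d : s → R} (h1 : b ⬝ᵥ a = 0) (h2 : d ⬝ᵥ c = 0) (h3 : d ⬝ᵥ a = 0) :
    ⁅tv a b, tv c d⁆ = tv ((b ⬝ᵥ c) • a) d := by
  rw [commutatorElement_def, mul_inv_eq_iff_eq_mul, mul_inv_eq_iff_eq_mul]
  apply Units.ext
  simp only [Units.val_mul]
  rw [tv_val h1, tv_val h2, tv_val (by simp [h3])]
  simp only [add_mul, mul_add, one_mul, mul_one, vv_mul, smul_vecMulVec, smul_mul_assoc, h2, h3,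
    zero_smul, smul_zero, add_zero]
  abel

theorem xe_val {i j : s} (h : i ≠ j) (a : R) : (xe i j a).val = 1 + Matrix.single i j a := by
  rw [xe, tv_val (by simp [h.symm])]
  congr 1
  ext k l
  simp only [vecMulVec_apply, Pi.single_apply, Matrix.single_apply, @eq_comm _ i, @eq_comm _ j]
  by_cases h1 : k = i <;> by_cases h2 : l = j <;> simp [h1, h2]

@[simp] theorem xe_zero (i j : s) : xe i j (0 : R) = 1 := by simp [xe]

@[simp] theorem xe_self (i : s) (a : R) : xe i i a = 1 := by
  by_cases h : a = 0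
  · simp [h]
  · exact tv_of_ne (by simpa using h)

theorem xe_eq (i j : s) (a : R) : xe i j a = tv (Pi.single i 1) (Pi.single j a) := by
  have h1 : (Pi.single i a : s → R) = a • (Pi.single i 1 : s → R) := by
    rw [← Pi.single_smul, smul_eq_mul, mul_one]
  have h2 : (Pi.single j a : s → R) = a • (Pi.single j 1 : s → R) := by
    rw [← Pi.single_smul, smul_eq_mul, mul_one]
  rw [xe, h1, h2, tv_smul]

theorem xe_add (i j : s) (a b : R) : xe i j (a + b) = xe i j a * xe i j b := by
  by_cases h : i = j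
  · simp [h]
  · rw [xe, Pi.single_add, tv_add_left (by simp [Ne.symm h]) (by simp [Ne.symm h])]; rfl

theorem xe_neg (i j : s) (a : R) : xe i j (-a) = (xe i j a)⁻¹ := by
  rw [xe, Pi.single_neg, tv_neg]; rfl

theorem xe_inv_val {i j : s} (h : i ≠ j) (a : R) :
    (xe i j a)⁻¹.val = 1 - Matrix.single i j a := by
  rw [← xe_neg, xe_val h, sub_eq_add_neg, Matrix.single_neg]

theorem xe_comm1 {i j k : s} (hij : i ≠ j) (hjk : j ≠ k) (hik : i ≠ k) (a b : R) :
    ⁅xe i j a, xe j k b⁆ = xe i k (a * b) := by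
  rw [xe, xe, comm_tv (by simp [hij.symm]) (by simp [hjk.symm]) (by simp [hik.symm]), xe,
    ← Pi.single_smul]
  simp [mul_comm]

theorem xe_comm0 {i j k l : s} (hjk : j ≠ k) (hil : i ≠ l) (a b : R) :
    Commute (xe i j a) (xe k l b) := by
  by_cases hij : i = j
  · simp [hij]
  by_cases hkl : k = l
  · simp [hkl]
  rw [← commutatorElement_eq_one_iff_commute, xe, xe,
    comm_tv (by simp [Ne.symm hij]) (by simp [Ne.symm hkl]) (by simp [hil.symm])]
  simp [hjk]

theorem xe_mem_El (i j : s) (a : R) : xe i j a ∈ El s R := Subgroup.subset_closure ⟨i, j, a, rfl⟩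

theorem xe_mem_Fl {I : s → s → Ideal R} {i j : s} {a : R} (h : a ∈ I i j) : xe i j a ∈ Fl I :=
  Subgroup.subset_closure ⟨i, j, a, h, rfl⟩

theorem xe_mem_Hn {I : Ideal R} (i j : s) {a : R} (h : a ∈ I) : xe i j a ∈ Hn s I :=
  Subgroup.subset_normalClosure ⟨i, j, a, h, rfl⟩

theorem xe_mem_Cn {I : Ideal R} (i j : s) {a : R} (h : a ∈ I) : xe i j a ∈ Cn s I := by
  by_cases hij : i = j
  · simp [hij, one_mem]
  rw [mem_Cn, xe_val hij]
  intro k l
  rw [add_sub_cancel_left, Matrix.single_apply]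
  split_ifs
  exacts [h, I.zero_mem]

theorem Hn_le_Cn (I : Ideal R) : Hn s I ≤ Cn s I :=
  Subgroup.normalClosure_le_normal fun _ ⟨i, j, _, h, e⟩ => e ▸ xe_mem_Cn i j h

theorem Hn_mono {I J : Ideal R} (h : I ≤ J) : Hn s I ≤ Hn s J :=
  Subgroup.normalClosure_mono fun _ ⟨i, j, a, ha, e⟩ => ⟨i, j, a, h ha, e⟩

theorem Cn_mono {I J : Ideal R} (h : I ≤ J) : Cn s I ≤ Cn s J := fun _ hg =>
  mem_Cn.2 fun i j => h (mem_Cn.1 hg i j)

theorem Fl_mono {I J : s → s → Ideal R} (h : ∀ i j, I i j ≤ J i j) : Fl I ≤ Fl J :=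
  Subgroup.closure_mono fun _ ⟨i, j, a, ha, e⟩ => ⟨i, j, a, h i j ha, e⟩

theorem Fl_le_El (I : s → s → Ideal R) : Fl I ≤ El s R :=
  Subgroup.closure_mono fun _ ⟨i, j, a, _, e⟩ => ⟨i, j, a, e⟩

theorem Fl_le_Hn {I : s → s → Ideal R} {J : Ideal R} (h : ∀ i j, I i j ≤ J) : Fl I ≤ Hn s J :=
  (Subgroup.closure_le _).2 fun _ ⟨i, j, _, ha, e⟩ => e ▸ xe_mem_Hn i j (h i j ha)

theorem Fl_top : Fl (fun _ _ : s => (⊤ : Ideal R)) = El s R := by
  unfold Fl El
  simp

theorem det_xe (i j : s) (a : R) : (xe i j a).val.det = 1 := by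
  by_cases h : i = j
  · simp [h]
  · rw [xe_val h]; exact det_transvection_of_ne i j h a

theorem det_of_mem_El {g : GL s R} (h : g ∈ El s R) : g.val.det = 1 := by
  induction h using Subgroup.closure_induction with
  | mem x hx => obtain ⟨i, j, a, rfl⟩ := hx; exact det_xe i j a
  | one => simp
  | mul x y _ _ h1 h2 => rw [Units.val_mul, det_mul, h1, h2, one_mul]
  | inv x _ h1 =>
    have := congrArg Matrix.det x.inv_mul
    rwa [det_mul, h1, mul_one, det_one] at this

/-- a column is a product of letters -/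
theorem col_mem {S : Subgroup (GL s R)} {m : s} {v : s → R} (hv : v m = 0)
    (h : ∀ i, xe i m (v i) ∈ S) : tv v (Pi.single m 1) ∈ S := by
  have key : ∀ T : Finset s, tv (∑ i ∈ T, Pi.single i (v i)) (Pi.single m 1) ∈ S := by
    have h0 : ∀ i, (Pi.single m 1 : s → R) ⬝ᵥ Pi.single i (v i) = 0 := fun i => by
      by_cases e : m = i
      · simp [← e, hv]
      · simp [e]
    intro T
    induction T using Finset.induction_on with
    | empty => simp [one_mem]
    | insert i T hi ih =>
      rw [Finset.sum_insert hi, tv_add_left (h0 i) (by simp [dotProduct_sum, -single_dotProduct, h0])]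
      exact S.mul_mem (h i) ih
  simpa [Finset.univ_sum_single] using key Finset.univ

/-- a row is a product of letters -/
theorem row_mem {S : Subgroup (GL s R)} {m : s} {w : s → R} (hw : w m = 0)
    (h : ∀ j, xe m j (w j) ∈ S) : tv (Pi.single m 1) w ∈ S := by
  have key : ∀ T : Finset s, tv (Pi.single m 1) (∑ i ∈ T, Pi.single i (w i)) ∈ S := by
    have h0 : ∀ i, (Pi.single i (w i) : s → R) ⬝ᵥ Pi.single m 1 = 0 := fun i => by
      by_cases e : m = i
      · simp [← e, hw]
      · simp [e]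
    intro T
    induction T using Finset.induction_on with
    | empty => simp [one_mem]
    | insert i T hi ih =>
      rw [Finset.sum_insert hi, tv_add_right (h0 i) (by simp [sum_dotProduct, -dotProduct_single, h0])]
      exact S.mul_mem (xe_eq m i (w i) ▸ h i) ih
  simpa [Finset.univ_sum_single] using key Finset.univ

end Pool.Agent.MP_993212_an.H15
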