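import Pool.Agent.MP_993212_an.H15.KGen

/-! Stabilisation, block elementary matrices, the Whitehead lemma. -/

set_option linter.unusedSectionVars false

namespace Pool.Agent.MP_993212_an.H15

open Matrix

variable {R : Type} [CommRing R] {s u v : Type} [Fintype s] [DecidableEq s] [Fintype u]
  [DecidableEq u] [Fintype v] [DecidableEq v]

/-- the matrix of a map of index sets -/
def pm (R : Type) [CommRing R] (f : s → u) : Matrix s u R := of fun i j => if f i = j then 1 else 0

theorem pm_mul_transpose (f : s ↪ u) : pm R f * (pm R f)ᵀ = 1 := by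
  ext i j
  simp [pm, mul_apply, one_apply, eq_comm]

theorem pm_comp (f : s → u) (g : u → v) : pm R f * pm R g = pm R (g ∘ f) := by
  ext i j
  rw [mul_apply, Finset.sum_eq_single (f i) (fun c _ h => by simp [pm, h.symm]) (by simp)]
  simp [pm]

/-- extension of a matrix by the identity along an embedding of index sets -/
def extM (f : s ↪ u) : Matrix s s R →* Matrix u u R where
  toFun M := 1 + (pm R f)ᵀ * (M - 1) * pm R f
  map_one' := by simp
  map_mul' M N := by
    have e : M * N - 1 = (M - 1) + (N - 1) + (M - 1) * (N - 1) := by noncomm_ring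
    have e2 : (pm R f)ᵀ * (M - 1) * pm R f * ((pm R f)ᵀ * (N - 1) * pm R f) =
        (pm R f)ᵀ * ((M - 1) * (N - 1)) * pm R f := by
      simp only [Matrix.mul_assoc]
      rw [← Matrix.mul_assoc (pm R f), pm_mul_transpose, Matrix.one_mul]
    rw [e, add_mul, mul_add, mul_add, e2]
    simp only [Matrix.mul_add, Matrix.add_mul, one_mul, mul_one]
    abel

theorem extM_def (f : s ↪ u) (M : Matrix s s R) :
    extM f M = 1 + (pm R f)ᵀ * (M - 1) * pm R f := rfl

theorem pm_sand (f : s ↪ u) (M : Matrix s s R) (i j : s) :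
    ((pm R f)ᵀ * M * pm R f) (f i) (f j) = M i j := by
  simp [pm, mul_apply]

theorem pm_sand_left (f : s ↪ u) (M : Matrix s s R) {a : u} (h : ∀ i, f i ≠ a) (b : u) :
    ((pm R f)ᵀ * M * pm R f) a b = 0 := by
  simp [pm, mul_apply, h]

theorem pm_sand_right (f : s ↪ u) (M : Matrix s s R) (a : u) {b : u} (h : ∀ i, f i ≠ b) :
    ((pm R f)ᵀ * M * pm R f) a b = 0 := by
  simp [pm, mul_apply, h]

theorem extM_apply (f : s ↪ u) (M : Matrix s s R) (i j : s) : extM f M (f i) (f j) = M i j := by
  rw [extM_def, Matrix.add_apply, pm_sand]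
  simp [one_apply]

theorem extM_left (f : s ↪ u) (M : Matrix s s R) {a : u} (h : ∀ i, f i ≠ a) (b : u) :
    extM f M a b = (1 : Matrix u u R) a b := by
  rw [extM_def, Matrix.add_apply, pm_sand_left f _ h, add_zero]

theorem extM_right (f : s ↪ u) (M : Matrix s s R) (a : u) {b : u} (h : ∀ i, f i ≠ b) :
    extM f M a b = (1 : Matrix u u R) a b := by
  rw [extM_def, Matrix.add_apply, pm_sand_right f _ _ h, add_zero]

theorem extM_trans (f : s ↪ u) (g : u ↪ v) (M : Matrix s s R) :
    extM (f.trans g) M = extM g (extM f M) := by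
  simp only [extM_def, add_sub_cancel_left, Function.Embedding.coe_trans, ← pm_comp, transpose_mul,
    Matrix.mul_assoc]

theorem extM_inl (M : Matrix s s R) :
    extM (Function.Embedding.inl : s ↪ s ⊕ u) M = fromBlocks M 0 0 1 := by
  ext (a | a) (b | b)
  · exact extM_apply _ M a b
  · rw [extM_right _ _ _ (by simp)]; simp
  · rw [extM_left _ _ (by simp)]; simp
  · rw [extM_left _ _ (by simp)]; simp [one_apply]

theorem extM_inr (M : Matrix u u R) :
    extM (Function.Embedding.inr : u ↪ s ⊕ u) M = fromBlocks 1 0 0 M := by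
  ext (a | a) (b | b)
  · rw [extM_left _ _ (by simp)]; simp [one_apply]
  · rw [extM_left _ _ (by simp)]; simp
  · rw [extM_right _ _ _ (by simp)]; simp
  · exact extM_apply _ M a b

theorem extM_equiv (e : s ≃ u) (M : Matrix s s R) :
    extM e.toEmbedding M = M.submatrix e.symm e.symm := by
  ext a b
  simpa using extM_apply e.toEmbedding M (e.symm a) (e.symm b)

/-- stabilisation -/
def ext (f : s ↪ u) : GL s R →* GL u R := Units.map (extM f)

theorem ext_val (f : s ↪ u) (g : GL s R) : (ext f g).val = extM f g.val := rfl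

theorem ext_trans (f : s ↪ u) (g : u ↪ v) (x : GL s R) : ext (f.trans g) x = ext g (ext f x) :=
  Units.ext (extM_trans f g x.val)

theorem ext_xe (f : s ↪ u) (i j : s) (a : R) : ext f (xe i j a) = xe (f i) (f j) a := by
  by_cases h : i = j
  · simp [h]
  apply Units.ext
  rw [ext_val, xe_val h, xe_val (f.injective.ne h), extM_def, add_sub_cancel_left]
  congr 1
  ext a b
  simp only [pm, mul_apply, transpose_apply, of_apply, Matrix.single_apply, ite_and, mul_ite,
    ite_mul, mul_one, one_mul, mul_zero, zero_mul]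
  rw [Finset.sum_eq_single j (fun c _ h => by simp [h.symm]) (by simp),
    Finset.sum_eq_single i (fun c _ h => by simp [h.symm]) (by simp)]
  by_cases h1 : f i = a <;> by_cases h2 : f j = b <;> simp [h1, h2]

theorem ext_sy (f : s ↪ u) (i j : s) (a b : R) : ext f (sy i j a b) = sy (f i) (f j) a b := by
  rw [sy, map_commutatorElement, ext_xe, ext_xe, sy]

theorem ext_mem_El (f : s ↪ u) {g : GL s R} (h : g ∈ El s R) : ext f g ∈ El u R := by
  refine (Subgroup.closure_le ((El u R).comap (ext f))).2 (fun x hx => ?_) h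
  obtain ⟨i, j, a, rfl⟩ := hx
  rw [SetLike.mem_coe, Subgroup.mem_comap, ext_xe]
  exact xe_mem_El _ _ _

theorem ext_mem_Hn (f : s ↪ u) {I : Ideal R} {g : GL s R} (h : g ∈ Hn s I) :
    ext f g ∈ Hn u I := by
  refine Subgroup.normalClosure_le_normal (N := (Hn u I).comap (ext f)) (fun x hx => ?_) h
  obtain ⟨i, j, a, ha, rfl⟩ := hx
  rw [SetLike.mem_coe, Subgroup.mem_comap, ext_xe]
  exact xe_mem_Hn _ _ ha

theorem ext_mem_Fl (f : s ↪ u) {I : s → s → Ideal R} {I' : u → u → Ideal R}
    (hI : ∀ i j, I i j ≤ I' (f i) (f j)) {g : GL s R} (h : g ∈ Fl I) : ext f g ∈ Fl I' := by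
  refine (Subgroup.closure_le ((Fl I').comap (ext f))).2 (fun x hx => ?_) h
  obtain ⟨i, j, a, ha, rfl⟩ := hx
  rw [SetLike.mem_coe, Subgroup.mem_comap, ext_xe]
  exact xe_mem_Fl (hI i j ha)

theorem ext_mem_Cn (f : s ↪ u) {I : Ideal R} {g : GL s R} (h : g ∈ Cn s I) :
    ext f g ∈ Cn u I := by
  rw [mem_Cn] at h ⊢
  intro a b
  rw [ext_val, extM_def, add_sub_cancel_left]
  simp only [mul_apply]
  exact I.sum_mem fun _ _ => I.mul_mem_right _ (I.sum_mem fun _ _ => I.mul_mem_left _ (h _ _))

/-- a permutation matrix -/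
def pu (R : Type) [CommRing R] (σ : Equiv.Perm u) : GL u R :=
  ⟨(pm R σ)ᵀ, pm R σ, mul_eq_one_comm.1 (pm_mul_transpose σ.toEmbedding),
    pm_mul_transpose σ.toEmbedding⟩

theorem ext_perm (σ : Equiv.Perm u) (g : GL u R) :
    ext σ.toEmbedding g = pu R σ * g * (pu R σ)⁻¹ := by
  apply Units.ext
  change 1 + (pm R σ)ᵀ * (g.val - 1) * pm R σ = (pm R σ)ᵀ * g.val * pm R σ
  rw [mul_sub, sub_mul, mul_one, (pu R σ).val_inv.trans rfl |> fun h => (h : (pm R σ)ᵀ * pm R σ = 1)]
  abel

/-- membership of a stabilised element in a normal subgroup does not depend on the embedding -/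
theorem ext_indep (f f' : s ↪ u) {S : Subgroup (GL u R)} (hS : S.Normal) {g : GL s R}
    (h : ext f g ∈ S) : ext f' g ∈ S := by
  obtain ⟨σ, hσ⟩ := Equiv.Perm.exists_extending_pair f f' f.injective f'.injective
  have : f' = f.trans σ.toEmbedding := by ext i; simp [hσ]
  rw [this, ext_trans, ext_perm]
  exact hS.conj_mem _ h _

/-- a matrix with disjoint row and column supports gives a product of letters -/
theorem nil_mem {S : Subgroup (GL s R)} (p : s → Prop) {g : GL s R}
    (h1 : ∀ i j, (g.val - 1) i j ≠ 0 → p i ∧ ¬p j) (h2 : ∀ i j, xe i j ((g.val - 1) i j) ∈ S) :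
    g ∈ S := by
  set N := g.val - 1 with hN
  have hd : ∀ i, N i i = 0 := fun i => by
    by_contra h
    exact (h1 i i h).2 (h1 i i h).1
  have key : ∀ T : Finset s, ∃ x ∈ S, x.val = 1 + of fun i j => if i ∈ T then N i j else 0 := by
    intro T
    induction T using Finset.induction_on with
    | empty => exact ⟨1, one_mem _, by ext i j; simp⟩
    | insert i T hi ih =>
      obtain ⟨x, hx, e⟩ := ih
      refine ⟨tv (Pi.single i 1) (N i) * x, mul_mem (row_mem (hd i) (h2 i)) hx, ?_⟩
      rw [Units.val_mul, tv_val (by simp [hd]), e, add_mul, one_mul, mul_add, mul_one,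
        vecMulVec_mul]
      have : (N i ᵥ* of fun i j => if i ∈ T then N i j else 0) = 0 := by
        funext j
        refine Finset.sum_eq_zero fun k _ => ?_
        by_cases h3 : N i k = 0
        · simp [h3]
        by_cases h4 : N k j = 0
        · simp [h4]
        exact absurd (h1 k j h4).1 (h1 i k h3).2
      rw [this]
      ext a b
      by_cases h : a = i
      · subst h; simp [vecMulVec_apply, hi]
      · simp [vecMulVec_apply, h]
  obtain ⟨x, hx, e⟩ := key Finset.univ
  have : x = g := Units.ext (by rw [e, hN]; ext i j; simp)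
  exact this ▸ hx

/-- upper block unitriangular element -/
def blkU (X : Matrix s u R) : GL (s ⊕ u) R :=
  ⟨fromBlocks 1 X 0 1, fromBlocks 1 (-X) 0 1, by simp [fromBlocks_multiply],
    by simp [fromBlocks_multiply]⟩

/-- lower block unitriangular element -/
def blkL (Y : Matrix u s R) : GL (s ⊕ u) R :=
  ⟨fromBlocks 1 0 Y 1, fromBlocks 1 0 (-Y) 1, by simp [fromBlocks_multiply],
    by simp [fromBlocks_multiply]⟩

theorem blkU_val (X : Matrix s u R) : (blkU X).val = fromBlocks 1 X 0 1 := rfl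

theorem blkL_val (Y : Matrix u s R) : (blkL Y).val = fromBlocks 1 0 Y 1 := rfl

theorem blkU_mem {S : Subgroup (GL (s ⊕ u) R)} {X : Matrix s u R}
    (h : ∀ i j, xe (Sum.inl i) (Sum.inr j) (X i j) ∈ S) : blkU X ∈ S := by
  refine nil_mem (fun a => a.isLeft) ?_ ?_
  · rintro (i | i) (j | j) <;> simp [blkU_val, one_apply]
  · rintro (i | i) (j | j) <;> simp [blkU_val, one_apply, one_mem, h]

theorem blkL_mem {S : Subgroup (GL (s ⊕ u) R)} {Y : Matrix u s R}
    (h : ∀ i j, xe (Sum.inr i) (Sum.inl j) (Y i j) ∈ S) : blkL Y ∈ S := by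
  refine nil_mem (fun a => a.isRight) ?_ ?_
  · rintro (i | i) (j | j) <;> simp [blkL_val, one_apply]
  · rintro (i | i) (j | j) <;> simp [blkL_val, one_apply, one_mem, h]

theorem blkU_mem_El (X : Matrix s u R) : blkU X ∈ El (s ⊕ u) R := blkU_mem fun _ _ => xe_mem_El _ _ _

theorem blkL_mem_El (Y : Matrix u s R) : blkL Y ∈ El (s ⊕ u) R := blkL_mem fun _ _ => xe_mem_El _ _ _

/-- the inverse of `1 + Y X` from the inverse of `1 + X Y` -/
def swapU (X : Matrix s u R) (Y : Matrix u s R) (g : GL s R) (h : g.val = 1 + X * Y) : GL u R :=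
  ⟨1 + Y * X, 1 - Y * g⁻¹.val * X,
    by
      have e : Y * X * (Y * g⁻¹.val * X) = Y * X - Y * g⁻¹.val * X := by
        have : X * Y = g.val - 1 := by rw [h]; abel
        calc _ = Y * ((X * Y) * g⁻¹.val) * X := by simp only [Matrix.mul_assoc]
          _ = _ := by rw [this, sub_mul, g.mul_inv]; simp [Matrix.mul_sub, Matrix.sub_mul]
      rw [add_mul, mul_sub, mul_sub, e]
      simp,
    by
      have e : Y * g⁻¹.val * X * (Y * X) = Y * X - Y * g⁻¹.val * X := by
        have : X * Y = g.val - 1 := by rw [h]; abel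
        calc _ = Y * (g⁻¹.val * (X * Y)) * X := by simp only [Matrix.mul_assoc]
          _ = _ := by rw [this, mul_sub, g.inv_mul]; simp [Matrix.mul_sub, Matrix.sub_mul]
      rw [mul_add, sub_mul, sub_mul, e]
      simp⟩

theorem swapU_val (X : Matrix s u R) (Y : Matrix u s R) (g : GL s R) (h : g.val = 1 + X * Y) :
    (swapU X Y g h).val = 1 + Y * X := rfl

theorem whitehead_eq {X : Matrix s u R} {Y : Matrix u s R} {g : GL s R} {g' : GL u R}
    (h : g.val = 1 + X * Y) (h' : g'.val = 1 + Y * X) :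
    blkU X * ext Function.Embedding.inl g * blkL (-Y) =
      blkL (-Y) * ext Function.Embedding.inr g' * blkU X := by
  apply Units.ext
  simp [blkU_val, blkL_val, ext_val, extM_inl, extM_inr, fromBlocks_multiply, h, h', add_comm]

theorem three_of_emb (f : s ↪ u) (h : Three s) (h0 : Nonempty s) : Three u := fun k l => by
  obtain ⟨a⟩ := h0
  obtain ⟨b, hb, -⟩ := h a a
  obtain ⟨c, hc1, hc2⟩ := h a b
  by_contra h2
  have h4 : ∀ m, m = k ∨ m = l := fun m => by
    by_contra h5
    exact h2 ⟨m, by simpa [not_or] using h5⟩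
  have h5 := f.injective.ne hb
  have h6 := f.injective.ne hc1
  have h7 := f.injective.ne hc2
  rcases h4 (f a) with e1 | e1 <;> rcases h4 (f b) with e2 | e2 <;> rcases h4 (f c) with e3 | e3 <;>
    simp_all

/-- Whitehead lemma -/
theorem whitehead_El {X : Matrix s u R} {Y : Matrix u s R} {g : GL s R} {g' : GL u R}
    (h : g.val = 1 + X * Y) (h' : g'.val = 1 + Y * X) :
    ext Function.Embedding.inl g ∈ El (s ⊕ u) R ↔ ext Function.Embedding.inr g' ∈ El (s ⊕ u) R := by
  rw [← (El _ R).mul_mem_cancel_left (blkU_mem_El X), ← (El _ R).mul_mem_cancel_right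
    (blkL_mem_El (-Y)), whitehead_eq h h', (El _ R).mul_mem_cancel_right (blkU_mem_El X),
    (El _ R).mul_mem_cancel_left (blkL_mem_El (-Y))]

/-- relative Whitehead lemma, left factor in the ideal -/
theorem whitehead_Hn (h3 : Three (s ⊕ u)) {I : Ideal R} {X : Matrix s u R} {Y : Matrix u s R}
    {g : GL s R} {g' : GL u R} (h : g.val = 1 + X * Y) (h' : g'.val = 1 + Y * X)
    (hX : ∀ i j, X i j ∈ I) :
    ext Function.Embedding.inl g * (ext Function.Embedding.inr g')⁻¹ ∈ Hn (s ⊕ u) I := by
  have e := congrArg (QuotientGroup.mk' (Hn (s ⊕ u) I)) (whitehead_eq h h')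
  have h1 : QuotientGroup.mk' (Hn (s ⊕ u) I) (blkU X) = 1 :=
    (QuotientGroup.eq_one_iff _).2 (blkU_mem fun i j => xe_mem_Hn _ _ (hX i j))
  have h2 : g' ∈ Cn u I := mem_Cn.2 fun i j => by
    rw [h', add_sub_cancel_left, mul_apply]
    exact I.sum_mem fun k _ => I.mul_mem_left _ (hX _ _)
  simp only [map_mul, h1, one_mul, mul_one] at e
  rw [← (commute_of_Cn h3 (mk_xe I) (ext_mem_Cn _ h2) (blkL_mem_El _)).eq, mul_left_inj] at e
  rw [← QuotientGroup.eq_one_iff]
  change QuotientGroup.mk' _ _ = 1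
  rw [map_mul, map_inv, e, mul_inv_cancel]

/-- relative Whitehead lemma, right factor in the ideal -/
theorem whitehead_Hn' (h3 : Three (s ⊕ u)) {I : Ideal R} {X : Matrix s u R} {Y : Matrix u s R}
    {g : GL s R} {g' : GL u R} (h : g.val = 1 + X * Y) (h' : g'.val = 1 + Y * X)
    (hY : ∀ i j, Y i j ∈ I) :
    ext Function.Embedding.inl g * (ext Function.Embedding.inr g')⁻¹ ∈ Hn (s ⊕ u) I := by
  have e := congrArg (QuotientGroup.mk' (Hn (s ⊕ u) I)) (whitehead_eq h h')
  have h1 : QuotientGroup.mk' (Hn (s ⊕ u) I) (blkL (-Y)) = 1 :=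
    (QuotientGroup.eq_one_iff _).2 (blkL_mem fun i j => xe_mem_Hn _ _ (I.neg_mem (hY i j)))
  have h2 : g' ∈ Cn u I := mem_Cn.2 fun i j => by
    rw [h', add_sub_cancel_left, mul_apply]
    exact I.sum_mem fun k _ => I.mul_mem_right _ (hY _ _)
  simp only [map_mul, h1, one_mul, mul_one] at e
  rw [(commute_of_Cn h3 (mk_xe I) (ext_mem_Cn _ h2) (blkU_mem_El _)).eq, mul_right_inj] at e
  rw [← QuotientGroup.eq_one_iff]
  change QuotientGroup.mk' _ _ = 1
  rw [map_mul, map_inv, e, mul_inv_cancel]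

end Pool.Agent.MP_993212_an.H15
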