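import Pool.Agent.MP_993212_an.H15.KAbs

/-! The generation lemma over the integral polynomial ring. -/

set_option linter.unusedSectionVars false

namespace Pool.Agent.MP_993212_an.H15

open Matrix Polynomial

section General

variable {R : Type} [CommRing R] {s : Type} [Fintype s] [DecidableEq s]

theorem hh_val {i j : s} (hij : i ≠ j) {e : R} (he : e * e = 0) :
    (hh xe e i j).val = diagonal fun a => 1 + e * sg R i j a := by
  have e1 : (diagonal fun a => 1 + e * sg R i j a) = 1 + single i i e - single j j e := by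
    ext a b
    by_cases h : a = b
    · subst h
      simp [sg, Matrix.single_apply, mul_sub, add_sub_assoc, eq_comm]
    · have h1 : ¬(i = a ∧ i = b) := fun h1 => h (h1.1.symm.trans h1.2)
      have h2 : ¬(j = a ∧ j = b) := fun h1 => h (h1.1.symm.trans h1.2)
      simp [h, h1, h2]
  rw [e1, hh]
  simp only [Units.val_mul, xe_val hij, xe_val hij.symm, xe_inv_val hij, xe_inv_val hij.symm]
  simp [mul_add, add_mul, mul_sub, sub_mul, hij, hij.symm, he]
  abel

theorem hh_mem_El (e : R) (i j : s) : hh xe e i j ∈ El s R := by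
  have := fun i j a => xe_mem_El (R := R) (s := s) i j a
  exact mul_mem (mul_mem (mul_mem (mul_mem (this _ _ _) (this _ _ _)) (inv_mem (this _ _ _)))
    (inv_mem (this _ _ _))) (this _ _ _)

theorem map_hh {Q Q' : Type} [Group Q] [Group Q'] (f : Q →* Q') (x : s → s → R → Q) (e : R)
    (i j : s) : f (hh x e i j) = hh (fun i j a => f (x i j a)) e i j := by simp [hh]

theorem hh_congr {J : Ideal R} {i j : s} (hij : i ≠ j) {e : R} (he : e * e ∈ J) (a b : s) :
    (hh xe e i j).val a b - diagonal (fun a => 1 + e * sg R i j a) a b ∈ J := by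
  rw [← Ideal.Quotient.eq]
  have h1 : gm (Ideal.Quotient.mk J) (hh xe e i j) = hh xe (Ideal.Quotient.mk J e) i j := by
    simp [hh, gm_xe]
  have h2 := congrArg (fun g : GL s (R ⧸ J) => g.val a b) h1
  rw [gm_val, hh_val hij (e := Ideal.Quotient.mk J e)
    (by rw [← map_mul]; exact Ideal.Quotient.eq_zero_iff_mem.2 he)] at h2
  refine h2.trans ?_
  simp [diagonal_apply, sg, apply_ite (Ideal.Quotient.mk J)]

theorem hh_inv_congr {J : Ideal R} {i j : s} (hij : i ≠ j) {e : R} (he : e * e ∈ J) (a b : s) :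
    (hh xe e i j)⁻¹.val a b - diagonal (fun a => 1 - e * sg R i j a) a b ∈ J := by
  rw [← Ideal.Quotient.eq]
  have he' : Ideal.Quotient.mk J e * Ideal.Quotient.mk J e = 0 := by
    rw [← map_mul]; exact Ideal.Quotient.eq_zero_iff_mem.2 he
  have h1 : gm (Ideal.Quotient.mk J) (hh xe e i j)⁻¹ = (hh xe (Ideal.Quotient.mk J e) i j)⁻¹ := by
    simp [hh, gm_xe]
  have h2 := congrArg (fun g : GL s (R ⧸ J) => g.val a b) h1
  rw [gm_val, Units.inv_eq_of_mul_eq_one_right
    (a := diagonal fun a => 1 - Ideal.Quotient.mk J e * sg _ i j a)] at h2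
  · refine h2.trans ?_
    simp [diagonal_apply, sg, apply_ite (Ideal.Quotient.mk J)]
  · rw [hh_val hij he', diagonal_mul_diagonal, ← diagonal_one]
    congr 1
    funext c
    linear_combination (-(sg (R ⧸ J) i j c) ^ 2) * he'

theorem hh_conj (h3 : Three s) {Q : Type} [Group Q] {π : GL s R →* Q} {J : Ideal R}
    (hπ : ∀ i j, ∀ a ∈ J, π (xe i j a) = 1) {i j : s} (hij : i ≠ j) {e : R} (he : e * e ∈ J)
    (a b : s) (c : R) : π (hh xe e i j) * π (xe a b c) * (π (hh xe e i j))⁻¹ =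
      π (xe a b ((1 + e * sg R i j a) * c * (1 - e * sg R i j b))) :=
  conj_diag h3 hπ (hh_congr hij he) (hh_inv_congr hij he) (fun a => by
    have := J.mul_mem_left (-(sg R i j a) ^ 2) he
    convert this using 1
    ring) a b c

end General

variable {s : Type} [Fintype s] [DecidableEq s]

/-- the ideal generated by a power of the variable -/
noncomputable def tI (m : ℕ) : Ideal ℤ[X] := Ideal.span {X ^ m}

theorem mem_tI {m : ℕ} {a : ℤ[X]} : a ∈ tI m ↔ X ^ m ∣ a := Ideal.mem_span_singleton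

theorem tI_anti {m n : ℕ} (h : m ≤ n) : tI n ≤ tI m := fun _ ha =>
  mem_tI.2 ((pow_dvd_pow X h).trans (mem_tI.1 ha))

theorem tI_mul (m n : ℕ) : tI m * tI n = tI (m + n) := by
  rw [tI, tI, tI, Ideal.span_singleton_mul_span_singleton, pow_add]

theorem tI_zero : tI 0 = ⊤ := by simp [tI]

theorem sub_coeff_zero (c : ℤ[X]) : ∃ d, c - ((c.coeff 0 : ℤ) : ℤ[X]) = X * d :=
  ⟨c.divX, by rw [sub_eq_iff_eq_add, ← eq_intCast C, X_mul_divX_add]⟩

theorem xe_zsmul {R : Type} [CommRing R] (i j : s) (a : R) (n : ℤ) :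
    xe i j (n * a) = xe i j a ^ n := by
  induction n using Int.induction_on with
  | zero => simp
  | succ n ih => rw [Int.cast_add, add_mul, Int.cast_one, one_mul, xe_add, ih, _root_.zpow_add_one]
  | pred n ih =>
    rw [Int.cast_sub, sub_mul, Int.cast_one, one_mul, sub_eq_add_neg, xe_add, ih, xe_neg,
      _root_.zpow_sub_one]

/-- all symbols of the first layer are powers of the basic one -/
theorem sy_layer (h3 : Three s) {Q : Type} [Group Q] {π : GL s ℤ[X] →* Q} {k : ℕ}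
    (hπ : ∀ i j, ∀ a ∈ tI (k + 1), π (xe i j a) = 1) {p q : s} (hpq : p ≠ q) (i j : s)
    (d : ℤ[X]) : π (sy i j (X ^ k) (X * d)) ∈ Subgroup.zpowers (π (sy p q (X ^ k) X)) := by
  by_cases hij : i = j
  · simp [hij, sy, one_mem]
  have h1 : (X ^ k * X : ℤ[X]) ∈ tI (k + 1) := mem_tI.2 (by rw [pow_succ])
  obtain ⟨d', hd⟩ := sub_coeff_zero d
  have e : X * d = ((d.coeff 0 : ℤ) : ℤ[X]) * X + X * (X * d') := by rw [← hd]; ring
  have h2 : (X ^ k * X * (X * d') : ℤ[X]) ∈ tI (k + 1) := Ideal.mul_mem_right _ _ h1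
  have h4 : (X ^ k * (X * d') : ℤ[X]) ∈ tI (k + 1) :=
    mul_assoc (X ^ k : ℤ[X]) _ _ ▸ Ideal.mul_mem_right d' _ h1
  rw [e, sy_add_right h3 hπ i j _ (mul_assoc (X ^ k : ℤ[X]) _ _ ▸ h2), sy_mul h3 hπ hij h2,
    sy_left_of_mem hπ i j h1, sy_left_of_mem hπ i j h4, mul_one, mul_one,
    sy_zsmul_right h3 hπ i j h1, sy_index h3 hπ hij hpq h1]
  exact Subgroup.zpow_mem _ (Subgroup.mem_zpowers _) _

/-- the coefficient matrix in degree `k` -/
noncomputable def cf (k : ℕ) (g : GL s ℤ[X]) : Matrix s s ℤ := of fun i j => ((g.val - 1) i j).coeff k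

theorem cf_mul {k : ℕ} (hk : 1 ≤ k) {g h : GL s ℤ[X]} (hg : g ∈ Cn s (tI k))
    (hh : h ∈ Cn s (tI k)) : cf k (g * h) = cf k g + cf k h := by
  ext i j
  have e : (g * h).val - 1 = (g.val - 1) + (h.val - 1) + (g.val - 1) * (h.val - 1) := by
    rw [Units.val_mul]; noncomm_ring
  have h1 : ((g.val - 1) * (h.val - 1)) i j ∈ tI (k + k) := by
    rw [mul_apply, ← tI_mul]
    exact Ideal.sum_mem _ fun l _ => Ideal.mul_mem_mul (mem_Cn.1 hg _ _) (mem_Cn.1 hh _ _)
  simp only [cf, of_apply, e, Matrix.add_apply, coeff_add]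
  rw [X_pow_dvd_iff.1 (mem_tI.1 h1) k (by omega), add_zero]

theorem cf_zero {k : ℕ} {g : GL s ℤ[X]} (hg : g ∈ Cn s (tI (k + 1))) : cf k g = 0 := by
  ext i j
  exact X_pow_dvd_iff.1 (mem_tI.1 (mem_Cn.1 hg i j)) k (by omega)

theorem cf_xe {k : ℕ} {i j : s} (hij : i ≠ j) : cf k (xe i j (X ^ k)) = single i j 1 := by
  ext a b
  simp [cf, xe_val hij, Matrix.single_apply, apply_ite (fun p : ℤ[X] => p.coeff k)]

theorem cf_hh {k : ℕ} (hk : 1 ≤ k) {i j : s} (hij : i ≠ j) :
    cf k (hh xe (X ^ k) i j) = single i i 1 - single j j 1 := by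
  ext a b
  have h1 := hh_congr (J := tI (k + 1)) hij (e := X ^ k)
    (mem_tI.2 (by rw [← pow_add]; exact pow_dvd_pow _ (by omega))) a b
  have h2 := X_pow_dvd_iff.1 (mem_tI.1 h1) k (by omega)
  rw [coeff_sub, sub_eq_zero] at h2
  simp only [cf, of_apply, Matrix.sub_apply, coeff_sub, h2]
  by_cases h : a = b
  · subst h
    simp [sg, Matrix.single_apply, mul_sub, apply_ite (fun p : ℤ[X] => p.coeff k), eq_comm]
  · have h1 : ¬(i = a ∧ i = b) := fun h1 => h (h1.1.symm.trans h1.2)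
    have h2 : ¬(j = a ∧ j = b) := fun h1 => h (h1.1.symm.trans h1.2)
    simp [h, h1, h2]

theorem hh_mem_Hn {R : Type} [CommRing R] {I : Ideal R} {e : R} (he : e ∈ I) (i j : s) :
    hh xe e i j ∈ Hn s I :=
  mul_mem (sy_mem_Hn_right i j 1 he) (xe_mem_Hn i j he)

/-- generation lemma: an element of the `k`-th relative group that is trivial modulo `t ^ (k+1)`
is a power of the basic symbol modulo the next relative group -/
theorem lemmaK (h3 : Three s) {k : ℕ} (hk : 1 ≤ k) {p q : s} (hpq : p ≠ q) {U : GL s ℤ[X]}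
    (h1 : U ∈ Hn s (tI k)) (h2 : U ∈ Cn s (tI (k + 1))) :
    ∃ n : ℤ, (sy p q (X ^ k) X ^ n)⁻¹ * U ∈ Hn s (tI (k + 1)) := by
  set J := tI (k + 1) with hJ
  let π := QuotientGroup.mk' (Hn s J)
  have hπ : ∀ i j, ∀ a ∈ J, π (xe i j a) = 1 := mk_xe J
  have hX : (X ^ k * X : ℤ[X]) ∈ J := mem_tI.2 (by rw [pow_succ])
  have hsq : (X ^ k * X ^ k : ℤ[X]) ∈ J :=
    mem_tI.2 (by rw [← pow_add]; exact pow_dvd_pow _ (by omega))
  let φ : El s ℤ[X] →* _ := π.comp (El s ℤ[X]).subtype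
  let Z : Subgroup (El s ℤ[X]) := (Subgroup.zpowers (π (sy p q (X ^ k) X))).comap φ
  have : Z.Normal := ⟨fun z hz g => by
    obtain ⟨n, hn⟩ := Subgroup.mem_zpowers_iff.1 (Subgroup.mem_comap.1 hz)
    refine Subgroup.mem_comap.2 (Subgroup.mem_zpowers_iff.2 ⟨n, ?_⟩)
    rw [map_mul, map_mul, map_inv, ← hn]
    have := ((sy_central h3 hπ p q hX g.2).zpow_left n).eq
    change _ = π g * _ * (π g)⁻¹
    rw [← this, mul_inv_cancel_right]⟩
  let ρ := QuotientGroup.mk' Z
  have hρ : ∀ a b : El s ℤ[X], π a = π b → ρ a = ρ b := fun a b h => by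
    refine QuotientGroup.eq.2 (Subgroup.mem_comap.2 ?_)
    rw [map_mul, map_inv]
    change (π a)⁻¹ * π b ∈ _
    rw [h, inv_mul_cancel]
    exact one_mem _
  let y : s → s → ℤ[X] → El s ℤ[X] := fun i j a => ⟨xe i j a, xe_mem_El i j a⟩
  let x : s → s → ℤ[X] → El s ℤ[X] ⧸ Z := fun i j a => ρ (y i j a)
  have hop : ∀ i j d, Commute (x i j (X * d)) (x j i (X ^ k)) := fun i j d => by
    refine Commute.symm ?_
    rw [← commutatorElement_eq_one_iff_commute, ← map_commutatorElement]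
    exact (QuotientGroup.eq_one_iff _).2 (Subgroup.mem_comap.2 (sy_layer h3 hπ hpq j i d))
  have hy : ∀ i j, hh y (X ^ k) i j = ⟨hh xe (X ^ k) i j, hh_mem_El _ _ _⟩ := fun i j => rfl
  have K : KS x (X ^ k) :=
    { add := fun i j a b => by
        rw [← map_mul]; exact congrArg ρ (Subtype.ext (xe_add i j a b))
      self := fun i a => by
        rw [← map_one ρ]; exact congrArg ρ (Subtype.ext (xe_self i a))
      c1 := fun h1 h2 h3 a b => by
        rw [← map_inv, ← map_mul, ← map_mul, ← map_mul]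
        exact congrArg ρ (Subtype.ext (xe_conj1 h1 h2 h3 a b))
      c2 := fun h1 h2 h3 a b => by
        rw [← map_inv, ← map_mul, ← map_mul, ← map_mul]
        exact congrArg ρ (Subtype.ext (xe_conj2 h1 h2 h3 a b))
      c0 := fun h1 h2 a b => Commute.map (Subtype.ext (xe_comm0 h1 h2 a b).eq) ρ
      sq := fun i j c => by
        rw [← map_one ρ]
        exact hρ _ _ ((hπ i j _ (J.mul_mem_right c hsq)).trans (map_one π).symm)
      int := fun c => ⟨c.coeff 0, fun i j => by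
        rw [← map_zpow]
        refine hρ _ _ ?_
        obtain ⟨d, hd⟩ := sub_coeff_zero c
        change π (xe i j _) = π (xe i j (X ^ k) ^ _)
        rw [← xe_zsmul]
        refine xe_congr hπ i j ?_
        rw [mul_comm (_ : ℤ[X]) (X ^ k), ← mul_sub, hd, ← mul_assoc]
        exact J.mul_mem_right d hX⟩
      opp := fun c => ⟨c.coeff 0, fun i j => by
        obtain ⟨d, hd⟩ := sub_coeff_zero c
        rw [hd]; exact hop i j d⟩
      ee := fun i j => by
        have := hop i j (X ^ (k - 1))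
        rwa [← pow_succ', Nat.sub_add_cancel hk] at this
      dg := fun {i j} hij a b c => by
        rw [← map_hh ρ y, ← map_inv, ← map_mul, ← map_mul]
        refine hρ _ _ ?_
        rw [hy]
        exact (by simp only [Subgroup.coe_mul, Subgroup.coe_inv, map_mul, map_inv]; rfl :
          _ = _).trans (hh_conj h3 hπ hij hsq a b c) }
  obtain ⟨σ, s0, sadd, s1, s2⟩ := K.exists_sigma h3 p
  let T : Subgroup (El s ℤ[X]) :=
    { carrier := {g | g.1 ∈ Cn s (tI k) ∧ ρ g = σ (cf k g.1)}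
      one_mem' := ⟨one_mem _, by rw [map_one, Subgroup.coe_one, cf_zero (one_mem _), s0]⟩
      mul_mem' := fun {a b} ha hb => ⟨mul_mem ha.1 hb.1, by
        rw [map_mul, ha.2, hb.2, Subgroup.coe_mul, cf_mul hk ha.1 hb.1, sadd]⟩
      inv_mem' := fun {a} ha => ⟨inv_mem ha.1, by
        rw [map_inv, inv_eq_iff_mul_eq_one, ha.2, ← sadd, Subgroup.coe_inv,
          ← cf_mul hk ha.1 (inv_mem ha.1), mul_inv_cancel, cf_zero (one_mem _), s0]⟩ }
  have hXk : (X ^ k : ℤ[X]) ∈ tI k := mem_tI.2 dvd_rfl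
  have hT : NN x (X ^ k) ≤ T.map ρ := by
    refine (Subgroup.closure_le _).2 ?_
    rintro _ (⟨i, j, rfl⟩ | ⟨i, j, rfl⟩)
    · by_cases hij : i = j
      · rw [hij, K.self]; exact one_mem _
      exact ⟨y i j (X ^ k), ⟨xe_mem_Cn i j hXk, by rw [cf_xe hij, s1 i j hij]⟩, rfl⟩
    · by_cases hij : i = j
      · rw [hij, K.hh_self]; exact one_mem _
      refine ⟨hh y (X ^ k) i j, ⟨Hn_le_Cn _ (hh_mem_Hn hXk i j), ?_⟩, map_hh ρ y _ i j⟩
      rw [hy, cf_hh hk hij, s2 i j hij, ← hy, map_hh]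
  have hS : Hn s (tI k) ≤ ((NN x (X ^ k)).comap ρ).map (El s ℤ[X]).subtype := by
    refine Hn_le_of_letters h3 (fun i j a ha => ?_) fun i j c _ ⟨g, hg, e⟩ => ?_
    · obtain ⟨c, rfl⟩ := mem_tI.1 ha
      exact ⟨y i j _, K.ec_mem i j c, rfl⟩
    · refine ⟨y i j c * g * (y i j c)⁻¹, ?_, by rw [← e]; rfl⟩
      rw [SetLike.mem_coe, Subgroup.mem_comap, map_mul, map_mul, map_inv]
      exact K.conj_mem i j c _ hg
  obtain ⟨V, hV, rfl⟩ := hS h1
  obtain ⟨V', hV', e⟩ := hT hV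
  have hZ : ∀ z ∈ Z, ∃ n : ℤ, (sy p q (X ^ k) X ^ n)⁻¹ * z.1 ∈ Hn s J := fun z hz => by
    obtain ⟨n, hn⟩ := Subgroup.mem_zpowers_iff.1 (Subgroup.mem_comap.1 hz)
    exact ⟨n, QuotientGroup.eq.1 (by rw [← map_zpow] at hn; exact hn)⟩
  have h4 : V'.1 ∈ Cn s J := by
    obtain ⟨n, hn⟩ := hZ _ (QuotientGroup.eq.1 e)
    have h5 := mul_mem ((Cn s J).zpow_mem (sy_mem_Cn p q hX) n) (Hn_le_Cn J hn)
    rw [mul_inv_cancel_left] at h5
    have h6 := mul_mem h2 (inv_mem h5)
    simpa using h6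
  refine hZ V ((QuotientGroup.eq_one_iff _).1 ?_)
  change ρ V = 1
  rw [← e, hV'.2, cf_zero h4, s0]

end Pool.Agent.MP_993212_an.H15
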