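import Pool.Agent.MP_993212_an.H15.KExt
import Pool.Agent.MP_993212_an.H57.Push

/-! Invertible integral polynomial matrices that are trivial at zero are stably elementary. -/

set_option linter.unusedSectionVars false

namespace Pool.Agent.MP_993212_an.H15

open Matrix Polynomial

section General

variable {R : Type} [CommRing R] {s u : Type} [Fintype s] [DecidableEq s] [Fintype u]
  [DecidableEq u]

/-- stably elementary -/
def StE (g : GL s R) : Prop :=
  ∃ (u : Type) (_ : Fintype u) (_ : DecidableEq u) (f : s ↪ u), ext f g ∈ El u R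

theorem StE.big {g : GL s R} (h : StE g) : ∃ N : ℕ, ∀ (u : Type) [Fintype u] [DecidableEq u]
    (f : s ↪ u), N ≤ Fintype.card u → ext f g ∈ El u R := by
  obtain ⟨v, _, _, f0, h⟩ := h
  refine ⟨Fintype.card v + 3, fun u _ _ f hu => ?_⟩
  obtain ⟨e⟩ := Function.Embedding.nonempty_of_card_le (α := v) (β := u) (by omega)
  refine ext_indep (f0.trans e) f (El_normal (three_of_card (by omega))) ?_
  rw [ext_trans]
  exact ext_mem_El e h

theorem stE_ext (f : s ↪ u) {g : GL s R} : StE (ext f g) ↔ StE g := by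
  constructor
  · rintro ⟨v, _, _, f', h⟩
    exact ⟨v, _, _, f.trans f', ext_trans f f' g ▸ h⟩
  · intro h
    obtain ⟨N, h⟩ := h.big
    refine ⟨u ⊕ Fin N, inferInstance, inferInstance, Function.Embedding.inl, ?_⟩
    rw [← ext_trans]
    exact h _ _ (by simp)

theorem stE_mul {a b g : GL s R} (ha : a ∈ El s R) (hb : b ∈ El s R) : StE (a * g * b) ↔ StE g := by
  refine exists_congr fun v => exists_congr fun _ => exists_congr fun _ => exists_congr fun f => ?_
  rw [map_mul, map_mul, (El v R).mul_mem_cancel_right (ext_mem_El f hb),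
    (El v R).mul_mem_cancel_left (ext_mem_El f ha)]

theorem stE_swap {X : Matrix s u R} {Y : Matrix u s R} {g : GL s R} {g' : GL u R}
    (h : g.val = 1 + X * Y) (h' : g'.val = 1 + Y * X) : StE g ↔ StE g' := by
  rw [← stE_ext (Function.Embedding.inl : s ↪ s ⊕ u), ← stE_mul (blkU_mem_El X) (blkL_mem_El (-Y)),
    whitehead_eq h h', stE_mul (blkL_mem_El _) (blkU_mem_El X), stE_ext]

theorem StE.of_El {g : GL s R} (h : g ∈ El s R) : StE g :=
  ⟨s, _, _, Function.Embedding.refl s, ext_mem_El _ h⟩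

end General

variable {s : Type} [Fintype s] [DecidableEq s]

theorem stE_nil (m : ℕ) : ∀ (s : Type) [Fintype s] [DecidableEq s] (A : Matrix s s ℤ)
    (g : GL s ℤ[X]), g.val = 1 + (X : ℤ[X]) • A.map C → A ^ (m + 1) = 0 → StE g := by
  induction m with
  | zero =>
    intro s _ _ A g h hA
    rw [zero_add, pow_one] at hA
    have : g = 1 := Units.ext (by simp [h, hA])
    exact this ▸ StE.of_El (one_mem _)
  | succ m ih =>
    intro s _ _ A g h hA
    obtain ⟨r, P, Q, e, hP, hQ⟩ := H57.rank_fact A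
    have h1 : g.val = 1 + ((X : ℤ[X]) • P.map C) * Q.map C := by
      rw [h, ← e, Matrix.map_mul, Matrix.smul_mul]
    refine (stE_swap h1 (swapU_val _ _ g h1)).2 (ih _ (Q * P) _ ?_ ?_)
    · rw [swapU_val, Matrix.map_mul, Matrix.mul_smul]
    · have h2 : ∀ n, P * (Q * P) ^ n * Q = A ^ (n + 1) := fun n => by
        rw [← H57.pow_inter (Matrix.mul_assoc P Q P) n, Matrix.mul_assoc, e, pow_succ]
      refine hP _ _ _ (hQ _ _ _ ?_)
      rw [h2, hA]
      simp

theorem nil_of_unit {A : Matrix s s ℤ} {g : GL s ℤ[X]} (h : g.val = 1 + (X : ℤ[X]) • A.map C) :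
    ∃ m, A ^ (m + 1) = 0 := by
  have e : g⁻¹.val = 1 - (X : ℤ[X]) • (A.map C * g⁻¹.val) := by
    have := g.mul_inv
    rw [h, add_mul, one_mul, Matrix.smul_mul] at this
    exact eq_sub_of_add_eq this
  have key : ∀ k, (g⁻¹.val.map fun p => p.coeff k) = (-A) ^ k := by
    intro k
    induction k with
    | zero =>
      rw [e]
      ext i j
      simp [one_apply, apply_ite (fun p : ℤ[X] => p.coeff 0)]
    | succ k ih =>
      rw [pow_succ', ← ih]
      conv_lhs => rw [e]
      ext i j
      simp [one_apply, apply_ite (fun p : ℤ[X] => p.coeff (k + 1)), mul_apply, coeff_one,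
        -eq_intCast]
  refine ⟨Finset.univ.sup fun p : s × s => (g⁻¹.val p.1 p.2).natDegree, ?_⟩
  rw [← neg_neg A, neg_pow, ← key]
  convert mul_zero _
  ext i j
  exact coeff_eq_zero_of_natDegree_lt (Nat.lt_succ_of_le
    (Finset.le_sup (f := fun p : s × s => (g⁻¹.val p.1 p.2).natDegree) (Finset.mem_univ (i, j))))

theorem mem_Cn_one {g : GL s ℤ[X]} :
    g ∈ Cn s (tI 1) ↔ ∀ i j, (g.val i j).coeff 0 = (1 : Matrix s s ℤ) i j := by
  rw [mem_Cn]
  refine forall₂_congr fun i j => ?_
  rw [mem_tI, pow_one, X_dvd_iff, Matrix.sub_apply, coeff_sub, sub_eq_zero]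
  simp [one_apply, apply_ite (fun p : ℤ[X] => p.coeff 0)]

theorem stE_deg (d : ℕ) : ∀ (s : Type) [Fintype s] [DecidableEq s] (g : GL s ℤ[X]),
    g ∈ Cn s (tI 1) → (∀ i j, (g.val i j).natDegree ≤ d + 1) → StE g := by
  induction d with
  | zero =>
    intro s _ _ g h hd
    have e : g.val = 1 + (X : ℤ[X]) • (g.val.map fun p => p.coeff 1).map C := by
      ext1 i j
      rw [eq_X_add_C_of_natDegree_le_one (hd i j), mem_Cn_one.1 h]
      simp [one_apply, add_comm, mul_comm]
    obtain ⟨m, hm⟩ := nil_of_unit e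
    exact stE_nil m s _ g e hm
  | succ d ih =>
    intro s _ _ g h hd
    let B : Matrix s s ℤ[X] := g.val.map fun p => p.divX - C (p.coeff 1)
    rw [← stE_ext (Function.Embedding.inl : s ↪ s ⊕ s),
      ← stE_mul (blkU_mem_El (-B)) (blkL_mem_El ((X : ℤ[X]) • 1))]
    have e : (blkU (-B) * ext Function.Embedding.inl g * blkL ((X : ℤ[X]) • 1)).val =
        fromBlocks (g.val.map fun p => C (p.coeff 0) + C (p.coeff 1) * X) (-B)
          ((X : ℤ[X]) • 1) 1 := by
      simp only [Units.val_mul, blkU_val, blkL_val, ext_val, extM_inl, fromBlocks_multiply]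
      simp only [Matrix.one_mul, Matrix.mul_one, Matrix.mul_zero, Matrix.zero_mul, add_zero,
        zero_add, Matrix.mul_smul]
      congr 1
      ext1 i j
      have := X_mul_divX_add (g.val i j)
      simp only [B, Matrix.add_apply, Matrix.smul_apply, Matrix.neg_apply, map_apply, smul_eq_mul]
      linear_combination -this
    refine ih _ _ (mem_Cn_one.2 ?_) ?_
    · rw [e]
      rintro (i | i) (j | j)
      · simpa [-eq_intCast, one_apply] using mem_Cn_one.1 h i j
      · simp [B, -eq_intCast, coeff_divX]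
      · simp
      · simp [one_apply, apply_ite (fun p : ℤ[X] => p.coeff 0)]
    · rw [e]
      rintro (i | i) (j | j)
      · simp only [fromBlocks_apply₁₁, map_apply]
        compute_degree
        omega
      · simp only [B, fromBlocks_apply₁₂, Matrix.neg_apply, map_apply, natDegree_neg]
        refine (natDegree_sub_le _ _).trans (max_le ?_ (by simp))
        rw [natDegree_divX_eq_natDegree_tsub_one]
        have := hd i j
        omega
      · simp only [fromBlocks_apply₂₁, Matrix.smul_apply, one_apply]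
        split_ifs <;> simp
      · simp only [fromBlocks_apply₂₂, one_apply]
        split_ifs <;> simp

theorem stE_of_Cn {g : GL s ℤ[X]} (h : g ∈ Cn s (tI 1)) : StE g :=
  stE_deg (Finset.univ.sup fun p : s × s => (g.val p.1 p.2).natDegree) s g h fun i j =>
    (Finset.le_sup (f := fun p : s × s => (g.val p.1 p.2).natDegree)
      (Finset.mem_univ (i, j))).trans (Nat.le_succ _)

/-- the constant term -/
noncomputable def c0 : ℤ[X] →+* ℤ[X] := C.comp constantCoeff

theorem c0_rel {g : GL s ℤ[X]} (h : g ∈ El s ℤ[X]) : (gm c0 g)⁻¹ * g ∈ Hn s (tI 1) := by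
  rw [← QuotientGroup.eq]
  change ((QuotientGroup.mk' (Hn s (tI 1))).comp (gm c0)) g = QuotientGroup.mk' (Hn s (tI 1)) g
  refine MonoidHom.eqOn_closure (fun x hx => ?_) h
  obtain ⟨i, j, a, rfl⟩ := hx
  rw [MonoidHom.comp_apply, gm_xe]
  refine xe_congr (mk_xe _) i j (mem_tI.2 ?_)
  rw [pow_one, X_dvd_iff]
  simp [c0, -eq_intCast]

theorem mem_Hn_one {g : GL s ℤ[X]} (h : g ∈ El s ℤ[X]) (h1 : g ∈ Cn s (tI 1)) :
    g ∈ Hn s (tI 1) := by
  have e : gm c0 g = 1 := Units.ext (by
    ext1 i j
    simp [gm_val, c0, mem_Cn_one.1 h1, one_apply])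
  simpa [e] using c0_rel h

/-- stable triviality -/
theorem sk1 {g : GL s ℤ[X]} (h : g ∈ Cn s (tI 1)) : ∃ N : ℕ, ∀ (u : Type) [Fintype u]
    [DecidableEq u] (f : s ↪ u), N ≤ Fintype.card u → ext f g ∈ Hn u (tI 1) := by
  obtain ⟨N, hN⟩ := (stE_of_Cn h).big
  exact ⟨N, fun u _ _ f hu => mem_Hn_one (hN u f hu) (ext_mem_Cn f h)⟩

/-- deep relative groups are generated by letters of prescribed levels -/
theorem Hn_le_levels (h3 : Three s) (ν : s → s → ℕ) {N : ℕ} (h : ∀ i j, 2 * ν i j ≤ N) :
    Hn s (tI N) ≤ Fl fun i j => tI (ν i j) := by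
  refine (Hn_mono (tI_anti (show N / 2 + N / 2 ≤ N by omega))).trans ?_
  rw [← tI_mul]
  exact (Hn_mul_le_Fl h3 _).trans (Fl_mono fun i j => tI_anti (by have := h i j; omega))

end Pool.Agent.MP_993212_an.H15
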