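import Pool.Agent.MP_993212_an.H15.KDefs

/-! The Suslin decomposition and its consequences: normality, the commutator formula, squares of
ideals. -/

set_option linter.unusedSectionVars false

namespace Pool.Agent.MP_993212_an.H15

open Matrix
open scoped commutatorElement

variable {R : Type} [CommRing R] {s : Type} [Fintype s] [DecidableEq s]

theorem dot_update {m : s} {v w : s → R} (hw : w m = 0) :
    w ⬝ᵥ Function.update v m 0 = w ⬝ᵥ v := by
  refine Finset.sum_congr rfl fun i _ => ?_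
  by_cases h : i = m
  · simp [h, hw]
  · simp [h]

/-- a transvection with a zero in its row vector is a commutator times a row -/
theorem tv_split {m : s} {v w : s → R} (hw : w m = 0) (h : w ⬝ᵥ v = 0) (a b : R) :
    tv v ((a * b) • w) = ⁅tv (a • Function.update v m 0) (Pi.single m 1),
      tv (Pi.single m 1) (b • w)⁆ * tv (Pi.single m 1) ((a * b * v m) • w) := by
  have e : v = Function.update v m 0 + v m • (Pi.single m 1 : s → R) := by
    funext i
    by_cases h : i = m
    · simp [h]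
    · simp [h]
  rw [comm_tv (by simp) (by simp [hw]) (by simp [dot_update hw, h])]
  conv_lhs => rw [e]
  rw [tv_add_left (by simp [dot_update hw, h]) (by simp [hw]), tv_smul, tv_smul, tv_smul]
  simp [smul_smul, mul_comm]

/-- the pieces of the decomposition -/
def wp (u v w : s → R) (p : s × s) : s → R :=
  (w p.1 * u p.2) • (Pi.single p.1 (v p.2) - Pi.single p.2 (v p.1))

theorem wp_dot (u v w : s → R) (p : s × s) : wp u v w p ⬝ᵥ v = 0 := by
  simp [wp, mul_comm]

theorem wp_zero (u v w : s → R) {p : s × s} {m : s} (h1 : m ≠ p.1) (h2 : m ≠ p.2) :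
    wp u v w p m = 0 := by simp [wp, h1, h2]

theorem sum_wp (u v w : s → R) : ∑ p, wp u v w p = (u ⬝ᵥ v) • w - (w ⬝ᵥ v) • u := by
  funext i
  simp only [wp, Finset.sum_apply, Pi.smul_apply, Pi.sub_apply, smul_eq_mul, mul_sub,
    Finset.sum_sub_distrib, Pi.single_apply, mul_ite, mul_zero, dotProduct, Finset.sum_mul]
  congr 1
  · rw [Fintype.sum_prod_type_right]
    simp only [Finset.sum_ite_eq, Finset.mem_univ, if_true]
    exact Finset.sum_congr rfl fun _ _ => by ring
  · rw [Fintype.sum_prod_type]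
    simp only [Finset.sum_ite_eq, Finset.mem_univ, if_true]
    exact Finset.sum_congr rfl fun _ _ => by ring

theorem tv_sum_mem {ι : Type} {S : Subgroup (GL s R)} {v : s → R} {f : ι → s → R}
    (h0 : ∀ p, f p ⬝ᵥ v = 0) (h : ∀ p, tv v (f p) ∈ S) (T : Finset ι) :
    tv v (∑ p ∈ T, f p) ∈ S := by
  classical
  induction T using Finset.induction_on with
  | empty => simp [one_mem]
  | insert i T hi ih =>
    rw [Finset.sum_insert hi, tv_add_right (h0 i) (by simp [sum_dotProduct, h0])]
    exact S.mul_mem (h i) ih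

theorem tv_sum_congr {ι Q : Type} [Group Q] (π : GL s R →* Q) {v v' : s → R} {f f' : ι → s → R}
    (h0 : ∀ p, f p ⬝ᵥ v = 0) (h0' : ∀ p, f' p ⬝ᵥ v' = 0)
    (h : ∀ p, π (tv v (f p)) = π (tv v' (f' p))) (T : Finset ι) :
    π (tv v (∑ p ∈ T, f p)) = π (tv v' (∑ p ∈ T, f' p)) := by
  classical
  induction T using Finset.induction_on with
  | empty => simp
  | insert i T hi ih =>
    rw [Finset.sum_insert hi, tv_add_right (h0 i) (by simp [sum_dotProduct, h0]),
      Finset.sum_insert hi, tv_add_right (h0' i) (by simp [sum_dotProduct, h0']), map_mul, map_mul,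
      h, ih]

theorem conj_xe (g : GL s R) (i j : s) (a : R) :
    g * xe i j a * g⁻¹ = tv (fun k => g.val k i) (a • fun k => g⁻¹.val j k) := by
  rw [xe_eq, conj_tv]
  congr 1
  · funext k; simp
  · funext k; simp

theorem row_dot_col (g : GL s R) (j i : s) :
    (fun k => g⁻¹.val j k) ⬝ᵥ (fun k => g.val k i) = (1 : Matrix s s R) j i := by
  rw [← g.inv_mul]; rfl

/-- the Suslin decomposition: reduction to row vectors with a zero entry -/
theorem tv_mem_of (h3 : Three s) {S : Subgroup (GL s R)} {u v w : s → R} (hu : u ⬝ᵥ v = 1)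
    (hw : w ⬝ᵥ v = 0) (a : R)
    (h : ∀ (m : s) (w' : s → R), w' m = 0 → w' ⬝ᵥ v = 0 → tv v (a • w') ∈ S) :
    tv v (a • w) ∈ S := by
  have e := sum_wp u v w
  rw [hu, hw, one_smul, zero_smul, sub_zero] at e
  rw [← e, Finset.smul_sum]
  refine tv_sum_mem (fun p => by simp [wp_dot]) (fun p => ?_) _
  obtain ⟨m, h1, h2⟩ := h3 p.1 p.2
  exact h m _ (wp_zero u v w h1 h2) (wp_dot u v w p)

theorem conj_xe_mem (h3 : Three s) {S : Subgroup (GL s R)} (g : GL s R) (i j : s) (a : R)
    (h : ∀ (m : s) (v w : s → R), w m = 0 → w ⬝ᵥ v = 0 → tv v (a • w) ∈ S) :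
    g * xe i j a * g⁻¹ ∈ S := by
  by_cases hij : i = j
  · simp [hij, one_mem]
  rw [conj_xe]
  exact tv_mem_of h3 (u := fun k => g⁻¹.val i k) (by rw [row_dot_col, one_apply_eq])
    (by rw [row_dot_col, one_apply_ne (Ne.symm hij)]) a fun m => h m _

theorem Hn_le_of {I : Ideal R} {S : Subgroup (GL s R)}
    (h : ∀ (g : GL s R) (i j : s), ∀ a ∈ I, g * xe i j a * g⁻¹ ∈ S) : Hn s I ≤ S := by
  refine (Subgroup.closure_le _).2 fun x hx => ?_
  obtain ⟨y, ⟨i, j, a, ha, rfl⟩, hy⟩ := Group.mem_conjugatesOfSet_iff.1 hx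
  obtain ⟨g, rfl⟩ := isConj_iff.1 hy
  exact h g i j a ha

/-- conjugates of letters with entry a product lie in any group containing the two kinds of
letters -/
theorem conj_xe_mul_mem (h3 : Three s) {S : Subgroup (GL s R)} (g : GL s R) (i j : s) {a b : R}
    (ha : ∀ i j c, xe i j (a * c) ∈ S) (hb : ∀ i j c, xe i j (b * c) ∈ S) :
    g * xe i j (a * b) * g⁻¹ ∈ S := by
  refine conj_xe_mem h3 g i j _ fun m v w hw h => ?_
  rw [tv_split hw h]
  have h1 : tv (a • Function.update v m 0) (Pi.single m 1) ∈ S :=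
    col_mem (by simp) fun i => ha _ _ _
  have h2 : tv (Pi.single m 1) (b • w) ∈ S := row_mem (by simp [hw]) fun i => hb _ _ _
  refine S.mul_mem (S.mul_mem (S.mul_mem (S.mul_mem h1 h2) (S.inv_mem h1)) (S.inv_mem h2)) ?_
  refine row_mem (by simp [hw]) fun i => ?_
  rw [Pi.smul_apply, smul_eq_mul, mul_assoc, mul_assoc]
  exact ha _ _ _

/-- the relative elementary group of the square of an ideal is generated inside the letters -/
theorem Hn_mul_le_Fl (h3 : Three s) (I : Ideal R) : Hn s (I * I) ≤ Fl fun _ _ : s => I := by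
  refine Hn_le_of fun g i j a ha => ?_
  refine Submodule.mul_induction_on ha (fun a ha b hb => ?_) fun a b h1 h2 => ?_
  · exact conj_xe_mul_mem h3 g i j (fun _ _ c => xe_mem_Fl (I.mul_mem_right c ha))
      fun _ _ c => xe_mem_Fl (I.mul_mem_right c hb)
  · have := (Fl fun _ _ : s => I).mul_mem h1 h2
    rw [xe_add]
    convert this using 1
    group

theorem Hn_top (h3 : Three s) : Hn s (⊤ : Ideal R) = El s R := by
  refine le_antisymm ?_ ((Fl_top (s := s) (R := R)) ▸ Fl_le_Hn fun _ _ => le_rfl)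
  have := Hn_mul_le_Fl h3 (⊤ : Ideal R)
  rwa [Ideal.top_mul, Fl_top] at this

theorem El_normal (h3 : Three s) : (El s R).Normal := Hn_top (R := R) h3 ▸ inferInstance

theorem Hn_le_El (h3 : Three s) (I : Ideal R) : Hn s I ≤ El s R := Hn_top (R := R) h3 ▸ Hn_mono le_top

theorem conj_mem_of_El {S : Subgroup (GL s R)}
    (h : ∀ i j c, ∀ x ∈ S, xe i j c * x * (xe i j c)⁻¹ ∈ S) {g : GL s R} (hg : g ∈ El s R) :
    ∀ x ∈ S, g * x * g⁻¹ ∈ S := by
  induction hg using Subgroup.closure_induction_left with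
  | one => simp
  | mul_left y hy z _ ih =>
    obtain ⟨i, j, c, rfl⟩ := hy
    intro x hx
    have := h i j c _ (ih x hx)
    convert this using 1
    group
  | inv_mul_cancel y hy z _ ih =>
    obtain ⟨i, j, c, rfl⟩ := hy
    intro x hx
    have := h i j (-c) _ (ih x hx)
    rw [xe_neg] at this
    convert this using 1
    group

/-- the relative elementary group is the normal closure inside the elementary group -/
theorem Hn_le_of_letters (h3 : Three s) {I : Ideal R} {S : Subgroup (GL s R)}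
    (h1 : ∀ i j, ∀ a ∈ I, xe i j a ∈ S)
    (h2 : ∀ i j c, ∀ x ∈ S, xe i j c * x * (xe i j c)⁻¹ ∈ S) : Hn s I ≤ S := by
  refine Hn_le_of fun g i j a ha => conj_xe_mem h3 g i j a fun m v w hw h => ?_
  have e := tv_split hw h a 1
  rw [mul_one] at e
  rw [e, commutatorElement_def, mul_assoc (tv _ _), mul_assoc (tv _ _)]
  have h4 : tv (a • Function.update v m 0) (Pi.single m 1) ∈ S :=
    col_mem (by simp) fun i => h1 _ _ _ (I.mul_mem_right _ ha)
  refine S.mul_mem (S.mul_mem h4 (conj_mem_of_El h2 ?_ _ (S.inv_mem h4))) ?_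
  · exact row_mem (by simp [hw]) fun i => xe_mem_El _ _ _
  · refine row_mem (by simp [hw]) fun i => h1 _ _ _ ?_
    rw [Pi.smul_apply, smul_eq_mul, mul_assoc]
    exact I.mul_mem_right _ ha

section Congr

variable {Q : Type} [Group Q] {π : GL s R →* Q} {I : Ideal R}

theorem xe_congr (hπ : ∀ i j, ∀ a ∈ I, π (xe i j a) = 1) (i j : s) {a b : R} (h : a - b ∈ I) :
    π (xe i j a) = π (xe i j b) := by
  rw [← sub_add_cancel a b, xe_add, map_mul, hπ i j _ h, one_mul]

theorem col_congr (hπ : ∀ i j, ∀ a ∈ I, π (xe i j a) = 1) {m : s} {v v' : s → R} (h1 : v m = 0)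
    (h2 : v' m = 0) (h : ∀ i, v i - v' i ∈ I) :
    π (tv v (Pi.single m 1)) = π (tv v' (Pi.single m 1)) := by
  rw [← sub_add_cancel v v', tv_add_left (by simp [h1, h2]) (by simp [h2]), map_mul]
  have : tv (v - v') (Pi.single m 1) ∈ π.ker :=
    col_mem (by simp [h1, h2]) fun i => hπ _ _ _ (h i)
  rw [MonoidHom.mem_ker.1 this, one_mul]

theorem row_congr (hπ : ∀ i j, ∀ a ∈ I, π (xe i j a) = 1) {m : s} {w w' : s → R} (h1 : w m = 0)
    (h2 : w' m = 0) (h : ∀ i, w i - w' i ∈ I) :
    π (tv (Pi.single m 1) w) = π (tv (Pi.single m 1) w') := by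
  rw [← sub_add_cancel w w', tv_add_right (by simp [h1, h2]) (by simp [h2]), map_mul]
  have : tv (Pi.single m 1) (w - w') ∈ π.ker :=
    row_mem (by simp [h1, h2]) fun i => hπ _ _ _ (h i)
  rw [MonoidHom.mem_ker.1 this, one_mul]

theorem tv_congr0 (hπ : ∀ i j, ∀ a ∈ I, π (xe i j a) = 1) {m : s} {v v' w w' : s → R}
    (h1 : w m = 0) (h2 : w' m = 0) (d1 : w ⬝ᵥ v = 0) (d2 : w' ⬝ᵥ v' = 0)
    (hv : ∀ i, v i - v' i ∈ I) (hw : ∀ i, w i - w' i ∈ I) : π (tv v w) = π (tv v' w') := by
  have e1 := tv_split h1 d1 1 1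
  have e2 := tv_split h2 d2 1 1
  simp only [one_mul, one_smul] at e1 e2
  rw [e1, e2, map_mul, map_mul, map_commutatorElement, map_commutatorElement,
    row_congr hπ h1 h2 hw, col_congr hπ (v' := Function.update v' m 0) (by simp) (by simp),
    row_congr hπ (w := v m • w) (w' := v' m • w') (by simp [h1]) (by simp [h2])]
  · intro i
    have := I.add_mem (I.mul_mem_right (w i) (hv m)) (I.mul_mem_left (v' m) (hw i))
    simp only [Pi.smul_apply, smul_eq_mul]
    convert this using 1
    ring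
  · intro i
    by_cases h : i = m
    · simp [h]
    · simpa [h] using hv i

theorem tv_congr (h3 : Three s) (hπ : ∀ i j, ∀ a ∈ I, π (xe i j a) = 1) {u u' v v' w w' : s → R}
    (d0 : u ⬝ᵥ v = 1) (d1 : w ⬝ᵥ v = 0) (hu : ∀ i, u i - u' i ∈ I) (hv : ∀ i, v i - v' i ∈ I)
    (hw : ∀ i, w i - w' i ∈ I) :
    π (tv v w) = π (tv v' ((u' ⬝ᵥ v') • w' - (w' ⬝ᵥ v') • u')) := by
  have e := sum_wp u v w
  rw [d0, d1, one_smul, zero_smul, sub_zero] at e
  rw [← sum_wp]
  conv_lhs => rw [← e]
  refine tv_sum_congr π (wp_dot u v w) (wp_dot u' v' w') (fun p => ?_) _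
  obtain ⟨m, h1, h2⟩ := h3 p.1 p.2
  refine tv_congr0 hπ (wp_zero _ _ _ h1 h2) (wp_zero _ _ _ h1 h2) (wp_dot _ _ _ _)
    (wp_dot _ _ _ _) hv fun i => ?_
  simp only [← Ideal.Quotient.eq] at hu hv hw ⊢
  simp [wp, Pi.single_apply, apply_ite (Ideal.Quotient.mk I), hu, hv, hw]

/-- conjugation of a letter by an element that is diagonal modulo the ideal -/
theorem conj_diag (h3 : Three s) (hπ : ∀ i j, ∀ a ∈ I, π (xe i j a) = 1) {g : GL s R}
    {d d' : s → R} (h : ∀ i j, g.val i j - diagonal d i j ∈ I)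
    (h' : ∀ i j, g⁻¹.val i j - diagonal d' i j ∈ I) (hd : ∀ i, d i * d' i - 1 ∈ I) (i j : s)
    (a : R) : π g * π (xe i j a) * (π g)⁻¹ = π (xe i j (d i * a * d' j)) := by
  by_cases hij : i = j
  · simp [hij]
  rw [← map_inv, ← map_mul, ← map_mul, conj_xe,
    tv_congr h3 hπ (u := fun k => g⁻¹.val i k) (u' := Pi.single i (d' i)) (v' := Pi.single i (d i))
      (w' := Pi.single j (a * d' j)) (by rw [row_dot_col, one_apply_eq])
      (by rw [smul_dotProduct, row_dot_col, one_apply_ne (Ne.symm hij), smul_zero])]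
  · have e : (Pi.single i (d i) : s → R) = d i • (Pi.single i 1 : s → R) := by
      rw [← Pi.single_smul, smul_eq_mul, mul_one]
    simp only [single_dotProduct, Pi.single_eq_same, Pi.single_eq_of_ne (Ne.symm hij), mul_zero,
      zero_smul, sub_zero]
    rw [e, tv_smul, ← Pi.single_smul, ← Pi.single_smul, ← xe_eq]
    refine xe_congr hπ i j ?_
    have := I.mul_mem_left (d i * a * d' j) (hd i)
    simp only [smul_eq_mul]
    convert this using 1
    ring
  · intro k
    have := h' i k
    by_cases e : i = k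
    · subst e; simpa using this
    · simpa [e, Ne.symm e] using this
  · intro k
    have := h k i
    by_cases e : k = i
    · subst e; simpa using this
    · simpa [e] using this
  · intro k
    have := I.mul_mem_left a (h' j k)
    by_cases e : j = k
    · subst e; simpa [mul_sub] using this
    · simpa [e, Ne.symm e] using this

/-- the commutator formula: congruence elements are central in the elementary group modulo the
relative elementary group -/
theorem commute_of_Cn (h3 : Three s) (hπ : ∀ i j, ∀ a ∈ I, π (xe i j a) = 1) {g x : GL s R}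
    (hg : g ∈ Cn s I) (hx : x ∈ El s R) : Commute (π g) (π x) := by
  induction hx using Subgroup.closure_induction with
  | mem x hx =>
    obtain ⟨i, j, a, rfl⟩ := hx
    have := conj_diag h3 hπ (g := g) (d := fun _ => 1) (d' := fun _ => 1)
      (by simpa using mem_Cn.1 hg) (by simpa using mem_Cn.1 ((Cn s I).inv_mem hg)) (by simp) i j a
    rw [one_mul, mul_one, mul_inv_eq_iff_eq_mul] at this
    exact this
  | one => simp
  | mul x y _ _ h1 h2 => rw [map_mul]; exact h1.mul_right h2
  | inv x _ h1 => rw [map_inv]; exact h1.inv_right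

end Congr

theorem mk_xe (I : Ideal R) (i j : s) (a : R) (h : a ∈ I) :
    QuotientGroup.mk' (Hn s I) (xe i j a) = 1 :=
  (QuotientGroup.eq_one_iff _).2 (xe_mem_Hn i j h)

theorem comm_mem_Hn (h3 : Three s) {I : Ideal R} {g x : GL s R} (hg : g ∈ Cn s I)
    (hx : x ∈ El s R) : ⁅g, x⁆ ∈ Hn s I := by
  rw [← QuotientGroup.eq_one_iff]
  exact (map_commutatorElement (QuotientGroup.mk' (Hn s I)) g x).trans
    (commute_of_Cn h3 (mk_xe I) hg hx).commutator_eq

end Pool.Agent.MP_993212_an.H15
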