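import Pool.Agent.MP_993212_an.H15.KSus

/-! Central symbols: commutators of opposite letters modulo a relative elementary group. -/

set_option linter.unusedSectionVars false

namespace Pool.Agent.MP_993212_an.H15

open Matrix
open scoped commutatorElement

variable {R : Type} [CommRing R] {s : Type} [Fintype s] [DecidableEq s]

/-- change of rings -/
def gm {R' : Type} [CommRing R'] (f : R →+* R') : GL s R →* GL s R' :=
  Units.map f.mapMatrix.toMonoidHom

theorem gm_val {R' : Type} [CommRing R'] (f : R →+* R') (g : GL s R) :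
    (gm f g).val = g.val.map f := rfl

theorem gm_xe {R' : Type} [CommRing R'] (f : R →+* R') (i j : s) (a : R) :
    gm f (xe i j a) = xe i j (f a) := by
  by_cases h : i = j
  · simp [h]
  apply Units.ext
  rw [gm_val, xe_val h, xe_val h]
  ext k l
  simp [Matrix.one_apply, Matrix.single_apply, apply_ite f]

theorem gm_mem_El {R' : Type} [CommRing R'] (f : R →+* R') {g : GL s R} (h : g ∈ El s R) :
    gm f g ∈ El s R' := by
  refine (Subgroup.closure_le ((El s R').comap (gm f))).2 (fun x hx => ?_) h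
  obtain ⟨i, j, a, rfl⟩ := hx
  rw [SetLike.mem_coe, Subgroup.mem_comap, gm_xe]
  exact xe_mem_El i j (f a)

theorem gm_mem_Hn {R' : Type} [CommRing R'] (f : R →+* R') {I : Ideal R} {I' : Ideal R'}
    (hI : ∀ a ∈ I, f a ∈ I') {g : GL s R} (h : g ∈ Hn s I) : gm f g ∈ Hn s I' := by
  refine Subgroup.normalClosure_le_normal (N := (Hn s I').comap (gm f)) (fun x hx => ?_) h
  obtain ⟨i, j, a, ha, rfl⟩ := hx
  rw [SetLike.mem_coe, Subgroup.mem_comap, gm_xe]
  exact xe_mem_Hn i j (hI a ha)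

theorem mem_Cn_iff {I : Ideal R} {g : GL s R} : g ∈ Cn s I ↔ gm (Ideal.Quotient.mk I) g = 1 :=
  Iff.rfl

/-- the commutator of two opposite letters -/
noncomputable def sy (i j : s) (a b : R) : GL s R := ⁅xe i j a, xe j i b⁆

theorem sy_inv (i j : s) (a b : R) : (sy i j a b)⁻¹ = sy j i b a := commutatorElement_inv _ _

theorem sy_mem_El (i j : s) (a b : R) : sy i j a b ∈ El s R :=
  (El s R).mul_mem ((El s R).mul_mem ((El s R).mul_mem (xe_mem_El _ _ _) (xe_mem_El _ _ _))
    ((El s R).inv_mem (xe_mem_El _ _ _))) ((El s R).inv_mem (xe_mem_El _ _ _))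

theorem sy_mem_Hn_left {I : Ideal R} (i j : s) {a : R} (h : a ∈ I) (b : R) :
    sy i j a b ∈ Hn s I := by
  rw [sy, commutatorElement_def, mul_assoc (xe _ _ _), mul_assoc (xe _ _ _)]
  exact (Hn s I).mul_mem (xe_mem_Hn _ _ h)
    (Subgroup.Normal.conj_mem inferInstance _ ((Hn s I).inv_mem (xe_mem_Hn _ _ h)) _)

theorem sy_mem_Hn_right {I : Ideal R} (i j : s) (a : R) {b : R} (h : b ∈ I) :
    sy i j a b ∈ Hn s I := sy_inv j i b a ▸ (Hn s I).inv_mem (sy_mem_Hn_left j i h a)

theorem xe_comm_of_mul {i j : s} {a b : R} (h : a * b = 0) : Commute (xe i j a) (xe j i b) := by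
  by_cases hij : i = j
  · simp [hij]
  apply Units.ext
  simp [xe_val hij, xe_val (Ne.symm hij), mul_add, add_mul, h, mul_comm b a, add_comm, add_left_comm]

theorem sy_mem_Cn {J : Ideal R} (i j : s) {a b : R} (h : a * b ∈ J) : sy i j a b ∈ Cn s J := by
  rw [mem_Cn_iff, sy, map_commutatorElement, gm_xe, gm_xe]
  exact (xe_comm_of_mul (by rw [← map_mul]; exact Ideal.Quotient.eq_zero_iff_mem.2 h)).commutator_eq

theorem xe_conj1 {i j k : s} (hij : i ≠ j) (hjk : j ≠ k) (hik : i ≠ k) (a b : R) :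
    xe i j a * xe j k b * (xe i j a)⁻¹ = xe i k (a * b) * xe j k b := by
  rw [← xe_comm1 hij hjk hik, commutatorElement_def, inv_mul_cancel_right]

theorem xe_conj2 {i j k : s} (hij : i ≠ j) (hjk : j ≠ k) (hik : i ≠ k) (a c : R) :
    xe i j a * xe k i c * (xe i j a)⁻¹ = xe k j (-(c * a)) * xe k i c := by
  rw [xe_neg, ← xe_comm1 hik.symm hij hjk.symm, commutatorElement_inv, commutatorElement_def,
    inv_mul_cancel_right]

variable {Q : Type} [Group Q] {π : GL s R →* Q} {J : Ideal R}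

theorem sy_central (h3 : Three s) (hπ : ∀ i j, ∀ a ∈ J, π (xe i j a) = 1) (i j : s) {a b : R}
    (h : a * b ∈ J) {x : GL s R} (hx : x ∈ El s R) : Commute (π (sy i j a b)) (π x) :=
  commute_of_Cn h3 hπ (sy_mem_Cn i j h) hx

theorem sy_add_left (h3 : Three s) (hπ : ∀ i j, ∀ a ∈ J, π (xe i j a) = 1) (i j : s) (a : R)
    {a' b : R} (h : a' * b ∈ J) : π (sy i j (a + a') b) = π (sy i j a' b) * π (sy i j a b) := by
  have := (sy_central h3 hπ i j h (xe_mem_El i j a)).eq
  rw [sy, xe_add, commutatorElement_mul_left_eq_conj_mul, map_mul, map_mul, map_mul, map_inv,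
    ← sy, ← sy, ← this, mul_inv_cancel_right]

theorem sy_add_right (h3 : Three s) (hπ : ∀ i j, ∀ a ∈ J, π (xe i j a) = 1) (i j : s) (b : R)
    {a b' : R} (h : a * b' ∈ J) : π (sy i j a (b + b')) = π (sy i j a b) * π (sy i j a b') := by
  rw [← sy_inv, map_inv, sy_add_left h3 hπ j i b (mul_comm a b' ▸ h), _root_.mul_inv_rev, ← map_inv,
    ← map_inv, sy_inv, sy_inv]

theorem sy_left_of_mem (hπ : ∀ i j, ∀ a ∈ J, π (xe i j a) = 1) (i j : s) {a : R} (h : a ∈ J)
    (b : R) : π (sy i j a b) = 1 := by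
  rw [sy, map_commutatorElement, hπ i j a h, commutatorElement_one_left]

theorem sy_right_of_mem (hπ : ∀ i j, ∀ a ∈ J, π (xe i j a) = 1) (i j : s) (a : R) {b : R}
    (h : b ∈ J) : π (sy i j a b) = 1 := by
  rw [sy, map_commutatorElement, hπ j i b h, commutatorElement_one_right]

theorem sy_neg_right (h3 : Three s) (hπ : ∀ i j, ∀ a ∈ J, π (xe i j a) = 1) (i j : s) {a b : R}
    (h : a * b ∈ J) : π (sy i j a (-b)) = (π (sy i j a b))⁻¹ := by
  rw [eq_inv_iff_mul_eq_one, ← sy_add_right h3 hπ i j _ h, neg_add_cancel,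
    sy_right_of_mem hπ i j a J.zero_mem]

theorem sy_neg_left (h3 : Three s) (hπ : ∀ i j, ∀ a ∈ J, π (xe i j a) = 1) (i j : s) {a b : R}
    (h : a * b ∈ J) : π (sy i j (-a) b) = (π (sy i j a b))⁻¹ := by
  rw [eq_inv_iff_mul_eq_one, ← sy_add_left h3 hπ i j _ (by simpa using h), add_neg_cancel,
    sy_left_of_mem hπ i j J.zero_mem]

theorem sy_zsmul_right (h3 : Three s) (hπ : ∀ i j, ∀ a ∈ J, π (xe i j a) = 1) (i j : s) {a b : R}
    (h : a * b ∈ J) (n : ℤ) : π (sy i j a (n * b)) = π (sy i j a b) ^ n := by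
  induction n using Int.induction_on with
  | zero => simp [sy]
  | succ n ih =>
    rw [Int.cast_add, add_mul, Int.cast_one, one_mul, sy_add_right h3 hπ i j _ h, ih,
      _root_.zpow_add_one]
  | pred n ih =>
    rw [Int.cast_sub, sub_mul, Int.cast_one, one_mul, sub_eq_add_neg,
      sy_add_right h3 hπ i j _ (by simpa using h), ih, sy_neg_right h3 hπ i j h,
      _root_.zpow_sub_one]

theorem sy_zsmul_left (h3 : Three s) (hπ : ∀ i j, ∀ a ∈ J, π (xe i j a) = 1) (i j : s) {a b : R}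
    (h : a * b ∈ J) (n : ℤ) : π (sy i j (n * a) b) = π (sy i j a b) ^ n := by
  rw [← sy_inv, map_inv, sy_zsmul_right h3 hπ j i (mul_comm a b ▸ h), ← sy_inv i j,
    map_inv, _root_.inv_zpow, inv_inv]

/-- the three index identity -/
theorem sy_three (h3 : Three s) (hπ : ∀ i j, ∀ a ∈ J, π (xe i j a) = 1) {i j k : s} (hij : i ≠ j)
    (hjk : j ≠ k) (hik : i ≠ k) {a b c : R} (h : a * b * c ∈ J) :
    π (sy i j a (b * c)) = π (sy i k (a * b) c) * π (sy j k b (-(c * a))) := by
  have h2 : b * -(c * a) ∈ J := by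
    have := J.neg_mem h
    convert this using 1
    ring
  have z1 := fun x hx => sy_central h3 hπ i k h (x := x) hx
  have z2 := fun x hx => sy_central h3 hπ j k h2 (x := x) hx
  have eT : xe j i (b * c) = ⁅xe j k b, xe k i c⁆ := (xe_comm1 hjk hik.symm hij.symm b c).symm
  have cPW : Commute (π (xe i k (a * b))) (π (xe k j (-(c * a)))) := by
    rw [← commutatorElement_eq_one_iff_commute, ← map_commutatorElement, xe_comm1 hik hjk.symm hij]
    refine hπ _ _ _ ?_
    have := J.mul_mem_left (-a) h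
    convert this using 1
    ring
  have cTP : Commute (π (xe j i (b * c))) (π (xe i k (a * b))) := by
    rw [← commutatorElement_eq_one_iff_commute, ← map_commutatorElement, xe_comm1 hij.symm hik hjk]
    refine hπ _ _ _ ?_
    have := J.mul_mem_left b h
    convert this using 1
    ring
  have cWT : Commute (π (xe k j (-(c * a)))) (π (xe j i (b * c))) := by
    rw [← commutatorElement_eq_one_iff_commute, ← map_commutatorElement,
      xe_comm1 hjk.symm hij.symm hik.symm]
    refine hπ _ _ _ ?_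
    have := J.mul_mem_left (-c) h
    convert this using 1
    ring
  have e : xe i j a * xe j i (b * c) * (xe i j a)⁻¹ =
      ⁅xe i k (a * b) * xe j k b, xe k j (-(c * a)) * xe k i c⁆ := by
    rw [eT, conjugate_commutatorElement, xe_conj1 hij hjk hik, xe_conj2 hij hjk hik]
  rw [sy, commutatorElement_def, e, commutatorElement_mul_left_eq_conj_mul,
    commutatorElement_mul_right_eq_mul_conj, commutatorElement_mul_right_eq_mul_conj, ← eT, ← sy,
    ← sy]
  simp only [map_mul, map_inv, map_commutatorElement]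
  rw [cPW.commutator_eq, one_mul, ← (z1 _ (xe_mem_El k j _)).eq, mul_inv_cancel_right,
    mul_assoc (π (sy _ _ _ _)), cWT.eq, ← mul_assoc (π (sy _ _ _ _)), mul_inv_cancel_right,
    ← mul_assoc (π (xe _ _ _)), ← (z2 _ (xe_mem_El i k _)).eq, mul_assoc (π (sy _ _ _ _)), ← cTP.eq,
    ← mul_assoc (π (sy _ _ _ _)), mul_inv_cancel_right, mul_assoc (π (sy _ _ _ _)),
    ← (z1 _ (xe_mem_El j i _)).eq, ← mul_assoc (π (sy _ _ _ _)), mul_inv_cancel_right,
    (z1 _ (sy_mem_El _ _ _ _)).eq]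

theorem sy_snd (h3 : Three s) (hπ : ∀ i j, ∀ a ∈ J, π (xe i j a) = 1) {i j k : s} (hij : i ≠ j)
    (hik : i ≠ k) {a b : R} (h : a * b ∈ J) : π (sy i j a b) = π (sy i k a b) := by
  by_cases hjk : j = k
  · rw [hjk]
  have := sy_three h3 hπ hij hjk hik (a := a) (b := 1) (c := b) (by simpa using h)
  rwa [one_mul, mul_one, sy_right_of_mem hπ j k 1 (J.neg_mem (mul_comm a b ▸ h)), mul_one] at this

theorem sy_fst (h3 : Three s) (hπ : ∀ i j, ∀ a ∈ J, π (xe i j a) = 1) {i j k : s} (hij : i ≠ j)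
    (hkj : k ≠ j) {a b : R} (h : a * b ∈ J) : π (sy i j a b) = π (sy k j a b) := by
  rw [← sy_inv, map_inv, sy_snd h3 hπ hij.symm hkj.symm (mul_comm a b ▸ h), ← map_inv, sy_inv]

/-- independence of the indices -/
theorem sy_index (h3 : Three s) (hπ : ∀ i j, ∀ a ∈ J, π (xe i j a) = 1) {i j k l : s}
    (hij : i ≠ j) (hkl : k ≠ l) {a b : R} (h : a * b ∈ J) : π (sy i j a b) = π (sy k l a b) := by
  obtain ⟨m, h1, h2⟩ := h3 i k
  rw [sy_snd h3 hπ hij h1.symm h, sy_fst h3 hπ h1.symm h2.symm h, sy_snd h3 hπ h2.symm hkl h]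

theorem sy_swap (h3 : Three s) (hπ : ∀ i j, ∀ a ∈ J, π (xe i j a) = 1) {i j : s} (hij : i ≠ j)
    {a b : R} (h : a * b ∈ J) : π (sy i j b a) = (π (sy i j a b))⁻¹ := by
  rw [← map_inv, sy_inv, sy_index h3 hπ hij hij.symm (mul_comm a b ▸ h)]

/-- the product rule -/
theorem sy_mul (h3 : Three s) (hπ : ∀ i j, ∀ a ∈ J, π (xe i j a) = 1) {i j : s} (hij : i ≠ j)
    {a b c : R} (h : a * b * c ∈ J) :
    π (sy i j a (b * c)) = π (sy i j (a * b) c) * π (sy i j (a * c) b) := by
  obtain ⟨k, h1, h2⟩ := h3 i j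
  have h4 : b * (c * a) ∈ J := by convert h using 1; ring
  rw [sy_three h3 hπ hij h2.symm h1.symm h, sy_neg_right h3 hπ _ _ h4,
    ← sy_swap h3 hπ h2.symm h4, sy_index h3 hπ h1.symm hij h,
    sy_index h3 hπ h2.symm hij (mul_comm b _ ▸ h4), mul_comm c a]

/-- symbols in powers of one element are powers of the basic symbol -/
theorem sy_pow (h3 : Three s) (hπ : ∀ i j, ∀ a ∈ J, π (xe i j a) = 1) {i j : s} (hij : i ≠ j)
    {t : R} {k : ℕ} (h : t ^ (k + 1) ∈ J) (p q : ℕ) (e : p + q = k + 1) :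
    π (sy i j (t ^ p) (t ^ q)) = π (sy i j (t ^ k) t) ^ q := by
  induction q generalizing p with
  | zero => rw [sy_left_of_mem hπ i j (by rwa [← e] at h), pow_zero]
  | succ q ih =>
    rw [pow_succ t q, sy_mul h3 hπ hij (by rwa [← pow_add, ← pow_succ, add_assoc, e]), ← pow_add,
      ← pow_succ, ih (p + 1) (by omega), show p + q = k by omega, pow_succ']

theorem sy_pow_order (h3 : Three s) (hπ : ∀ i j, ∀ a ∈ J, π (xe i j a) = 1) {i j : s}
    (hij : i ≠ j) {t : R} {k : ℕ} (h : t ^ (k + 1) ∈ J) : π (sy i j (t ^ k) t) ^ (k + 1) = 1 := by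
  rw [← sy_pow h3 hπ hij h 0 (k + 1) (by omega), sy_right_of_mem hπ i j _ h]

end Pool.Agent.MP_993212_an.H15
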