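import Pool.Agent.MP_993212_an.H15.LTame

/-! Integral approximants of the inverse of a real matrix close to the identity. -/

set_option linter.unusedSectionVars false

namespace Pool.Agent.MP_993212_an.H15

open Matrix Polynomial Relation
open scoped commutatorElement

variable {ρ κ : ℝ} {s : Type} [Fintype s] [DecidableEq s] {N : s → s → ℕ} {σ : ℕ} {o : s}

/-- the first letter of a diagonal correction -/
noncomputable def ca (ρ κ : ℝ) (L : ℕ) : ℤ[X] := (⌈κ / ρ ^ L⌉₊ : ℤ[X]) * X ^ L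

/-- the second letter of a diagonal correction -/
noncomputable def cq (ρ κ : ℝ) (L : ℕ) (p : ℝ[X]) : ℤ[X] := rd L (-1 / ⌈κ / ρ ^ L⌉₊) p

/-- the correction of one entry -/
noncomputable def bl (ρ κ : ℝ) (N : s → s → ℕ) (o : s) (ξ : Matrix s s ℝ[X]) (p : s × s) :
    GL s ℤ[X] :=
  if p.1 = p.2 then sy p.1 o (ca ρ κ (N p.1 o)) (cq ρ κ (N p.1 o) (ξ p.1 p.1))
  else xe p.1 p.2 (rd 0 (-1) (ξ p.1 p.2))

/-- the approximant -/
noncomputable def bb (ρ κ : ℝ) (N : s → s → ℕ) (o : s) (ξ : Matrix s s ℝ[X]) : GL s ℤ[X] :=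
  (Finset.univ.toList.map (bl ρ κ N o ξ)).prod

theorem bb_zero : bb ρ κ N o 0 = 1 :=
  List.prod_eq_one fun x hx => by
    obtain ⟨p, -, rfl⟩ := List.mem_map.1 hx
    simp [bl, cq, rd_zero, sy]

theorem gam_le (h0 : 0 < ρ) (h1 : ρ < 1) {M : ℕ} (h : σ ≤ M) :
    ρ ^ M / (1 - ρ) ≤ ρ ^ σ / (1 - ρ) :=
  div_le_div_of_nonneg_right (pow_le_pow_of_le_one h0.le h1.le h) (by linarith)

theorem g0_le (h0 : 0 < ρ) (h1 : ρ < 1) : ρ ^ σ ≤ ρ ^ σ / (1 - ρ) := by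
  rw [le_div_iff₀ (by linarith)]
  nlinarith [pow_pos h0 σ]

theorem off_err (h0 : 0 < ρ) (h1 : ρ < 1) {M : ℕ} (h : σ ≤ M) {p : ℝ[X]} (hp : X ^ M ∣ p) :
    X ^ M ∣ rd 0 (-1) p ∧ nm ρ (zr (rd 0 (-1) p) + p) ≤ ρ ^ σ / (1 - ρ) := by
  have h2 := rd_dvd 0 (-1) hp
  have h3 := (rd_err h0.le h1 0 (-1) hp).trans (gam_le h0 h1 h)
  simp only [pow_zero, one_mul, map_neg, map_one, neg_mul, sub_neg_eq_add] at h2 h3
  exact ⟨h2, h3⟩

theorem ca_norm (h0 : 0 < ρ) (h1 : ρ < 1) (hκ : 0 < κ) {L : ℕ} (h : σ ≤ L) (hg : ρ ^ σ ≤ κ) :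
    nz ρ (ca ρ κ L) ≤ 2 * κ := by
  rw [ca, nz_natCast_mul, nz_X_pow h0.le]
  linarith [(ceil_bound (pow_pos h0 L) hκ).2, pow_le_pow_of_le_one h0.le h1.le h]

theorem dia_err (h0 : 0 < ρ) (h1 : ρ < 1) (hκ : 0 < κ) (L : ℕ) {M : ℕ} (h : σ ≤ M) :
    ∃ φ : ℝ[X] → ℝ[X], (∀ p p', X ^ L ∣ p → X ^ L ∣ p' → nm ρ (φ p' - φ p) ≤ nm ρ (p' - p) / κ) ∧
      φ 0 = 0 ∧ ∀ p, X ^ (L + M) ∣ p → X ^ M ∣ cq ρ κ L p ∧ zr (ca ρ κ L) * φ p = -p ∧
        nm ρ (zr (cq ρ κ L p) - φ p) ≤ ρ ^ σ / (1 - ρ) := by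
  obtain ⟨n1, -⟩ := ceil_bound (pow_pos h0 L) hκ
  have n0 : (0 : ℝ) < ⌈κ / ρ ^ L⌉₊ := (pos_iff_pos_of_mul_pos (hκ.trans_le n1)).2 (pow_pos h0 L)
  have e : ∀ q : ℝ[X], X ^ L * q /ₘ X ^ L = q := fun q => mul_divByMonic_cancel_left q (monic_X_pow L)
  refine ⟨fun p => C (-1 / (⌈κ / ρ ^ L⌉₊ : ℝ)) * (p /ₘ X ^ L), ?_, by simp, ?_⟩
  · rintro _ _ ⟨q, rfl⟩ ⟨q', rfl⟩
    simp only [e]
    rw [← mul_sub, ← mul_sub, nm_C_mul, nm_X_pow_mul, abs_of_pos h0, abs_div, abs_neg, abs_one,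
      abs_of_pos n0, mul_div_right_comm]
    refine mul_le_mul_of_nonneg_right ?_ (nm_nonneg _)
    rw [div_le_div_iff₀ n0 hκ]
    linarith
  · rintro _ ⟨q, rfl⟩
    rw [pow_add, mul_assoc]
    simp only [e]
    refine ⟨rd_dvd _ _ (dvd_mul_right _ _), ?_,
      (rd_err h0.le h1 _ _ (dvd_mul_right _ _)).trans (gam_le h0 h1 h)⟩
    have : C (⌈κ / ρ ^ L⌉₊ : ℝ) * C (-1 / (⌈κ / ρ ^ L⌉₊ : ℝ)) = -1 := by
      rw [← C_mul, mul_div_cancel₀ _ n0.ne', C_neg, C_1]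
    rw [ca, map_mul, map_natCast, map_pow, zr_X, ← C_eq_natCast]
    linear_combination (X ^ L * (X ^ M * q)) * this

theorem sy_val {R : Type} [CommRing R] {i j : s} (h : i ≠ j) (a b : R) :
    (sy i j a b).val - 1 = single i i (a * b + (a * b) * (a * b)) - single i j (a * (a * b)) +
      single j i (a * b * b) - single j j (a * b) := by
  rw [sy, commutatorElement_def]
  simp only [Units.val_mul, xe_val h, xe_val h.symm, xe_inv_val h, xe_inv_val h.symm]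
  simp [mul_add, add_mul, mul_sub, sub_mul, h, h.symm, single_add, mul_comm, mul_left_comm]
  abel

theorem gm_sy {R R' : Type} [CommRing R] [CommRing R'] (f : R →+* R') (i j : s) (a b : R) :
    gm f (sy i j a b) = sy i j (f a) (f b) := by
  rw [sy, map_commutatorElement, gm_xe, gm_xe, sy]

theorem sn_sub {A : Type} [Ring A] (f : RingSeminorm A) (a b : A) : f (a - b) ≤ f a + f b := by
  rw [sub_eq_add_neg, ← map_neg_eq_map f b]; exact map_add_le_add f _ _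

/-- the first order effect of a correction -/
noncomputable def zt (o : s) (ξ : Matrix s s ℝ[X]) (p : s × s) : Matrix s s ℝ[X] :=
  if p.1 = p.2 then single o o (ξ p.1 p.1) - single p.1 p.1 (ξ p.1 p.1)
  else -single p.1 p.2 (ξ p.1 p.2)

theorem sum_zt (ξ : Matrix s s ℝ[X]) : ∑ p, zt o ξ p = single o o ξ.trace - ξ := by
  have e : ∀ p : s × s, zt o ξ p = (if p.1 = p.2 then single o o (ξ p.1 p.1) else 0) -
      single p.1 p.2 (ξ p.1 p.2) := fun ⟨i, j⟩ => by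
    by_cases h : i = j
    · subst h; simp [zt]
    · simp [zt, h]
  simp only [e, Finset.sum_sub_distrib, Fintype.sum_prod_type, Finset.sum_ite_eq, Finset.mem_univ,
    if_true]
  rw [← matrix_eq_sum_single]
  congr 1
  ext1 a b
  simp [Matrix.sum_apply, single_apply, trace]

theorem zt_norm (ξ : Matrix s s ℝ[X]) (p : s × s) : mnS s ρ (zt o ξ p) ≤ 2 * mnS s ρ ξ := by
  have h0 := apply_nonneg (mnS s ρ) ξ
  unfold zt
  split_ifs
  · refine (sn_sub _ _ _).trans ?_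
    rw [mn_single, mn_single]
    linarith [nm_le_mn (ρ := ρ) ξ p.1 p.1]
  · rw [map_neg_eq_map, mn_single]
    linarith [nm_le_mn (ρ := ρ) ξ p.1 p.2]

theorem bl_err (h0 : 0 < ρ) (h1 : ρ < 1) (hκ : 0 < κ) (hκ1 : κ ≤ 1 / 2) (L : Lv N σ o)
    (hg : ρ ^ σ / (1 - ρ) ≤ κ ^ 2) {ξ : Matrix s s ℝ[X]} (hξ : ∀ i j, X ^ N i j ∣ ξ i j) {R : ℝ}
    (hR : mnS s ρ ξ ≤ R) (hR1 : R ≤ κ ^ 2) (p : s × s) :
    mnS s ρ ((gm zr (bl ρ κ N o ξ p)).val - 1 - zt o ξ p) ≤ 5 * κ * R + 5 * (ρ ^ σ / (1 - ρ)) := by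
  obtain ⟨i, j⟩ := p
  have R0 := (apply_nonneg _ _).trans hR
  have g0 := (pow_pos h0 σ).trans_le (g0_le h0 h1)
  have g1 := (g0_le h0 h1).trans hg
  set γ := ρ ^ σ / (1 - ρ)
  by_cases h : i = j
  swap
  · simp only [bl, zt, if_neg h, gm_xe, xe_val h, add_sub_cancel_left, sub_neg_eq_add, ← single_add,
      mn_single]
    nlinarith [(off_err h0 h1 (L.low i j) (hξ i j)).2]
  subst h
  by_cases h : i = o
  · subst h
    simp only [bl, zt, if_true, sy, xe_self, commutatorElement_self, map_one, Units.val_one,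
      sub_self, map_zero]
    positivity
  obtain ⟨φ, f1, f0, f2⟩ := dia_err h0 h1 hκ (N i o) (L.low o i)
  obtain ⟨-, e1, e2⟩ := f2 (ξ i i) (L.dia i h ▸ hξ i i)
  have e3 := f1 0 (ξ i i) (dvd_zero _)
    ((pow_dvd_pow X (by rw [L.dia i h]; omega)).trans (hξ i i))
  rw [f0, sub_zero, sub_zero] at e3
  have e4 : nm ρ (zr (ca ρ κ (N i o))) ≤ 2 * κ := ca_norm h0 h1 hκ (L.low i o) (by nlinarith)
  have e5 := (nm_le_mn ξ i i).trans hR
  simp only [bl, zt, if_true, gm_sy, sy_val h]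
  set a := zr (ca ρ κ (N i o))
  set q := zr (cq ρ κ (N i o) (ξ i i))
  have b1 : nm ρ (a * q + ξ i i) ≤ γ := by
    rw [show a * q + ξ i i = a * (q - φ (ξ i i)) by linear_combination e1]
    exact (nm_mul _ _).trans ((mul_le_mul e4 e2 (nm_nonneg _) (by positivity)).trans (by nlinarith))
  have b2 : nm ρ (a * q) ≤ R + γ := by
    have := nm_sub (ρ := ρ) (a * q + ξ i i) (ξ i i)
    rw [add_sub_cancel_right] at this
    linarith
  have b3 : nm ρ q ≤ 3 / 2 * κ := by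
    have := nm_add (ρ := ρ) (q - φ (ξ i i)) (φ (ξ i i))
    rw [sub_add_cancel] at this
    have h5 : nm ρ (ξ i i) / κ ≤ κ := by rw [div_le_iff₀ hκ]; nlinarith
    nlinarith
  have w0 := nm_nonneg (ρ := ρ) (a * q)
  have e : single i i (a * q + a * q * (a * q)) - single i o (a * (a * q)) + single o i (a * q * q) -
      single o o (a * q) - (single o o (ξ i i) - single i i (ξ i i)) =
      single i i (a * q + ξ i i) + single i i (a * q * (a * q)) - single i o (a * (a * q)) +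
        single o i (a * q * q) - single o o (a * q + ξ i i) := by
    simp only [single_add]; abel
  rw [e]
  refine (sn_sub _ _ _).trans ((add_le_add ((map_add_le_add _ _ _).trans (add_le_add
    ((sn_sub _ _ _).trans (add_le_add (map_add_le_add _ _ _) le_rfl)) le_rfl)) le_rfl).trans ?_)
  simp only [mn_single]
  have c1 := (nm_mul (ρ := ρ) (a * q) (a * q)).trans
    (mul_le_mul_of_nonneg_left (show nm ρ (a * q) ≤ κ by nlinarith) w0)
  have c2 := (nm_mul (ρ := ρ) a (a * q)).trans (mul_le_mul_of_nonneg_right e4 w0)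
  have c3 := (nm_mul (ρ := ρ) (a * q) q).trans (mul_le_mul_of_nonneg_left b3 w0)
  have c4 := mul_le_mul_of_nonneg_left b2 hκ.le
  nlinarith

/-- accuracy of the approximant -/
theorem bb_acc (s : Type) [Fintype s] [DecidableEq s] : ∃ κ C : ℝ, 0 < κ ∧ κ ≤ 1 / 2 ∧ 0 ≤ C ∧
    ∀ ρ : ℝ, 0 < ρ → ρ < 1 → ∀ (N : s → s → ℕ) (σ : ℕ) (o : s), Lv N σ o →
      ρ ^ σ / (1 - ρ) ≤ κ ^ 2 → ∀ (G : GL s ℝ[X]) (R : ℝ), (∀ i j, X ^ N i j ∣ (G.val - 1) i j) →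
        G.val.det = 1 → mr ρ G ≤ R → R ≤ κ ^ 2 →
          mr ρ (gm zr (bb ρ κ N o (G.val - 1)) * G) ≤ R / 2 + C * (ρ ^ σ / (1 - ρ)) := by
  obtain ⟨n, hn⟩ : ∃ n : ℝ, n = Fintype.card (s × s) := ⟨_, rfl⟩
  obtain ⟨T, hT⟩ : ∃ T : ℝ, T = (Fintype.card s).factorial * 2 ^ Fintype.card s + 1 := ⟨_, rfl⟩
  have n0 : 0 ≤ n := by rw [hn]; positivity
  have T0 : 0 ≤ T := by rw [hT]; positivity
  obtain ⟨D, hD⟩ : ∃ D, D = 50 * n ^ 2 + T + 15 * n + 1 := ⟨_, rfl⟩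
  have D1 : 1 ≤ D := by rw [hD]; nlinarith
  obtain ⟨κ, hκD⟩ : ∃ κ, κ = 1 / (2 * D) := ⟨_, rfl⟩
  have hκ : 0 < κ := by rw [hκD]; positivity
  have hκ2 : κ * D = 1 / 2 := by rw [hκD]; field_simp
  have hκ1 : κ ≤ 1 / 2 := by nlinarith
  refine ⟨κ, 5 * n + 1, hκ, hκ1, by positivity, fun ρ h0 h1 N σ o L hg G R hξ hd hR hR1 => ?_⟩
  have g0 := (pow_pos h0 σ).trans_le (g0_le h0 h1)
  have e1 := bl_err h0 h1 hκ hκ1 L hg hξ hR hR1
  have R0 := (mr_nonneg G).trans hR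
  rw [mr] at hR
  have e2 := nm_trace (ξ := G.val - 1) (by simpa using hd) (hR.trans (by nlinarith))
  rw [← hT] at e2
  set γ := ρ ^ σ / (1 - ρ)
  set ξ := G.val - 1 with hξ
  have k2 : κ ^ 2 ≤ κ / 2 := by nlinarith
  have hS : 5 * n * (R + γ) ≤ 10 * n * κ ^ 2 := by nlinarith
  have hn2 : 15 * n * κ ≤ 1 / 2 := by nlinarith [sq_nonneg n]
  obtain ⟨p1, p2⟩ := sn_prod2 (mnS s ρ) Finset.univ.toList
    (fun p => (gm zr (bl ρ κ N o ξ p)).val) (S := 5 * n * (R + γ)) (by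
      rw [Finset.sum_map_toList]
      refine (Finset.sum_le_card_nsmul _ _ (5 * (R + γ)) fun p _ => ?_).trans (le_of_eq ?_)
      · have := map_add_le_add (mnS s ρ) ((gm zr (bl ρ κ N o ξ p)).val - 1 - zt o ξ p) (zt o ξ p)
        rw [sub_add_cancel] at this
        nlinarith [e1 p, zt_norm (ρ := ρ) (o := o) ξ p]
      · rw [nsmul_eq_mul, Finset.card_univ, ← hn]; ring) (by nlinarith)
  have e3 : (gm zr (bb ρ κ N o ξ)).val =
      (Finset.univ.toList.map fun p => (gm zr (bl ρ κ N o ξ p)).val).prod := by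
    rw [bb, map_list_prod, List.map_map]
    exact (map_list_prod (Units.coeHom _) _).trans (by rw [List.map_map]; rfl)
  rw [← e3, Finset.sum_map_toList] at p2
  rw [← e3] at p1
  set B := (gm zr (bb ρ κ N o ξ)).val with hB
  have e4 : (gm zr (bb ρ κ N o ξ) * G).val - 1 =
      (B - 1 - ∑ p, ((gm zr (bl ρ κ N o ξ p)).val - 1)) +
        ∑ p, ((gm zr (bl ρ κ N o ξ p)).val - 1 - zt o ξ p) + single o o ξ.trace + (B - 1) * ξ := by
    rw [Finset.sum_sub_distrib (fun p => (gm zr (bl ρ κ N o ξ p)).val - 1), sum_zt, Units.val_mul,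
      ← hB, hξ]
    noncomm_ring
  rw [mr, e4]
  refine (map_add_le_add _ _ _).trans ((add_le_add ((map_add_le_add _ _ _).trans (add_le_add
    (map_add_le_add _ _ _) le_rfl)) le_rfl).trans ?_)
  have c1 := (sn_sum (mnS s ρ) _ _).trans (Finset.sum_le_card_nsmul Finset.univ _ _ fun p _ => e1 p)
  rw [nsmul_eq_mul, Finset.card_univ, ← hn] at c1
  have c2 := (map_mul_le_mul (mnS s ρ) (B - 1) ξ).trans
    (mul_le_mul p1 (hR.trans (hR1.trans k2)) (apply_nonneg _ _) (by positivity))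
  have c3 : T * mnS s ρ ξ ^ 2 ≤ T * κ * (R + γ) := by
    rw [mul_assoc]
    refine mul_le_mul_of_nonneg_left ?_ T0
    nlinarith [apply_nonneg (mnS s ρ) ξ]
  have c4 : (5 * n * (R + γ)) ^ 2 ≤ 50 * n ^ 2 * κ * (R + γ) := by
    have : R + γ ≤ 2 * κ := by nlinarith
    calc _ = 25 * n ^ 2 * (R + γ) * (R + γ) := by ring
      _ ≤ 25 * n ^ 2 * (2 * κ) * (R + γ) := by gcongr
      _ = _ := by ring
  have c5 : κ * D * (R + γ) = 1 / 2 * (R + γ) := by rw [hκ2]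
  rw [hD] at c5
  rw [mn_single]
  nlinarith [mul_nonneg (mul_nonneg n0 hκ.le) g0.le, mul_nonneg (mul_nonneg n0 hκ.le) R0,
    mul_nonneg hκ.le g0.le, mul_nonneg hκ.le R0]

theorem bl_mem (h0 : 0 < ρ) (h1 : ρ < 1) (hκ : 0 < κ) (L : Lv N σ o) {ξ : Matrix s s ℝ[X]}
    (hξ : ∀ i j, X ^ N i j ∣ ξ i j) (p : s × s) : bl ρ κ N o ξ p ∈ Fl fun i j => tI (N i j) := by
  obtain ⟨i, j⟩ := p
  unfold bl
  split_ifs with h
  · by_cases h : i = o
    · simp [h, sy, one_mem]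
    obtain ⟨φ, -, -, f2⟩ := dia_err h0 h1 hκ (N i o) (L.low o i)
    have m1 : xe i o (ca ρ κ (N i o)) ∈ Fl fun i j => tI (N i j) :=
      xe_mem_Fl (mem_tI.2 (dvd_mul_left _ _))
    have m2 : xe o i (cq ρ κ (N i o) (ξ i i)) ∈ Fl fun i j => tI (N i j) :=
      xe_mem_Fl (mem_tI.2 (f2 (ξ i i) (L.dia i h ▸ hξ i i)).1)
    exact mul_mem (mul_mem (mul_mem m1 m2) (inv_mem m1)) (inv_mem m2)
  · exact xe_mem_Fl (mem_tI.2 (off_err h0 h1 (L.low i j) (hξ i j)).1)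

theorem bb_mem (h0 : 0 < ρ) (h1 : ρ < 1) (hκ : 0 < κ) (L : Lv N σ o) {ξ : Matrix s s ℝ[X]}
    (hξ : ∀ i j, X ^ N i j ∣ ξ i j) : bb ρ κ N o ξ ∈ Fl fun i j => tI (N i j) :=
  list_prod_mem fun x hx => by
    obtain ⟨p, -, rfl⟩ := List.mem_map.1 hx
    exact bl_mem h0 h1 hκ L hξ p

/-- `u'` and `u` are words with close letters -/
def Cl (ok : s → s → ℕ → Prop) (ρ τ0 A : ℝ) (u' u : GL s ℤ[X]) : Prop :=
  ∀ τ, τ0 ≤ τ → ∀ y, Pa ok ρ τ y → Pa ok ρ (A * τ) (u' * y * u⁻¹)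

theorem Cl.mul {ok : s → s → ℕ → Prop} {τ0 A B : ℝ} {u u' v v' : GL s ℤ[X]}
    (h1 : Cl ok ρ τ0 A u' u) (h2 : Cl ok ρ τ0 B v' v) (hB : 1 ≤ B) :
    Cl ok ρ τ0 (A * B) (u' * v') (u * v) := fun τ hτ y hy => by
  convert h1 _ (by nlinarith [hy.1]) _ (h2 τ hτ y hy) using 1
  · ring
  · group

theorem cl_xe {τ0 A : ℝ} {i j : s} {c c' : ℤ[X]} (ht : Tame (okN N) ρ (ρ ^ σ) A (xe i j c))
    (hg : ρ ^ σ ≤ τ0) (hd : X ^ N i j ∣ c' - c) (hn : nz ρ (c' - c) ≤ τ0) :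
    Cl (okN N) ρ τ0 (A + 1) (xe i j c') (xe i j c) := fun τ hτ y hy => by
  have := ((pa_lv hd).mono (hn.trans hτ)).mul (ht τ (hg.trans hτ) y hy)
  rw [← mul_assoc, ← mul_assoc, ← xe_add, sub_add_cancel] at this
  convert this using 1
  ring

theorem cl_prod {ι : Type} {ok : s → s → ℕ → Prop} {τ0 A : ℝ} (hA : 1 ≤ A) (l : List ι)
    {u u' : ι → GL s ℤ[X]} (h : ∀ i, Cl ok ρ τ0 A (u' i) (u i)) :
    Cl ok ρ τ0 (A ^ l.length) (l.map u').prod (l.map u).prod := by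
  induction l with
  | nil => intro τ _ y hy; simpa using hy
  | cons i l ih =>
    rw [List.map_cons, List.map_cons, List.prod_cons, List.prod_cons, List.length_cons, pow_succ']
    exact (h i).mul ih (one_le_pow₀ hA)

/-- approximants of close matrices are joined by short paths -/
theorem bb_close (h0 : 0 < ρ) (h1 : ρ < 1) (hκ : 0 < κ) (hκ1 : κ ≤ 1 / 2) : ∃ C, 1 ≤ C ∧
    ∀ (N : s → s → ℕ) (σ : ℕ) (o : s), Lv N σ o → ρ ^ σ / (1 - ρ) ≤ κ ^ 2 →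
      ∀ ξ ξ' : Matrix s s ℝ[X], (∀ i j, X ^ N i j ∣ ξ i j) → (∀ i j, X ^ N i j ∣ ξ' i j) →
        mnS s ρ ξ ≤ κ ^ 2 → ∀ τ, mnS s ρ (ξ' - ξ) ≤ τ → ρ ^ σ / (1 - ρ) ≤ τ →
          ∀ y, Pa (okN N) ρ τ y → Pa (okN N) ρ (C * τ) (bb ρ κ N o ξ' * y * (bb ρ κ N o ξ)⁻¹) := by
  obtain ⟨A, hA, ht⟩ := tame_letter (s := s) h0 h1 1
  have hA1 : 1 ≤ A + 1 := by linarith
  have hA4 : 1 ≤ (A + 1) ^ 4 := one_le_pow₀ hA1
  have k3 : 3 ≤ 3 / κ := by rw [le_div_iff₀ hκ]; linarith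
  refine ⟨((A + 1) ^ 4) ^ (Finset.univ : Finset (s × s)).toList.length * (3 / κ),
    one_le_mul_of_one_le_of_one_le (one_le_pow₀ hA4) (by linarith),
    fun N σ o L hg ξ ξ' hξ hξ' hR τ hτ hγ y hy => ?_⟩
  have t0 := hy.1
  have t1 : 3 * τ ≤ 3 / κ * τ := mul_le_mul_of_nonneg_right k3 t0
  have g1 := g0_le (σ := σ) h0 h1
  have g2 : ρ ^ σ ≤ 3 / κ * τ := by linarith
  rw [mul_assoc]
  refine cl_prod (τ0 := 3 / κ * τ) hA4 _ (fun ⟨i, j⟩ => ?_) _ le_rfl y (hy.mono (by linarith))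
  have e5 := (nm_le_mn ξ i j).trans hR
  have e6 := (nm_le_mn (ξ' - ξ) i j).trans hτ
  rw [Matrix.sub_apply] at e6
  unfold bl
  split_ifs with h
  · dsimp only at h ⊢
    subst h
    by_cases h : i = o
    · intro τ _ y hy
      simpa [h, sy] using hy.mono (le_mul_of_one_le_left hy.1 hA4)
    obtain ⟨φ, f1, f0, f2⟩ := dia_err h0 h1 hκ (N i o) (L.low o i)
    obtain ⟨d1, -, e1⟩ := f2 (ξ i i) (L.dia i h ▸ hξ i i)
    obtain ⟨d2, -, e2⟩ := f2 (ξ' i i) (L.dia i h ▸ hξ' i i)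
    have d3 : (X : ℝ[X]) ^ N i o ∣ X ^ N i i := pow_dvd_pow X (by rw [L.dia i h]; omega)
    have e3 := f1 0 (ξ i i) (dvd_zero _) (d3.trans (hξ i i))
    have e4 := f1 (ξ i i) (ξ' i i) (d3.trans (hξ i i)) (d3.trans (hξ' i i))
    rw [f0, sub_zero, sub_zero] at e3
    have d0 : X ^ N i o ∣ ca ρ κ (N i o) := dvd_mul_left _ _
    have b0 : nz ρ (ca ρ κ (N i o)) ≤ 1 :=
      (ca_norm h0 h1 hκ (L.low i o) (by nlinarith)).trans (by linarith)
    set a := ca ρ κ (N i o)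
    set q := cq ρ κ (N i o) (ξ i i)
    set q' := cq ρ κ (N i o) (ξ' i i)
    have b1 : nz ρ q ≤ 1 := by
      have := nm_add (ρ := ρ) (zr q - φ (ξ i i)) (φ (ξ i i))
      rw [sub_add_cancel] at this
      have h5 : nm ρ (ξ i i) / κ ≤ κ := by rw [div_le_iff₀ hκ]; nlinarith
      rw [nz]; nlinarith
    have b2 : nz ρ (q' - q) ≤ 3 / κ * τ := by
      rw [nz, map_sub, show zr q' - zr q = (zr q' - φ (ξ' i i)) - (zr q - φ (ξ i i)) +
        (φ (ξ' i i) - φ (ξ i i)) by ring]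
      refine (nm_add _ _).trans ((add_le_add (nm_sub _ _) le_rfl).trans ?_)
      have h5 : nm ρ (ξ' i i - ξ i i) / κ ≤ τ / κ := div_le_div_of_nonneg_right e6 hκ.le
      have h6 : τ ≤ τ / κ := by rw [le_div_iff₀ hκ]; nlinarith
      rw [show 3 / κ * τ = 3 * (τ / κ) by ring]
      linarith
    have z : ∀ c : ℤ[X], nz ρ (c - c) ≤ 3 / κ * τ := fun c => by
      rw [sub_self, nz, map_zero, nm_zero]; linarith
    have := (((cl_xe (ht N σ o L i o a d0 b0) g2 (by simp) (z a)).mul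
      (cl_xe (ht N σ o L o i q d1 b1) g2 (dvd_sub d2 d1) b2) hA1).mul
      (cl_xe (ht N σ o L i o _ d0.neg_right ((nz_neg _).trans_le b0)) g2 (by simp) (z _)) hA1).mul
      (cl_xe (c' := -q') (ht N σ o L o i _ d1.neg_right ((nz_neg _).trans_le b1)) g2
        (dvd_sub d2.neg_right d1.neg_right) (by rwa [← neg_sub', nz_neg])) hA1
    simp only [xe_neg] at this
    rw [show (A + 1) ^ 4 = (A + 1) * (A + 1) * (A + 1) * (A + 1) by ring]
    exact this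
  · dsimp only at h ⊢
    obtain ⟨d1, e1⟩ := off_err h0 h1 (L.low i j) (hξ i j)
    obtain ⟨d2, e2⟩ := off_err h0 h1 (L.low i j) (hξ' i j)
    set q := rd 0 (-1) (ξ i j)
    set q' := rd 0 (-1) (ξ' i j)
    have b1 : nz ρ q ≤ 1 := by
      have := nm_sub (ρ := ρ) (zr q + ξ i j) (ξ i j)
      rw [add_sub_cancel_right] at this
      rw [nz]; nlinarith
    have b2 : nz ρ (q' - q) ≤ 3 / κ * τ := by
      rw [nz, map_sub, show zr q' - zr q = (zr q' + ξ' i j) - (zr q + ξ i j) -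
        (ξ' i j - ξ i j) by ring]
      refine (nm_sub _ _).trans ((add_le_add (nm_sub _ _) le_rfl).trans ?_)
      linarith
    intro τ' h2 y hy
    refine (cl_xe (ht N σ o L i j q d1 b1) g2 (dvd_sub d2 d1) b2 τ' h2 y hy).mono
      (mul_le_mul_of_nonneg_right ?_ hy.1)
    exact le_self_pow₀ hA1 (by norm_num)

end Pool.Agent.MP_993212_an.H15
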