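import Pool.Agent.MP_993212_an.H15.LApp

/-! Contraction of paths and the grid argument along the scaling homotopy. -/

set_option linter.unusedSectionVars false

namespace Pool.Agent.MP_993212_an.H15

open Matrix Polynomial Relation

variable {ρ : ℝ} {s : Type} [Fintype s] [DecidableEq s] {N : s → s → ℕ} {σ : ℕ} {o : s}

theorem Fl_entry {R : Type} [CommRing R] {I : s → s → Ideal R}
    (hI : ∀ i l j, ∀ a ∈ I i l, ∀ b ∈ I l j, a * b ∈ I i j) {g : GL s R} (h : g ∈ Fl I) :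
    ∀ i j, (g.val - 1) i j ∈ I i j := by
  have hx : ∀ i j, ∀ a ∈ I i j, ∀ k l, ((xe i j a).val - 1) k l ∈ I k l := fun i j a ha k l => by
    by_cases e : i = j
    · simp [e]
    rw [xe_val e, add_sub_cancel_left, single_apply]
    split_ifs with h
    · exact h.1 ▸ h.2 ▸ ha
    · exact zero_mem _
  have hm : ∀ x y : GL s R, (∀ i j, (x.val - 1) i j ∈ I i j) → (∀ i j, (y.val - 1) i j ∈ I i j) →
      ∀ i j, ((x * y).val - 1) i j ∈ I i j := fun x y h1 h2 i j => by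
    have e : (x * y).val - 1 = (x.val - 1) + (y.val - 1) + (x.val - 1) * (y.val - 1) := by
      rw [Units.val_mul]; noncomm_ring
    rw [e, Matrix.add_apply, Matrix.add_apply, mul_apply]
    exact add_mem (add_mem (h1 i j) (h2 i j)) (sum_mem fun l _ => hI i l j _ (h1 i l) _ (h2 l j))
  induction h using Subgroup.closure_induction_left with
  | one => simp
  | mul_left x hx' y _ ih =>
    obtain ⟨i, j, a, ha, rfl⟩ := hx'
    exact hm _ _ (hx i j a ha) ih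
  | inv_mul_cancel x hx' y _ ih =>
    obtain ⟨i, j, a, ha, rfl⟩ := hx'
    rw [← xe_neg]
    exact hm _ _ (hx i j _ (neg_mem ha)) ih

/-- the real group with levels -/
noncomputable abbrev FR (N : s → s → ℕ) : Subgroup (GL s ℝ[X]) := Fl fun i j => Ideal.span {X ^ N i j}

/-- the integral group with levels -/
noncomputable abbrev FZ (N : s → s → ℕ) : Subgroup (GL s ℤ[X]) := Fl fun i j => tI (N i j)

theorem FR_entry (L : Lv N σ o) {g : GL s ℝ[X]} (h : g ∈ FR N) (i j : s) :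
    X ^ N i j ∣ (g.val - 1) i j :=
  Ideal.mem_span_singleton.1 (Fl_entry (I := fun i j => Ideal.span {X ^ N i j})
    (fun _ _ _ _ ha _ hb => Ideal.mem_span_singleton.2 (lv_mul L (Ideal.mem_span_singleton.1 ha) (Ideal.mem_span_singleton.1 hb))) h i j)

theorem FZ_entry (L : Lv N σ o) {g : GL s ℤ[X]} (h : g ∈ FZ N) (i j : s) :
    X ^ N i j ∣ (g.val - 1) i j :=
  mem_tI.1 (Fl_entry (I := fun i j => tI (N i j))
    (fun _ _ _ _ ha _ hb => mem_tI.2 (lv_mul L (mem_tI.1 ha) (mem_tI.1 hb))) h i j)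

theorem gm_FR {φ : ℤ[X] →+* ℝ[X]} (hφ : ∀ k a, X ^ k ∣ a → X ^ k ∣ φ a) {g : GL s ℤ[X]}
    (h : g ∈ FZ N) : gm φ g ∈ FR N := by
  refine (Subgroup.closure_le ((FR N).comap (gm φ))).2 (fun x hx => ?_) h
  obtain ⟨i, j, a, ha, rfl⟩ := hx
  rw [SetLike.mem_coe, Subgroup.mem_comap, gm_xe]
  exact xe_mem_Fl (Ideal.mem_span_singleton.2 (hφ _ _ (mem_tI.1 ha)))

theorem Mv.mem {ok : s → s → ℕ → Prop} {S : Subgroup (GL s ℤ[X])}
    (hS : ∀ i j k, ok i j k → xe i j (X ^ k) ∈ S) {x y : GL s ℤ[X]} (h : Mv ok x y) (hx : x ∈ S) :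
    y ∈ S := by
  obtain ⟨i, j, k, h1, e | e⟩ := h
  · exact e ▸ mul_mem (hS i j k h1) hx
  · rwa [e, S.mul_mem_cancel_left (hS i j k h1)] at hx

theorem ok_mem (i j : s) (k : ℕ) (h : okN N i j k) : xe i j (X ^ k) ∈ FZ N :=
  xe_mem_Fl (mem_tI.2 (pow_dvd_pow X h))

theorem nz_ok (h0 : 0 < ρ) (h1 : ρ < 1) (L : Lv N σ o) {i j : s} {k : ℕ} (h : okN N i j k) :
    nz ρ (X ^ k) ≤ ρ ^ σ / (1 - ρ) := by
  rw [nz_X_pow h0.le]
  exact (g0_le h0 h1).trans (gam_le h0 h1 ((L.low i j).trans h))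

/-- the data extracted from the approximants -/
structure Ap (ρ κ C D : ℝ) (N : s → s → ℕ) (γ : ℝ) (β : GL s ℝ[X] → GL s ℤ[X]) : Prop where
  one : β 1 = 1
  mem : ∀ G ∈ FR N, β G ∈ FZ N
  acc : ∀ G ∈ FR N, ∀ R, mr ρ G ≤ R → R ≤ κ → mr ρ (gm zr (β G) * G) ≤ R / 2 + C * γ
  cls : ∀ G ∈ FR N, ∀ G' ∈ FR N, mr ρ G ≤ κ → ∀ τ, mnS s ρ (G'.val - G.val) ≤ τ → γ ≤ τ →
    ∀ y, Pa (okN N) ρ τ y → Pa (okN N) ρ (D * τ) (β G' * y * (β G)⁻¹)

theorem exists_ap (h0 : 0 < ρ) (h1 : ρ < 1) : ∃ κ C D : ℝ, 0 < κ ∧ 0 ≤ C ∧ 1 ≤ D ∧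
    ∀ (N : s → s → ℕ) (σ : ℕ) (o : s), Lv N σ o → ρ ^ σ / (1 - ρ) ≤ κ →
      ∃ β, Ap ρ κ C D N (ρ ^ σ / (1 - ρ)) β := by
  obtain ⟨κ, C, k0, k1, C0, hacc⟩ := bb_acc s
  obtain ⟨D, D1, hcl⟩ := bb_close (s := s) h0 h1 k0 k1
  refine ⟨κ ^ 2, C, D, by positivity, C0, D1, fun N σ o L hg =>
    ⟨fun G => bb ρ κ N o (G.val - 1), by simpa using bb_zero,
      fun G hG => bb_mem h0 h1 k0 L (FR_entry L hG), fun G hG R => hacc ρ h0 h1 N σ o L hg G R
        (FR_entry L hG) (det_of_mem_El (Fl_le_El _ hG)), fun G hG G' hG' h τ hτ =>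
      hcl N σ o L hg _ _ (FR_entry L hG) (FR_entry L hG') h τ (by simpa using hτ)⟩⟩

variable {κ C D : ℝ} {β : GL s ℝ[X] → GL s ℤ[X]}

theorem Ap.small {γ : ℝ} (A : Ap ρ κ C D N γ β) {G : GL s ℝ[X]} (hG : G ∈ FR N) {τ : ℝ}
    (h1 : mr ρ G ≤ τ) (h2 : τ ≤ κ) (h3 : γ ≤ τ) :
    Pa (okN N) ρ (D * τ) (β G) ∧ Pa (okN N) ρ (D * τ) (β G)⁻¹ := by
  have t0 := (mr_nonneg G).trans h1
  have p1 := A.cls 1 (one_mem _) G hG (by rw [mr_one]; linarith) τ h1 h3 1 (Pa.one t0)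
  have p2 := A.cls G hG 1 (one_mem _) (h1.trans h2) τ (by rwa [map_sub_rev]) h3 1 (Pa.one t0)
  rw [A.one] at p1 p2
  exact ⟨by simpa using p1, by simpa using p2⟩

/-- contraction of paths that end near the identity -/
theorem contract (h0 : 0 < ρ) (h1 : ρ < 1) (L : Lv N σ o) (A : Ap ρ κ C D N (ρ ^ σ / (1 - ρ)) β)
    (hC : 0 ≤ C) (hD : 1 ≤ D) {R η : ℝ} (r1 : R ≤ 1 / 5) (r2 : 2 * R ≤ κ) (e1 : ρ ^ σ / (1 - ρ) ≤ η)
    (e2 : (3 * D + C) * η ≤ R / 10) {g : GL s ℤ[X]} (hg : Pa (okN N) ρ R g)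
    (hn : mr ρ (gm zr g) ≤ η) : Pa (okN N) ρ (7 / 10 * R) g := by
  have g0 := (pow_pos h0 σ).trans_le (g0_le h0 h1)
  have hok := fun i j k => nz_ok (i := i) (j := j) (k := k) h0 h1 L
  set γ := ρ ^ σ / (1 - ρ)
  have R0 := hg.1
  have hz : ∀ x ∈ FZ N, gm zr x ∈ FR N := fun x => gm_FR fun _ _ => zr_dvd
  have m1 : ∀ x : GL s ℤ[X], el ρ x ≤ R → mr ρ (gm zr x) ≤ 6 / 5 * R := fun x hx => by
    have := (le_abs_self _).trans
      (Real.abs_exp_sub_one_sub_id_le (x := R) (by rw [abs_of_nonneg R0]; linarith))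
    nlinarith [mr_le_of_el hx]
  have m2 : ∀ x ∈ FZ N, el ρ x ≤ R → el ρ (β (gm zr x) * x) ≤ 3 / 5 * R + C * γ := fun x hx h => by
    refine (el_le_mr _).trans ?_
    rw [map_mul]
    linarith [A.acc _ (hz x hx) _ (m1 x h) (by linarith)]
  have st : ∀ x ∈ FZ N, el ρ x ≤ R → ∀ i j k, okN N i j k →
      Rch (okN N) ρ (D * (2 * γ) + (3 / 5 * R + C * γ)) (β (gm zr x) * x)
        (β (gm zr (xe i j (X ^ k) * x)) * (xe i j (X ^ k) * x)) := fun x hx h i j k hk => by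
    have := (A.cls _ (hz x hx) _ (hz _ (mul_mem (ok_mem i j k hk) hx))
      ((m1 x h).trans (by linarith)) (2 * γ) ?_ (by linarith) _
      ((pa_lv (pow_dvd_pow X hk)).mono ((hok i j k hk).trans (by linarith)))).step (β (gm zr x) * x)
    · convert this.mono (add_le_add le_rfl (m2 x hx h)) using 1
      group
    · have e : (gm zr (xe i j (X ^ k) * x)).val - (gm zr x).val =
          ((gm zr (xe i j (X ^ k))).val - 1) * (gm zr x).val := by
        rw [map_mul, Units.val_mul, sub_mul, one_mul]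
      rw [e]
      refine (sn_right _ _ _).trans ?_
      have h2 := (mr_zxe (ρ := ρ) i j (X ^ k)).trans (hok i j k hk)
      have h3 := m1 x h
      rw [mul_comm 2]
      exact mul_le_mul h2 (by unfold mr at h3; linarith)
        (add_nonneg zero_le_one (apply_nonneg _ _)) g0.le
  have key : ∀ x, Rch (okN N) ρ R 1 x → x ∈ FZ N ∧
      Rch (okN N) ρ (D * (2 * γ) + (3 / 5 * R + C * γ)) 1 (β (gm zr x) * x) := by
    intro x hx
    induction hx with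
    | refl => exact ⟨one_mem _, by rw [map_one, A.one, mul_one]; exact ReflTransGen.refl⟩
    | @tail b c _ h ih =>
      have hc := h.2.2.mem ok_mem ih.1
      refine ⟨hc, ih.2.trans ?_⟩
      obtain ⟨e1, e2, i, j, k, hk, e | e⟩ := h
      · exact e ▸ st b ih.1 e1 i j k hk
      · exact (e ▸ st c hc e2 i j k hk : Rch _ _ _ _ _).symm
  obtain ⟨hF, hR⟩ := key g hg.2
  have η0 := g0.le.trans e1
  have p1 := (A.small (hz g hF) hn (by nlinarith) e1).2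
  have p2 : Pa (okN N) ρ _ _ := ⟨by positivity, hR⟩
  have := p1.mul p2
  rw [inv_mul_cancel_left] at this
  have q1 := mul_le_mul_of_nonneg_left e1 hC
  have q2 := mul_le_mul_of_nonneg_left e1 (zero_le_one.trans hD)
  exact this.mono (by nlinarith)

/-- scaling of the variable -/
noncomputable def sc (τ : ℝ) : ℤ[X] →+* ℝ[X] := (compRingHom (Polynomial.C τ * X)).comp zr

theorem sc_coeff (τ : ℝ) (a : ℤ[X]) (k : ℕ) : (sc τ a).coeff k = a.coeff k * τ ^ k := by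
  simp [sc, zr_coeff]

theorem sc_one : sc 1 = zr := RingHom.ext fun a => by ext k; simp [sc_coeff, zr_coeff]

theorem sc_dvd (τ : ℝ) (k : ℕ) (a : ℤ[X]) (h : X ^ k ∣ a) : X ^ k ∣ sc τ a :=
  X_pow_dvd_iff.2 fun d hd => by simp [sc_coeff, X_pow_dvd_iff.1 h d hd]

theorem sc_supp (τ : ℝ) (a : ℤ[X]) : (sc τ a).support ⊆ a.support := fun k hk => by
  rw [mem_support_iff] at hk ⊢
  exact fun h => hk (by simp [sc_coeff, h])

theorem nm_sc {τ : ℝ} (h0 : 0 ≤ τ) (h1 : τ ≤ 1) (a : ℤ[X]) : nm ρ (sc τ a) ≤ nz ρ a := by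
  rw [nm_eq (sc_supp τ a), nz_eq subset_rfl]
  refine Finset.sum_le_sum fun k _ => ?_
  rw [sc_coeff, mul_right_comm, abs_mul _ (τ ^ k), abs_of_nonneg (pow_nonneg h0 k)]
  exact mul_le_of_le_one_right (abs_nonneg _) (pow_le_one₀ h0 h1)

theorem gm_sub_one {R R' : Type} [CommRing R] [CommRing R'] (f : R →+* R') (g : GL s R) (i j : s) :
    ((gm f g).val - 1) i j = f ((g.val - 1) i j) := by
  simp [gm_val, one_apply, apply_ite f]

theorem mr_sc {τ : ℝ} (h0 : 0 ≤ τ) (h1 : τ ≤ 1) (g : GL s ℤ[X]) :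
    mr ρ (gm (sc τ) g) ≤ mr ρ (gm zr g) :=
  Finset.sum_le_sum fun i _ => Finset.sum_le_sum fun j _ => by
    rw [gm_sub_one, gm_sub_one]; exact nm_sc h0 h1 _

theorem sc_zero (L : Lv N σ o) {g : GL s ℤ[X]} (h : g ∈ FZ N) : gm (sc 0) g = 1 := by
  apply Units.ext
  rw [Units.val_one, ← sub_eq_zero]
  ext i j k
  rw [gm_sub_one, sc_coeff]
  rcases k with _ | k
  · rw [X_pow_dvd_iff.1 (FZ_entry L h i j) 0 (L.pos.trans (L.low i j))]; simp
  · simp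

theorem sc_lip (a : ℤ[X]) {τ τ' : ℝ} (h0 : 0 ≤ τ) (h1 : τ ≤ 1) (h0' : 0 ≤ τ') (h1' : τ' ≤ 1) :
    nm ρ (sc τ a - sc τ' a) ≤ a.natDegree * nz ρ a * |τ - τ'| := by
  rw [nm_eq (T := a.support) (fun k hk => by
    rw [mem_support_iff] at hk ⊢
    exact fun h => hk (by simp [sc_coeff, h])), nz_eq subset_rfl, Finset.mul_sum, Finset.sum_mul]
  refine Finset.sum_le_sum fun k hk => ?_
  have h2 := abs_pow_sub_pow_le τ τ' k
  have h3 : max |τ| |τ'| ^ (k - 1) ≤ 1 := pow_le_one₀ (le_max_of_le_left (abs_nonneg _))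
    (max_le (by rwa [abs_of_nonneg h0]) (by rwa [abs_of_nonneg h0']))
  have h4 : (k : ℝ) ≤ a.natDegree := by exact_mod_cast le_natDegree_of_mem_supp k hk
  have h5 : |τ ^ k - τ' ^ k| ≤ a.natDegree * |τ - τ'| :=
    h2.trans ((mul_le_of_le_one_right (by positivity) h3).trans
      (by rw [mul_comm]; exact mul_le_mul_of_nonneg_right h4 (abs_nonneg _)))
  rw [coeff_sub, sc_coeff, sc_coeff, ← mul_sub, mul_right_comm, abs_mul _ (_ - _)]
  calc _ ≤ |a.coeff k * ρ ^ k| * (a.natDegree * |τ - τ'|) :=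
        mul_le_mul_of_nonneg_left h5 (abs_nonneg _)
    _ = _ := by ring

theorem mr_lip (g : GL s ℤ[X]) : ∃ K, 0 ≤ K ∧ ∀ τ τ' : ℝ, 0 ≤ τ → τ ≤ 1 → 0 ≤ τ' → τ' ≤ 1 →
    mr ρ (gm (sc τ) g * (gm (sc τ') g)⁻¹) ≤ K * |τ - τ'| := by
  have z := fun a => nz_nonneg (ρ := ρ) a
  have m := mr_nonneg (ρ := ρ) (gm zr g⁻¹)
  refine ⟨(∑ i, ∑ j, (g.val i j).natDegree * nz ρ (g.val i j)) * (1 + mr ρ (gm zr g⁻¹)),
    mul_nonneg (Finset.sum_nonneg fun _ _ => Finset.sum_nonneg fun _ _ =>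
      mul_nonneg (Nat.cast_nonneg _) (z _)) (by linarith), fun τ τ' h0 h1 h0' h1' => ?_⟩
  have e : (gm (sc τ) g * (gm (sc τ') g)⁻¹).val - 1 =
      ((gm (sc τ) g).val - (gm (sc τ') g).val) * (gm (sc τ') g⁻¹).val := by
    rw [sub_mul, map_inv, Units.mul_inv, Units.val_mul]
  rw [mr, e, mul_right_comm]
  refine (sn_right _ _ _).trans (mul_le_mul ?_ (add_le_add le_rfl (mr_sc h0' h1' _))
    (add_nonneg zero_le_one (apply_nonneg _ _)) (mul_nonneg (Finset.sum_nonneg fun _ _ =>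
      Finset.sum_nonneg fun _ _ => mul_nonneg (Nat.cast_nonneg _) (z _)) (abs_nonneg _)))
  rw [mnS_def, Finset.sum_mul]
  refine Finset.sum_le_sum fun i _ => ?_
  rw [Finset.sum_mul]
  exact Finset.sum_le_sum fun j _ => sc_lip _ h0 h1 h0' h1'

/-- integral approximations of the scaled copies of `g` -/
def Sq (ρ η B : ℝ) (N : s → s → ℕ) (M : ℕ) (g : GL s ℤ[X]) (γ : ℕ → GL s ℤ[X]) : Prop :=
  γ 0 = g ∧ (∀ j ≤ M, mr ρ (gm zr (γ j) * (gm (sc (1 - j / M)) g)⁻¹) ≤ η) ∧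
    ∀ j < M, Pa (okN N) ρ B (γ (j + 1) * (γ j)⁻¹) ∧ Pa (okN N) ρ B (γ j * (γ (j + 1))⁻¹)

theorem grid_mem {j M : ℕ} (h : j ≤ M) : 0 ≤ 1 - (j : ℝ) / M ∧ 1 - (j : ℝ) / M ≤ 1 :=
  ⟨sub_nonneg.2 (div_le_one_of_le₀ (by exact_mod_cast h) (Nat.cast_nonneg _)),
    sub_le_self _ (by positivity)⟩

theorem exists_sq {γ0 : ℝ} (A : Ap ρ κ C D N γ0 β) {η : ℝ} (e0 : 0 < η) (e1 : η ≤ 1)
    (e2 : 2 * η ≤ κ) (e3 : C * γ0 ≤ η / 4) (e4 : γ0 ≤ η) {g : GL s ℤ[X]} (hg : g ∈ FZ N) :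
    ∃ M0, ∀ M ≥ M0, ∃ γ, Sq ρ η (D * (2 * η)) N M g γ := by
  obtain ⟨K, K0, hK⟩ := mr_lip (ρ := ρ) g
  refine ⟨⌈4 * K / η⌉₊ + 1, fun M hM => ?_⟩
  have M0 : (0 : ℝ) < M := by exact_mod_cast (show 0 < M by omega)
  have M1 : K * (1 / M) ≤ η / 4 := by
    have h1 : 4 * K / η ≤ M := (Nat.le_ceil _).trans (by exact_mod_cast (by omega))
    rw [div_le_iff₀ e0] at h1
    rw [mul_one_div, div_le_iff₀ M0]
    linarith
  let γ : ℕ → GL s ℤ[X] := fun j => Nat.rec g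
    (fun j x => β (gm zr x * (gm (sc (1 - (j + 1 : ℕ) / M)) g)⁻¹) * x) j
  have hγ : ∀ j, γ (j + 1) = β (gm zr (γ j) * (gm (sc (1 - (j + 1 : ℕ) / M)) g)⁻¹) * γ j :=
    fun _ => rfl
  have hY : ∀ j τ, γ j ∈ FZ N → gm zr (γ j) * (gm (sc τ) g)⁻¹ ∈ FR N := fun j τ h =>
    mul_mem (gm_FR (fun _ _ => zr_dvd) h) (inv_mem (gm_FR (sc_dvd τ) hg))
  have hS : ∀ j < M, mr ρ (gm zr (γ j) * (gm (sc (1 - j / M)) g)⁻¹) ≤ η →
      mr ρ (gm zr (γ j) * (gm (sc (1 - (j + 1 : ℕ) / M)) g)⁻¹) ≤ 3 / 2 * η := fun j hj h => by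
    have h1 := hK _ _ (grid_mem hj.le).1 (grid_mem hj.le).2 (grid_mem hj).1 (grid_mem hj).2
    rw [show 1 - (j : ℝ) / M - (1 - (j.succ : ℕ) / M) = 1 / M by push_cast; ring,
      abs_of_pos (one_div_pos.2 M0)] at h1
    have h2 := mr_mul (ρ := ρ) (gm zr (γ j) * (gm (sc (1 - j / M)) g)⁻¹)
      (gm (sc (1 - j / M)) g * (gm (sc (1 - (j + 1 : ℕ) / M)) g)⁻¹)
    rw [mul_assoc, inv_mul_cancel_left] at h2
    have h3 := h2.trans (mul_le_mul (add_le_add le_rfl h) (add_le_add le_rfl (h1.trans M1))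
      (add_nonneg zero_le_one (mr_nonneg _)) (by linarith))
    nlinarith
  have key : ∀ j ≤ M, γ j ∈ FZ N ∧ mr ρ (gm zr (γ j) * (gm (sc (1 - j / M)) g)⁻¹) ≤ η := by
    intro j
    induction j with
    | zero => exact fun _ => ⟨hg, by simp [γ, sc_one, mr_one, e0.le]⟩
    | succ j ih =>
      intro hj
      obtain ⟨h1, h2⟩ := ih (by omega)
      refine ⟨hγ j ▸ mul_mem (A.mem _ (hY j _ h1)) h1, ?_⟩
      rw [hγ, map_mul, mul_assoc]
      linarith [A.acc _ (hY j _ h1) _ (hS j hj h2) (by linarith)]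
  refine ⟨γ, rfl, fun j hj => (key j hj).2, fun j hj => ?_⟩
  obtain ⟨h1, h2⟩ := key j hj.le
  have := A.small (hY j _ h1) ((hS j hj h2).trans (by linarith : _ ≤ 2 * η)) e2 (by linarith)
  rw [hγ, mul_inv_cancel_right, _root_.mul_inv_rev, mul_inv_cancel_left]
  exact this

theorem FZ_le_mono : FZ N ≤ Subgroup.closure {g | ∃ i j k, okN N i j k ∧ g = xe i j (X ^ k)} := by
  refine (Subgroup.closure_le _).2 ?_
  rintro _ ⟨i, j, a, ha, rfl⟩
  obtain ⟨c, rfl⟩ := mem_tI.1 ha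
  induction c using Polynomial.induction_on' with
  | add p q h1 h2 =>
    rw [mul_add, xe_add]
    exact mul_mem (h1 (mem_tI.2 (dvd_mul_right _ _))) (h2 (mem_tI.2 (dvd_mul_right _ _)))
  | monomial n z =>
    rw [← C_mul_X_pow_eq_monomial, mul_left_comm, ← pow_add, eq_intCast Polynomial.C, xe_zsmul]
    refine zpow_mem (Subgroup.subset_closure ?_) _
    exact ⟨i, j, _, Nat.le_add_right _ _, rfl⟩

/-- closure lemma in fixed dimension -/
theorem closure_lv (h0 : 0 < ρ) (h1 : ρ < 1) {r : ℝ} (hr : 0 < r) : ∃ δ ε : ℝ, 0 < δ ∧ 0 < ε ∧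
    ∀ (N : s → s → ℕ) (σ : ℕ) (o : s), Lv N σ o → ρ ^ σ / (1 - ρ) ≤ ε →
      ∀ g ∈ FZ N, mr ρ (gm zr g) ≤ δ → Pa (okN N) ρ r g := by
  obtain ⟨κ, C, D, k0, C0, D1, hap⟩ := exists_ap (s := s) h0 h1
  obtain ⟨R, R0, R1, R2, R3⟩ : ∃ R, 0 < R ∧ R ≤ r ∧ R ≤ 1 / 5 ∧ 2 * R ≤ κ :=
    ⟨min r (min (1 / 5) (κ / 2)), by positivity, min_le_left _ _,
      (min_le_right _ _).trans (min_le_left _ _),
      by linarith [(min_le_right r _).trans (min_le_right (1 / 5) (κ / 2))]⟩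
  obtain ⟨η, η0, η1⟩ : ∃ η, 0 < η ∧ (3 * D + C) * (7 * η) = R / 10 :=
    ⟨R / 10 / (3 * D + C) / 7, by positivity, by field_simp⟩
  have η2 : D * η ≤ R / 210 := by nlinarith [mul_nonneg C0 η0.le]
  have η3 : η ≤ R / 210 := by nlinarith
  refine ⟨η, η / (4 * C + 4), η0, by positivity, fun N σ o L hg g hgF hgn => ?_⟩
  have g0 := (pow_pos h0 σ).trans_le (g0_le h0 h1)
  rw [le_div_iff₀ (by positivity)] at hg
  have g1 : ρ ^ σ / (1 - ρ) ≤ η := by nlinarith [mul_nonneg C0 g0.le]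
  obtain ⟨β, A⟩ := hap N σ o L (by linarith)
  have nmm : ∀ x, Pa (okN N) ρ R x → mr ρ (gm zr x) ≤ 7 * η → Pa (okN N) ρ (7 / 10 * R) x :=
    fun x => contract h0 h1 L A C0 D1 R2 R3 (by linarith) η1.le
  have ex := fun g => exists_sq (g := g) A η0 (by linarith) (by linarith) (by linarith) g1
  have near : ∀ {M x γ}, Sq ρ η (D * (2 * η)) N M x γ → mr ρ (gm zr x) ≤ η → ∀ j ≤ M,
      mr ρ (gm zr (γ j)) ≤ 7 * η := fun {M x γ} h hx j hj => by
    have h2 := mr_mul (ρ := ρ) (gm zr (γ j) * (gm (sc (1 - j / M)) x)⁻¹) (gm (sc (1 - j / M)) x)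
    rw [inv_mul_cancel_right] at h2
    have h3 := h2.trans (mul_le_mul (add_le_add le_rfl (h.2.1 j hj)) (add_le_add le_rfl
      ((mr_sc (grid_mem hj).1 (grid_mem hj).2 x).trans hx))
      (add_nonneg zero_le_one (mr_nonneg _)) (by linarith))
    nlinarith
  have last : ∀ {M x γ}, 1 ≤ M → x ∈ FZ N → Sq ρ η (D * (2 * η)) N M x γ →
      mr ρ (gm zr (γ M)) ≤ η := fun {M x γ} hM hx h => by
    have := h.2.1 M le_rfl
    rwa [div_self (by exact_mod_cast (by omega)), sub_self, sc_zero L hx, inv_one, mul_one] at this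
  have step : ∀ x ∈ FZ N, ∀ e ∈ FZ N, Pa (okN N) ρ η e →
      (∀ τ, 0 ≤ τ → τ ≤ 1 → mr ρ (gm (sc τ) e) ≤ η) →
      (∃ M0, ∀ M ≥ M0, ∀ γ, Sq ρ η (D * (2 * η)) N M x γ → Pa (okN N) ρ (7 / 10 * R) (γ M)) →
      ∃ M0, ∀ M ≥ M0, ∀ γ, Sq ρ η (D * (2 * η)) N M (e * x) γ →
        Pa (okN N) ρ (7 / 10 * R) (γ M) := by
    rintro x hx e he pe ne ⟨M0, h2⟩
    obtain ⟨M1, h3⟩ := ex x hx
    refine ⟨M0 + M1 + 1, fun M hM γ' s' => ?_⟩
    obtain ⟨γ, s⟩ := h3 M (by omega)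
    have hT : ∀ j ≤ M, Pa (okN N) ρ (7 / 10 * R) (γ' j * (γ j)⁻¹) := by
      intro j
      induction j with
      | zero =>
        intro _
        rw [s.1, s'.1, mul_inv_cancel_right]
        exact pe.mono (by linarith)
      | succ j ih =>
        intro hj
        refine nmm _ ?_ ?_
        · have := (((s'.2.2 j hj).1.mul (ih (by omega))).mul (s.2.2 j hj).2).mono
            (show _ ≤ R by linarith)
          convert this using 1
          group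
        · have a1 := s'.2.1 _ hj
          have a2 := ne _ (grid_mem hj).1 (grid_mem hj).2
          have a3 := (mr_inv ((s.2.1 _ hj).trans (by linarith))).trans
            (mul_le_mul_of_nonneg_left (s.2.1 _ hj) zero_le_two)
          have a4 := (mr_mul _ _).trans (mul_le_mul ((mr_mul _ _).trans (mul_le_mul
            (add_le_add le_rfl a1) (add_le_add le_rfl a2) (add_nonneg zero_le_one (mr_nonneg _))
            (by linarith))) (add_le_add le_rfl a3) (add_nonneg zero_le_one (mr_nonneg _))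
            (by positivity))
          have e1 : gm zr (γ' (j + 1)) * (gm (sc (1 - (j + 1 : ℕ) / M)) (e * x))⁻¹ *
              gm (sc (1 - (j + 1 : ℕ) / M)) e *
              (gm zr (γ (j + 1)) * (gm (sc (1 - (j + 1 : ℕ) / M)) x)⁻¹)⁻¹ =
              gm zr (γ' (j + 1) * (γ (j + 1))⁻¹) := by
            simp only [map_mul, map_inv]; group
          rw [e1] at a4
          nlinarith [mul_pos η0 η0]
    have := (hT M le_rfl).mul_le (h2 M (by omega) γ s) (σ := R) (by linarith)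
      (by linarith [(el_le_mr _).trans (last (by omega) hx s)])
    rw [inv_mul_cancel_right] at this
    exact nmm _ this ((last (by omega) (mul_mem he hx) s').trans (by linarith))
  have main : ∀ x ∈ Subgroup.closure {g | ∃ i j k, okN N i j k ∧ g = xe i j (X ^ k)}, x ∈ FZ N ∧
      ∃ M0, ∀ M ≥ M0, ∀ γ, Sq ρ η (D * (2 * η)) N M x γ → Pa (okN N) ρ (7 / 10 * R) (γ M) := by
    have lt : ∀ i j a, X ^ N i j ∣ a → nz ρ a ≤ η → xe i j a ∈ FZ N ∧ Pa (okN N) ρ η (xe i j a) ∧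
        ∀ τ, 0 ≤ τ → τ ≤ 1 → mr ρ (gm (sc τ) (xe i j a)) ≤ η := fun i j a h1 h2 =>
      ⟨xe_mem_Fl (mem_tI.2 h1), (pa_lv h1).mono h2, fun τ t0 t1 =>
        (mr_sc t0 t1 _).trans ((mr_zxe _ _ _).trans h2)⟩
    intro x hx
    induction hx using Subgroup.closure_induction_left with
    | one =>
      refine ⟨one_mem _, 0, fun M _ γ s => ?_⟩
      have : ∀ j ≤ M, Pa (okN N) ρ (7 / 10 * R) (γ j) := by
        intro j
        induction j with
        | zero => exact fun _ => s.1 ▸ Pa.one (by linarith)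
        | succ j ih =>
          intro hj
          refine nmm _ ?_ (near s (by simp [mr_one, η0.le]) _ hj)
          simpa using ((s.2.2 j hj).1.mul (ih (by omega))).mono (show _ ≤ R by linarith)
      exact this M le_rfl
    | mul_left e he x _ ih =>
      obtain ⟨i, j, k, hk, rfl⟩ := he
      obtain ⟨a1, a2, a3⟩ := lt i j _ (pow_dvd_pow X hk) ((nz_ok h0 h1 L hk).trans g1)
      exact ⟨mul_mem a1 ih.1, step x ih.1 _ a1 a2 a3 ih.2⟩
    | inv_mul_cancel e he x _ ih =>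
      obtain ⟨i, j, k, hk, rfl⟩ := he
      obtain ⟨a1, a2, a3⟩ := lt i j _ (pow_dvd_pow X hk).neg_right
        ((nz_neg _).trans_le ((nz_ok h0 h1 L hk).trans g1))
      rw [← xe_neg]
      exact ⟨mul_mem a1 ih.1, step x ih.1 _ a1 a2 a3 ih.2⟩
  obtain ⟨M0, h2⟩ := (main g (FZ_le_mono hgF)).2
  obtain ⟨M1, h3⟩ := ex g hgF
  obtain ⟨γ, s⟩ := h3 (M0 + M1) (by omega)
  have : ∀ j ≤ M0 + M1, Pa (okN N) ρ (7 / 10 * R) (γ j) := by
    intro j hj
    induction hj using Nat.decreasingInduction with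
    | self => exact h2 _ (by omega) γ s
    | of_succ j hj ih =>
      refine nmm _ ?_ (near s hgn _ hj.le)
      simpa using ((s.2.2 j hj).2.mul ih).mono (show _ ≤ R by linarith)
  exact (s.1 ▸ this 0 (Nat.zero_le _)).mono (by linarith)

end Pool.Agent.MP_993212_an.H15
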