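import Pool.Agent.MP_993212_an.H15.LGrid

/-! The local lemma: deep elements close to the identity are joined to it by small monomial
steps. -/

set_option linter.unusedSectionVars false

namespace Pool.Agent.MP_993212_an.H15

open Matrix Polynomial Relation

variable {ρ : ℝ} {s : Type} [Fintype s] [DecidableEq s]

/-- cyclic distance of classes -/
def dd : Fin 3 → Fin 3 → ℕ := ![![3, 1, 2], ![2, 3, 1], ![1, 2, 3]]

theorem exists_lv (h3 : Three s) (o : s) {σ : ℕ} (hσ : 1 ≤ σ) : ∃ N, Lv N σ o := by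
  obtain ⟨m, hm, -⟩ := h3 o o
  obtain ⟨n, n1, n2⟩ := h3 o m
  let c : s → Fin 3 := fun i => if i = o then 2 else if i = m then 0 else 1
  have hc : ∀ a, ∃ i, c i = a := fun a => by
    fin_cases a
    exacts [⟨m, by simp [c, hm]⟩, ⟨n, by simp [c, n1, n2]⟩, ⟨o, by simp [c]⟩]
  have f1 : ∀ a b e, dd a e ≤ dd a b + dd b e := by decide
  have f2 : ∀ a b, 1 ≤ dd a b ∧ dd a b ≤ 3 := by decide
  have f3 : ∀ a b, dd a b = 1 ∨ a + 1 ≠ a ∧ a + 1 ≠ b ∧ dd a (a + 1) = 1 ∧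
    dd a b = 1 + dd (a + 1) b := by decide
  have f4 : ∀ a b, dd a b = 1 → dd b a ≠ 1 := by decide
  have f5 : ∀ a, a ≠ 2 → dd a a = dd a 2 + dd 2 a := by decide
  have f6 : ∀ x, σ * x = σ ↔ x = 1 := fun x => Nat.mul_eq_left (by omega)
  refine ⟨fun i j => σ * dd (c i) (c j), hσ, fun i l j => ?_, fun i j => ?_, fun i j => ?_,
    fun i j => ?_, fun i j h h' => f4 _ _ ((f6 _).1 h) ((f6 _).1 h'), fun i hi => ?_⟩
  · rw [← mul_add]; exact Nat.mul_le_mul_left _ (f1 _ _ _)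
  · exact Nat.le_mul_of_pos_right _ (f2 _ _).1
  · rw [mul_comm 3]; exact Nat.mul_le_mul_left _ (f2 _ _).2
  · refine (f3 (c i) (c j)).imp (f6 _).2 fun ⟨a1, a2, a3, a4⟩ => ?_
    obtain ⟨k, hk⟩ := hc (c i + 1)
    refine ⟨k, fun e => a1 (by rw [← hk, e]), fun e => a2 (by rw [← hk, e]), ?_, ?_⟩
    · rw [hk, a3, mul_one]
    · rw [hk, a4, mul_add, mul_one]
  · have : c o = 2 := if_pos rfl
    rw [this, ← mul_add, ← f5]
    simp only [c, if_neg hi]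
    split_ifs <;> decide

theorem Pa.mono_ok {ok ok' : s → s → ℕ → Prop} (h : ∀ i j k, ok i j k → ok' i j k) {τ : ℝ}
    {g : GL s ℤ[X]} (hg : Pa ok ρ τ g) : Pa ok' ρ τ g := by
  refine ⟨hg.1, ?_⟩
  have := hg.2
  clear hg
  induction this with
  | refl => exact ReflTransGen.refl
  | tail _ h1 ih =>
    obtain ⟨e1, e2, i, j, k, hk, e⟩ := h1
    exact ih.tail ⟨e1, e2, i, j, k, h i j k hk, e⟩

theorem exists_pow_le {x ε : ℝ} (h0 : 0 ≤ x) (h1 : x < 1) (hε : 0 < ε) (n : ℕ) :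
    ∃ m, n ≤ m ∧ x ^ m ≤ ε := by
  obtain ⟨m, hm⟩ := exists_pow_lt_of_lt_one hε h1
  exact ⟨n + m, by omega, (pow_le_pow_of_le_one h0 h1.le (by omega)).trans hm.le⟩

/-- closure lemma with one level -/
theorem closure_hn (h0 : 0 < ρ) (h1 : ρ < 1) (h3 : Three s) (o : s) {r : ℝ} (hr : 0 < r) (L : ℕ) :
    ∃ δ : ℝ, 0 < δ ∧ ∃ K, ∀ g ∈ Hn s (tI K), mr ρ (gm zr g) ≤ δ →
      Pa (fun _ _ k => L ≤ k) ρ r g := by
  obtain ⟨δ, ε, d0, e0, h⟩ := closure_lv (s := s) h0 h1 hr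
  have r0 : 0 < 1 - ρ := by linarith
  obtain ⟨σ, s1, s2⟩ := exists_pow_le h0.le h1 (mul_pos e0 r0) (L + 1)
  obtain ⟨N, hN⟩ := exists_lv h3 o (show 1 ≤ σ by omega)
  exact ⟨δ, d0, 6 * σ, fun g hg hn => (h N σ o hN ((div_le_iff₀ r0).2 s2) g
    (Hn_le_levels h3 N (fun i j => by have := hN.up i j; omega) hg) hn).mono_ok
      fun i j k hk => by have := hN.low i j; unfold okN at hk; omega⟩

section DS

variable {R : Type} [CommRing R] {p q : s}

/-- a matrix supported on two indices -/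
def m2 (p q : s) (a b c d : R) : Matrix s s R :=
  1 + single p p a + single p q b + single q p c + single q q d

theorem m2_mul (h : p ≠ q) (a b c d a' b' c' d' : R) : m2 p q a b c d * m2 p q a' b' c' d' =
    m2 p q (a + a' + a * a' + b * c') (b + b' + a * b' + b * d') (c + c' + c * a' + d * c')
      (d + d' + c * b' + d * d') := by
  simp [m2, mul_add, add_mul, h, h.symm, single_add]
  abel

/-- the word of Dennis and Stein -/
noncomputable def ds (p q : s) (a b u : R) : GL s R :=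
  xe q p (-(b * u)) * xe p q (-a) * xe q p b * xe p q (a * u)

theorem ds_val (h : p ≠ q) {a b u : R} (hu : u * (1 - a * b) = 1) :
    (ds p q a b u).val = m2 p q (-(a * b)) 0 0 (u - 1) := by
  have e1 : ∀ x : R, (xe p q x).val = m2 p q 0 x 0 0 := fun x => by simp [xe_val h, m2]
  have e2 : ∀ x : R, (xe q p x).val = m2 p q 0 0 x 0 := fun x => by simp [xe_val h.symm, m2]
  simp only [ds, Units.val_mul, e1, e2, m2_mul h]
  congr 1
  · ring
  · linear_combination a * hu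
  · linear_combination -b * hu
  · linear_combination -(a * b * u + 1) * hu

end DS

/-- the word that realises the basic symbol with deep letters -/
noncomputable def lam (p q : s) (k D : ℕ) : GL s ℤ[X] :=
  ds p q (X ^ (k / 2 + 1)) (X ^ (k - k / 2)) (∑ j ∈ Finset.range (D + 1), (X ^ (k + 1)) ^ j) *
    (ds p q (X ^ (k / 2)) (X ^ (k + 1 - k / 2)) (∑ j ∈ Finset.range (D + 1), (X ^ (k + 1)) ^ j))⁻¹

variable {p q : s}

theorem lam_Cn (h : p ≠ q) (k D : ℕ) : lam p q k D ∈ Cn s (tI D) := by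
  have e1 : (X : ℤ[X]) ^ (k / 2 + 1) * X ^ (k - k / 2) = X ^ (k + 1) := by
    rw [← pow_add]; congr 1; omega
  have e2 : (X : ℤ[X]) ^ (k / 2) * X ^ (k + 1 - k / 2) = X ^ (k + 1) := by
    rw [← pow_add]; congr 1; omega
  have hu : Ideal.Quotient.mk (tI D) (∑ j ∈ Finset.range (D + 1), (X ^ (k + 1)) ^ j) *
      (1 - Ideal.Quotient.mk (tI D) (X ^ (k + 1))) = 1 := by
    rw [← map_one (Ideal.Quotient.mk (tI D)), ← map_sub, ← map_mul, geom_sum_mul_neg,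
      Ideal.Quotient.eq, sub_sub_cancel_left, neg_mem_iff, mem_tI, ← pow_mul]
    exact pow_dvd_pow _ (by nlinarith)
  rw [mem_Cn_iff, lam, map_mul, map_inv, mul_inv_eq_one]
  simp only [ds, map_mul, gm_xe, map_neg]
  apply Units.ext
  refine (ds_val h ?_).trans (Eq.trans ?_ (ds_val h ?_).symm)
  · rwa [← map_mul _ (X ^ _), e1]
  · rw [← map_mul, ← map_mul, e1, e2]
  · rwa [← map_mul _ (X ^ _), e2]

theorem ds_sym (h3 : Three s) {Q : Type} [Group Q] {π : GL s ℤ[X] →* Q} {k : ℕ}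
    (hπ : ∀ i j, ∀ a ∈ tI (k + 1), π (xe i j a) = 1) (h : p ≠ q) (D : ℕ) {a b : ℕ}
    (e : b + a = k + 1) : π (ds p q (X ^ a) (X ^ b) (∑ j ∈ Finset.range (D + 1), (X ^ (k + 1)) ^ j)) =
      π (sy q p (X ^ k) X) ^ a := by
  have h1 : ∀ c : ℤ[X], c * ∑ j ∈ Finset.range (D + 1), (X ^ (k + 1)) ^ j - c ∈ tI (k + 1) :=
    fun c => mem_tI.2 ⟨c * ∑ j ∈ Finset.range D, (X ^ (k + 1)) ^ j, by rw [geom_sum_succ]; ring⟩
  have h2 : (X ^ b * X ^ a : ℤ[X]) ∈ tI (k + 1) := mem_tI.2 (by rw [← pow_add, e])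
  rw [← sy_pow h3 hπ h.symm (mem_tI.2 dvd_rfl) b a e, ← inv_inv (π (sy _ _ _ _)),
    ← sy_neg_right h3 hπ _ _ h2, ← sy_neg_left h3 hπ _ _ (by simpa using h2), ds, sy,
    commutatorElement_def, ← xe_neg, ← xe_neg, neg_neg, neg_neg]
  simp only [map_mul]
  rw [xe_congr hπ p q (h1 _), xe_congr hπ q p (b := -X ^ b) (by rw [← neg_sub']; exact neg_mem (h1 _))]

theorem lam_sym (h3 : Three s) {Q : Type} [Group Q] {π : GL s ℤ[X] →* Q} {k : ℕ}
    (hπ : ∀ i j, ∀ a ∈ tI (k + 1), π (xe i j a) = 1) (h : p ≠ q) (D : ℕ) :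
    π (lam p q k D) = π (sy q p (X ^ k) X) := by
  rw [lam, map_mul, map_inv, ds_sym h3 hπ h D (by omega), ds_sym h3 hπ h D (by omega), pow_succ',
    mul_inv_cancel_right]

/-- letters on the two main indices -/
def ok2 (p q : s) (ν : ℕ) (i j : s) (k : ℕ) : Prop := ((i = p ∨ i = q) ∧ (j = p ∨ j = q)) ∧ ν ≤ k

theorem ds_pa (h0 : 0 < ρ) (h1 : ρ < 1) {ν e a b : ℕ} (hν : ν ≤ e) (ha : e ≤ a) (hb : e ≤ b)
    (k D : ℕ) : Pa (ok2 p q ν) ρ (4 * (ρ ^ e / (1 - ρ)))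
      (ds p q (X ^ a) (X ^ b) (∑ j ∈ Finset.range D, (X ^ (k + 1)) ^ j)) ∧
    Pa (ok2 p q ν) ρ (4 * (ρ ^ e / (1 - ρ)))
      (ds p q (X ^ a) (X ^ b) (∑ j ∈ Finset.range D, (X ^ (k + 1)) ^ j))⁻¹ := by
  have r0 : 0 < 1 - ρ := by linarith
  have hu : nz ρ (∑ j ∈ Finset.range D, (X ^ (k + 1)) ^ j) ≤ 1 / (1 - ρ) := by
    induction D with
    | zero => simp [nz, h1.le]
    | succ D ih =>
      rw [geom_sum_succ]
      refine (nz_add _ _).trans ((add_le_add ((nz_mul _ _).trans (mul_le_mul (show _ ≤ ρ from ?_) ih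
        (nz_nonneg _) h0.le)) (le_of_eq (show _ = 1 by simp [nz, nm_one]))).trans (le_of_eq ?_))
      · rw [nz_X_pow h0.le]; exact pow_le_of_le_one h0.le h1.le (by omega)
      · field_simp; ring
  have l1 : ∀ i j, (i = p ∨ i = q) → (j = p ∨ j = q) → ∀ c, e ≤ c → ∀ u, nz ρ u ≤ 1 / (1 - ρ) →
      Pa (ok2 p q ν) ρ (ρ ^ e / (1 - ρ)) (xe i j (X ^ c * u)) ∧
      Pa (ok2 p q ν) ρ (ρ ^ e / (1 - ρ)) (xe i j (-(X ^ c * u))) := fun i j hi hj c hc u hu => by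
    have n1 : nz ρ (X ^ c * u) ≤ ρ ^ e / (1 - ρ) := by
      refine (nz_mul _ _).trans ?_
      rw [nz_X_pow h0.le, div_eq_mul_one_div]
      exact mul_le_mul (pow_le_pow_of_le_one h0.le h1.le hc) hu (nz_nonneg _) (by positivity)
    have d1 : X ^ ν ∣ X ^ c * u := (pow_dvd_pow X (hν.trans hc)).mul_right _
    exact ⟨(pa_xe fun k hk => ⟨⟨hi, hj⟩, not_lt.1 fun h => hk (X_pow_dvd_iff.1 d1 k h)⟩).mono n1,
      (pa_xe fun k hk => ⟨⟨hi, hj⟩, not_lt.1 fun h => hk (X_pow_dvd_iff.1 d1.neg_right k h)⟩).mono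
        ((nz_neg _).trans_le n1)⟩
  have u1 : nz ρ 1 ≤ 1 / (1 - ρ) := by
    rw [nz, map_one, nm_one, le_div_iff₀ r0]; linarith
  have a1 := l1 q p (.inr rfl) (.inl rfl) b hb _ hu
  have a2 := l1 p q (.inl rfl) (.inr rfl) a ha _ u1
  have a3 := l1 q p (.inr rfl) (.inl rfl) b hb _ u1
  have a4 := l1 p q (.inl rfl) (.inr rfl) a ha _ hu
  rw [mul_one] at a2 a3
  refine ⟨(((a1.2.mul a2.2).mul a3.1).mul a4.1).mono (le_of_eq (by ring)), ?_⟩
  simp only [ds, _root_.mul_inv_rev, ← xe_neg, neg_neg]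
  exact (a4.2.mul (a3.2.mul (a2.1.mul a1.1))).mono (le_of_eq (by ring))

/-- the cost of the layer `k` -/
noncomputable def cost (ρ : ℝ) (k : ℕ) : ℝ := (k + 1) * (8 * (ρ ^ (k / 2) / (1 - ρ)))

theorem lam_pa (h0 : 0 < ρ) (h1 : ρ < 1) {ν k n : ℕ} (hν : ν ≤ k / 2) (hn : n ≤ k + 1) (D : ℕ) :
    Pa (ok2 p q ν) ρ (cost ρ k) (lam p q k D ^ n) ∧
      Pa (ok2 p q ν) ρ (cost ρ k) (lam p q k D ^ n)⁻¹ := by
  have a1 := ds_pa (p := p) (q := q) (a := k / 2 + 1) (b := k - k / 2) h0 h1 hν (by omega)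
    (by omega) k (D + 1)
  have a2 := ds_pa (p := p) (q := q) (a := k / 2) (b := k + 1 - k / 2) h0 h1 hν (by omega)
    (by omega) k (D + 1)
  have e : n * (4 * (ρ ^ (k / 2) / (1 - ρ)) + 4 * (ρ ^ (k / 2) / (1 - ρ))) ≤ cost ρ k :=
    mul_le_mul (by exact_mod_cast hn) (le_of_eq (by ring)) (add_nonneg a1.1.1 a1.1.1) (by positivity)
  refine ⟨((a1.1.mul a2.2).pow n).mono e, ?_⟩
  rw [← inv_pow, lam, _root_.mul_inv_rev, inv_inv]
  exact ((a2.1.mul a1.2).pow n).mono e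

theorem cost_nonneg (h0 : 0 < ρ) (h1 : ρ < 1) (k : ℕ) : 0 ≤ cost ρ k := by
  have : 0 < 1 - ρ := by linarith
  unfold cost; positivity

theorem summable_cost (h0 : 0 < ρ) (h1 : ρ < 1) : Summable (cost ρ) := by
  have r0 : 0 < 1 - ρ := by linarith
  have t0 := Real.sqrt_pos.2 h0
  have t1 : √ρ < 1 := by rwa [Real.sqrt_lt' one_pos, one_pow]
  have s1 := summable_pow_mul_geometric_of_norm_lt_one (R := ℝ) 1 (r := √ρ)
    (by rwa [Real.norm_of_nonneg t0.le])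
  refine Summable.of_nonneg_of_le (cost_nonneg h0 h1) (fun k => ?_)
    ((s1.add (summable_geometric_of_lt_one t0.le t1)).mul_right (8 / (√ρ * (1 - ρ))))
  have e : ρ ^ (k / 2) * √ρ ≤ √ρ ^ k := by
    conv_lhs => rw [← Real.sq_sqrt h0.le, ← pow_mul, Real.sqrt_sq t0.le, ← pow_succ]
    exact pow_le_pow_of_le_one t0.le t1.le (by omega)
  rw [cost, pow_one, ← add_one_mul, mul_assoc]
  refine mul_le_mul_of_nonneg_left ?_ (by positivity)
  rw [← le_div_iff₀ t0] at e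
  calc _ ≤ 8 * (√ρ ^ k / √ρ / (1 - ρ)) := by gcongr
    _ = _ := by field_simp

theorem exists_lam (h3 : Three s) (h : p ≠ q) {ρ' : ℝ} (h0 : 0 < ρ) (h1 : ρ < 1) (h0' : 0 < ρ')
    (h1' : ρ' < 1) {ν D : ℕ} (hν : 1 ≤ ν) {g : GL s ℤ[X]} (g1 : g ∈ Hn s (tI ν))
    (g2 : g ∈ Cn s (tI D)) (j : ℕ) (hj : ν + j ≤ D) : ∃ l,
      Pa (ok2 p q (ν / 2)) ρ (∑ k ∈ Finset.Ico ν (ν + j), cost ρ k) l ∧
      el ρ' l⁻¹ ≤ ∑ k ∈ Finset.Ico ν (ν + j), cost ρ' k ∧ l ∈ Cn s (tI D) ∧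
      l⁻¹ * g ∈ Hn s (tI (ν + j)) := by
  induction j with
  | zero => exact ⟨1, by simpa using Pa.one le_rfl, by simp [el_one], one_mem _, by simpa⟩
  | succ j ih =>
    obtain ⟨l, a1, a2, a3, a4⟩ := ih (by omega)
    obtain ⟨n, hn⟩ := lemmaK h3 (by omega) h.symm a4
      (Cn_mono (tI_anti hj) (mul_mem (inv_mem a3) g2))
    have k0 : (0 : ℤ) < ((ν + j + 1 : ℕ) : ℤ) := by positivity
    obtain ⟨m, hm⟩ := Int.eq_ofNat_of_zero_le (Int.emod_nonneg n k0.ne')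
    have m1 : m ≤ ν + j + 1 := by have := Int.emod_lt_of_pos n k0; omega
    have d1 : ν / 2 ≤ (ν + j) / 2 := by omega
    refine ⟨l * lam p q (ν + j) D ^ m, ?_, ?_, mul_mem a3 (pow_mem (lam_Cn h _ _) _), ?_⟩
    · rw [← add_assoc, Finset.sum_Ico_succ_top (by omega)]
      exact a1.mul (lam_pa h0 h1 d1 m1 D).1
    · rw [← add_assoc, Finset.sum_Ico_succ_top (by omega), _root_.mul_inv_rev]
      exact (el_mul _ _).trans ((add_le_add (lam_pa (p := p) (q := q) h0' h1' d1 m1 D).2.el_le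
        a2).trans (add_comm _ _).le)
    · rw [← add_assoc, _root_.mul_inv_rev, mul_assoc, ← QuotientGroup.eq]
      refine Eq.trans ?_ (QuotientGroup.eq.2 hn)
      change QuotientGroup.mk' _ _ = QuotientGroup.mk' _ _
      rw [map_pow, map_zpow, lam_sym h3 (mk_xe _) h, ← zpow_natCast, ← hm,
        ← zpow_eq_zpow_emod' n (sy_pow_order h3 (mk_xe _) h.symm (mem_tI.2 dvd_rfl))]

theorem Rch.transfer {ok : s → s → ℕ → Prop} {S : Subgroup (GL s ℤ[X])}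
    (hS : ∀ i j k, ok i j k → xe i j (X ^ k) ∈ S) {τ : ℝ} {P : GL s ℤ[X] → Prop} {c g : GL s ℤ[X]}
    (hP : ∀ x ∈ S, el ρ x ≤ τ → P (x * c)) (h : Rch ok ρ τ 1 g) :
    g ∈ S ∧ ReflTransGen (fun x y => P x ∧ P y ∧ Mv (fun _ _ _ => True) x y) c (g * c) := by
  induction h with
  | refl => exact ⟨one_mem _, by rw [one_mul]⟩
  | tail _ h ih =>
    have h2 := h.2.2.mem hS ih.1
    obtain ⟨i, j, k, -, e⟩ := h.2.2.right c
    exact ⟨h2, ih.2.tail ⟨hP _ ih.1 h.1, hP _ h2 h.2.1, i, j, k, trivial, e⟩⟩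

/-- the region in which the path stays -/
def Reg (ρ r r₁ : ℝ) (p q : s) (ν L : ℕ) (h : GL s ℤ[X]) : Prop :=
  ∀ i j, if (i = p ∨ i = q) ∧ (j = p ∨ j = q) then
    X ^ ν ∣ (h.val - 1) i j ∧ nz ρ ((h.val - 1) i j) ≤ r
  else X ^ L ∣ (h.val - 1) i j ∧ nz ρ ((h.val - 1) i j) ≤ r₁

theorem mr_eq (g : GL s ℤ[X]) : mr ρ (gm zr g) = ∑ i, ∑ j, nz ρ ((g.val - 1) i j) := by
  simp only [mr, mnS_def, gm_sub_one, nz]

/-- the local lemma -/
theorem loc (h0 : 0 < ρ) (h1 : ρ < 1) {r : ℝ} (hr : 0 < r) : ∃ ν0 : ℕ, ∀ ν ≥ ν0,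
    ∀ (s : Type) [Fintype s] [DecidableEq s], Three s → ∀ p q : s, p ≠ q → ∀ r₁ : ℝ, 0 < r₁ →
      ∀ L : ℕ, ∃ δ : ℝ, 0 < δ ∧ ∃ L₁ : ℕ, ∀ g ∈ Hn s (tI ν), g ∈ Cn s (tI L₁) →
        ∑ i, ∑ j, nz ρ ((g.val - 1) i j) ≤ δ →
        ReflTransGen (fun x y => Reg ρ r r₁ p q (ν / 2) L x ∧ Reg ρ r r₁ p q (ν / 2) L y ∧
          Mv (fun _ _ _ => True) x y) 1 g := by
  obtain ⟨a, a0, a1, a2⟩ : ∃ a, 0 < a ∧ a ≤ r / 4 ∧ a ≤ 1 / 2 :=
    ⟨min (r / 4) (1 / 2), by positivity, min_le_left _ _, min_le_right _ _⟩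
  obtain ⟨T, hT⟩ := summable_iff_vanishing_norm.1 (summable_cost h0 h1) a a0
  refine ⟨T.sup id + 1, fun ν hν s _ _ h3 p q hpq r₁ r1 L => ?_⟩
  obtain ⟨b, b0, b1, b2⟩ : ∃ b, 0 < b ∧ b ≤ a ∧ b ≤ r₁ / 4 :=
    ⟨min a (r₁ / 4), by positivity, min_le_left _ _, min_le_right _ _⟩
  obtain ⟨δ, d0, K, hK⟩ := closure_hn h0 h1 h3 p b0 (L + ν / 2)
  have h0' : 0 < (1 + ρ) / 2 := by linarith
  have h1' : (1 + ρ) / 2 < 1 := by linarith
  have h2' : ρ < (1 + ρ) / 2 := by linarith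
  set ρ' := (1 + ρ) / 2
  obtain ⟨D, D1, D2⟩ := exists_pow_le (div_pos h0 h0').le ((div_lt_one h0').2 h2')
    (show 0 < δ / 3 / Real.exp (∑' k, cost ρ' k) by positivity) (ν + K)
  refine ⟨min (δ / 3) 1, by positivity, D, fun g g1 g2 g3 => ?_⟩
  obtain ⟨l, l1, l2, l3, l4⟩ := exists_lam h3 hpq h0 h1 h0' h1' (by omega) g1 g2 K D1
  have l5 : ∑ k ∈ Finset.Ico ν (ν + K), cost ρ k ≤ a := by
    refine (le_abs_self _).trans (hT _ (Finset.disjoint_left.2 fun k hk hk' => ?_)).le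
    have := Finset.le_sup (f := id) hk'
    have := (Finset.mem_Ico.1 hk).1
    simp only [id] at *
    omega
  have l6 : mr ρ (gm zr l⁻¹) ≤ δ / 3 := by
    have e1 := mr_le_of_el (l2.trans ((summable_cost h0' h1').sum_le_tsum _
      fun k _ => cost_nonneg h0' h1' k))
    have e2 : mr ρ (gm zr l⁻¹) ≤ (ρ / ρ') ^ D * mr ρ' (gm zr l⁻¹) := by
      rw [mr_eq, mr_eq, Finset.mul_sum]
      refine Finset.sum_le_sum fun i _ => ?_
      rw [Finset.mul_sum]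
      exact Finset.sum_le_sum fun j _ =>
        nm_deep h0 h2'.le (zr_dvd (mem_tI.1 (mem_Cn.1 (inv_mem l3) i j)))
    rw [le_div_iff₀ (Real.exp_pos _)] at D2
    exact e2.trans ((mul_le_mul_of_nonneg_left (by linarith) (by positivity)).trans D2)
  have p1 := hK _ (Hn_mono (tI_anti (Nat.le_add_left K ν)) l4) (by
    rw [← mr_eq] at g3
    have e1 := (mr_mul _ _).trans (mul_le_mul (add_le_add le_rfl l6) (add_le_add le_rfl g3)
      (add_nonneg zero_le_one (mr_nonneg _)) (by linarith))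
    rw [map_mul]
    nlinarith [min_le_left (δ / 3) 1, min_le_right (δ / 3) 1])
  let I2 : s → s → Ideal ℤ[X] := fun i j =>
    if (i = p ∨ i = q) ∧ (j = p ∨ j = q) then tI (ν / 2) else ⊥
  have hI : ∀ i l j, ∀ a ∈ I2 i l, ∀ b ∈ I2 l j, a * b ∈ I2 i j := fun i l j a ha b hb => by
    by_cases c1 : (i = p ∨ i = q) ∧ (l = p ∨ l = q)
    · by_cases c2 : (l = p ∨ l = q) ∧ (j = p ∨ j = q)
      · simp only [I2, if_pos c1, if_pos (And.intro c1.1 c2.2)] at ha ⊢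
        exact Ideal.mul_mem_right _ _ ha
      · simp only [I2, if_neg c2, Ideal.mem_bot] at hb
        rw [hb, mul_zero]; exact zero_mem _
    · simp only [I2, if_neg c1, Ideal.mem_bot] at ha
      rw [ha, zero_mul]; exact zero_mem _
  have reg : ∀ h ∈ Fl I2, el ρ h ≤ a → ∀ x ∈ Fl fun _ _ => tI (L + ν / 2), el ρ x ≤ b →
      Reg ρ r r₁ p q (ν / 2) L (h * x) := fun h hh e1 x hx e2 i j => by
    have f1 := Fl_entry hI hh i j
    have f2 := Fl_entry (I := fun _ _ => tI (L + ν / 2))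
      (fun _ _ _ _ ha _ _ => Ideal.mul_mem_right _ _ ha) hx
    have f3 : (h * x).val - 1 = (h.val - 1) + h.val * (x.val - 1) := by
      rw [Units.val_mul]; noncomm_ring
    have f4 : (h.val * (x.val - 1)) i j ∈ tI (L + ν / 2) := by
      rw [mul_apply]; exact sum_mem fun _ _ => Ideal.mul_mem_left _ _ (f2 _ _)
    simp only [I2] at f1
    split_ifs at f1 ⊢ with c
    · refine ⟨f3 ▸ dvd_add (mem_tI.1 f1) (mem_tI.1 (tI_anti (by omega) f4)), ?_⟩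
      rw [nz, ← gm_sub_one]
      exact (nm_le_mn _ _ _).trans ((mr_le_two ((el_mul _ _).trans (add_le_add e1 e2))
        (by linarith)).trans (by linarith))
    · rw [f3, Matrix.add_apply, Ideal.mem_bot.1 f1, zero_add]
      refine ⟨mem_tI.1 (tI_anti (by omega) f4), ?_⟩
      have f5 : zr ((h.val * (x.val - 1)) i j) = ((gm zr h).val * ((gm zr x).val - 1)) i j := by
        simp only [mul_apply, map_sum, map_mul, gm_sub_one]; rfl
      rw [nz, f5]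
      have q1 := mr_le_two e1 (a2.trans (by norm_num))
      have q2 := mr_le_two e2 (by linarith)
      unfold mr at q1 q2
      have q3 := mul_le_mul (show 1 + mnS s ρ ((gm zr h).val - 1) ≤ 2 by linarith) q2
        (apply_nonneg _ _) zero_le_two
      exact (nm_le_mn _ _ _).trans ((sn_left _ _ _).trans (by linarith))
  obtain ⟨m1, t1⟩ := Rch.transfer (P := Reg ρ r r₁ p q (ν / 2) L) (c := 1)
    (S := Fl fun _ _ => tI (L + ν / 2)) (fun i j k hk => xe_mem_Fl (mem_tI.2 (pow_dvd_pow X hk)))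
    (fun x hx e => by simpa using reg 1 (one_mem _) (by rw [el_one]; exact a0.le) x hx e) p1.2
  obtain ⟨-, t2⟩ := Rch.transfer (P := Reg ρ r r₁ p q (ν / 2) L) (c := l⁻¹ * g) (S := Fl I2)
    (fun i j k hk => xe_mem_Fl (by
      simp only [I2, if_pos hk.1]; exact mem_tI.2 (pow_dvd_pow X hk.2)))
    (fun x hx e => reg x hx e _ m1 p1.el_le) (l1.mono l5).2
  rw [mul_one] at t1
  rw [mul_inv_cancel_left] at t2
  exact t1.trans t2

end Pool.Agent.MP_993212_an.H15
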