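import Pool.Agent.MP_993212_an.H15.KStab

/-! Weighted coefficient norms on real polynomials and polynomial matrices. -/

set_option linter.unusedSectionVars false

namespace Pool.Agent.MP_993212_an.H15

open Matrix Polynomial

section Gen

variable {A : Type} [Ring A] (f : RingSeminorm A)

theorem sn_sum {ι : Type} (T : Finset ι) (a : ι → A) : f (∑ i ∈ T, a i) ≤ ∑ i ∈ T, f (a i) :=
  Finset.le_sum_of_subadditive f (map_zero f).le (map_add_le_add f) T a

theorem sn_mul_one (a b : A) : 1 + f (a * b - 1) ≤ (1 + f (a - 1)) * (1 + f (b - 1)) := by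
  have e : a * b - 1 = (a - 1) + (b - 1) + (a - 1) * (b - 1) := by noncomm_ring
  have h1 := map_add_le_add f ((a - 1) + (b - 1)) ((a - 1) * (b - 1))
  have h2 := map_add_le_add f (a - 1) (b - 1)
  have h3 := map_mul_le_mul f (a - 1) (b - 1)
  rw [e]
  linarith

theorem sn_left (a y : A) : f (a * y) ≤ (1 + f (a - 1)) * f y := by
  have e : a * y = y + (a - 1) * y := by noncomm_ring
  have h1 := map_add_le_add f y ((a - 1) * y)
  have h3 := map_mul_le_mul f (a - 1) y
  rw [e]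
  linarith

theorem sn_right (y a : A) : f (y * a) ≤ f y * (1 + f (a - 1)) := by
  have e : y * a = y + y * (a - 1) := by noncomm_ring
  have h1 := map_add_le_add f y (y * (a - 1))
  have h3 := map_mul_le_mul f y (a - 1)
  rw [e]
  linarith

theorem sn_inv {a b : A} (h : a * b = 1) (h2 : f (a - 1) ≤ 1 / 2) : f (b - 1) ≤ 2 * f (a - 1) := by
  have e : b - 1 = -((a - 1) * b) := by rw [sub_mul, h]; noncomm_ring
  have h1 := sn_right f (a - 1) b
  rw [← map_neg_eq_map f, ← e] at h1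
  nlinarith [apply_nonneg f (b - 1), apply_nonneg f (a - 1)]

theorem sn_prod {ι : Type} (l : List ι) (a : ι → A) :
    1 + f ((l.map a).prod - 1) ≤ Real.exp (l.map fun i => f (a i - 1)).sum ∧
      f ((l.map a).prod - 1 - (l.map fun i => a i - 1).sum) ≤
        Real.exp (l.map fun i => f (a i - 1)).sum - 1 - (l.map fun i => f (a i - 1)).sum := by
  induction l with
  | nil => simp
  | cons i l ih =>
    simp only [List.map_cons, List.prod_cons, List.sum_cons, Real.exp_add]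
    have h1 := Real.add_one_le_exp (f (a i - 1))
    have h0 := apply_nonneg f (a i - 1)
    have h2 := Real.exp_pos (l.map fun i => f (a i - 1)).sum
    refine ⟨(sn_mul_one f _ _).trans (mul_le_mul (by linarith) ih.1 (by positivity)
      (by positivity)), ?_⟩
    have e : a i * (l.map a).prod - 1 - (a i - 1 + (l.map fun i => a i - 1).sum) =
        ((l.map a).prod - 1 - (l.map fun i => a i - 1).sum) + (a i - 1) * ((l.map a).prod - 1) := by
      noncomm_ring
    have h3 := map_mul_le_mul f (a i - 1) ((l.map a).prod - 1)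
    rw [e]
    refine (map_add_le_add f _ _).trans ?_
    nlinarith [ih.1, ih.2, mul_le_mul_of_nonneg_left ih.1 h0, mul_le_mul_of_nonneg_right h1 h2.le]

theorem sn_prod2 {ι : Type} (l : List ι) (a : ι → A) {S : ℝ}
    (h : (l.map fun i => f (a i - 1)).sum ≤ S) (h1 : S ≤ 1) :
    f ((l.map a).prod - 1) ≤ 2 * S ∧
      f ((l.map a).prod - 1 - (l.map fun i => a i - 1).sum) ≤ S ^ 2 := by
  obtain ⟨h2, h3⟩ := sn_prod f l a
  set T := (l.map fun i => f (a i - 1)).sum
  have h0 : 0 ≤ T := List.sum_nonneg fun x hx => by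
    obtain ⟨i, -, rfl⟩ := List.mem_map.1 hx
    exact apply_nonneg f _
  have h4 := (le_abs_self _).trans
    (Real.abs_exp_sub_one_sub_id_le (x := T) (by rw [abs_of_nonneg h0]; linarith))
  constructor <;> nlinarith

end Gen

/-- the weighted sum of the absolute values of the coefficients -/
noncomputable def nm (ρ : ℝ) (p : ℝ[X]) : ℝ := ∑ k ∈ p.support, |p.coeff k * ρ ^ k|

variable {ρ : ℝ}

theorem nm_eq {p : ℝ[X]} {T : Finset ℕ} (h : p.support ⊆ T) :
    nm ρ p = ∑ k ∈ T, |p.coeff k * ρ ^ k| :=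
  Finset.sum_subset h fun k _ hk => by simp [notMem_support_iff.1 hk]

theorem nm_range {p : ℝ[X]} {n : ℕ} (h : p.natDegree < n) :
    nm ρ p = ∑ k ∈ Finset.range n, |p.coeff k * ρ ^ k| :=
  nm_eq (supp_subset_range h)

theorem nm_nonneg (p : ℝ[X]) : 0 ≤ nm ρ p := Finset.sum_nonneg fun _ _ => abs_nonneg _

@[simp] theorem nm_zero : nm ρ 0 = 0 := by simp [nm]

theorem nm_neg (p : ℝ[X]) : nm ρ (-p) = nm ρ p := by simp [nm]

theorem nm_add (p q : ℝ[X]) : nm ρ (p + q) ≤ nm ρ p + nm ρ q := by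
  rw [nm_eq (support_add (p := p) (q := q)), nm_eq (Finset.subset_union_left (s₂ := q.support)),
    nm_eq (p := q) (Finset.subset_union_right (s₁ := p.support)), ← Finset.sum_add_distrib]
  exact Finset.sum_le_sum fun k _ => by rw [coeff_add, add_mul]; exact abs_add_le _ _

theorem nm_C_mul (c : ℝ) (p : ℝ[X]) : nm ρ (C c * p) = |c| * nm ρ p := by
  rw [nm_eq (T := p.support) (fun k hk => by
    rw [mem_support_iff, coeff_C_mul] at hk
    exact mem_support_iff.2 (right_ne_zero_of_mul hk)), nm, Finset.mul_sum]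
  exact Finset.sum_congr rfl fun k _ => by rw [coeff_C_mul, mul_assoc, abs_mul]

theorem nm_X_mul (p : ℝ[X]) : nm ρ (X * p) = |ρ| * nm ρ p := by
  have h : (X * p).natDegree < p.natDegree + 1 + 1 :=
    natDegree_mul_le.trans_lt (by have := natDegree_X_le (R := ℝ); omega)
  rw [nm_range h, Finset.sum_range_succ', nm_range (Nat.lt_succ_self _), Finset.mul_sum]
  simp only [coeff_X_mul, mul_coeff_zero, coeff_X_zero, zero_mul, abs_zero, add_zero]
  exact Finset.sum_congr rfl fun k _ => by rw [← abs_mul]; congr 1; ring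

theorem nm_X_pow_mul (k : ℕ) (p : ℝ[X]) : nm ρ (X ^ k * p) = |ρ| ^ k * nm ρ p := by
  induction k with
  | zero => simp
  | succ k ih => rw [pow_succ', mul_assoc, nm_X_mul, ih, pow_succ', mul_assoc]

theorem nm_one : nm ρ 1 = 1 := by
  rw [nm_range (n := 1) (by simp)]; simp

theorem nm_X_pow (k : ℕ) : nm ρ (X ^ k) = |ρ| ^ k := by
  simpa [nm_one] using nm_X_pow_mul (ρ := ρ) k 1

theorem nm_sum {ι : Type} (T : Finset ι) (a : ι → ℝ[X]) :
    nm ρ (∑ i ∈ T, a i) ≤ ∑ i ∈ T, nm ρ (a i) :=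
  Finset.le_sum_of_subadditive (nm ρ) nm_zero.le nm_add T a

theorem nm_mul (p q : ℝ[X]) : nm ρ (p * q) ≤ nm ρ p * nm ρ q := by
  conv_lhs => rw [p.as_sum_support_C_mul_X_pow, Finset.sum_mul]
  refine (nm_sum _ _).trans (le_of_eq ?_)
  rw [nm.eq_1 ρ p, Finset.sum_mul]
  exact Finset.sum_congr rfl fun k _ => by
    rw [mul_assoc, nm_C_mul, nm_X_pow_mul, abs_mul, abs_pow, mul_assoc]

/-- the norm as a ring seminorm -/
noncomputable def nmS (ρ : ℝ) : RingSeminorm ℝ[X] where
  toFun := nm ρ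
  map_zero' := nm_zero
  add_le' := nm_add
  neg' := nm_neg
  mul_le' := nm_mul

@[simp] theorem nmS_apply (p : ℝ[X]) : nmS ρ p = nm ρ p := rfl

theorem nm_sub (p q : ℝ[X]) : nm ρ (p - q) ≤ nm ρ p + nm ρ q := by
  rw [sub_eq_add_neg, ← nm_neg q]; exact nm_add _ _

theorem nm_le_of_coeff (h0 : 0 ≤ ρ) (h1 : ρ < 1) {p : ℝ[X]} {L : ℕ} {c : ℝ} (hL : X ^ L ∣ p)
    (hc : ∀ k, |p.coeff k| ≤ c) : nm ρ p ≤ c * ρ ^ L / (1 - ρ) := by
  obtain ⟨q, rfl⟩ := hL
  have hq : ∀ k, |q.coeff k| ≤ c := fun k => by simpa [coeff_X_pow_mul] using hc (k + L)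
  have c0 : 0 ≤ c := (abs_nonneg _).trans (hq 0)
  have h2 : nm ρ q ≤ c * (1 - ρ)⁻¹ := by
    rw [← tsum_geometric_of_lt_one h0 h1]
    refine le_trans ?_ (mul_le_mul_of_nonneg_left ((summable_geometric_of_lt_one h0 h1).sum_le_tsum
      q.support fun k _ => pow_nonneg h0 k) c0)
    rw [nm, Finset.mul_sum]
    refine Finset.sum_le_sum fun k _ => ?_
    rw [abs_mul, abs_of_nonneg (pow_nonneg h0 k)]
    exact mul_le_mul_of_nonneg_right (hq k) (pow_nonneg h0 k)
  rw [nm_X_pow_mul, abs_of_nonneg h0, div_eq_mul_inv, mul_comm c, mul_assoc]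
  exact mul_le_mul_of_nonneg_left h2 (pow_nonneg h0 L)

theorem nm_mono {ρ' : ℝ} (h0 : 0 ≤ ρ) (h : ρ ≤ ρ') (p : ℝ[X]) : nm ρ p ≤ nm ρ' p :=
  Finset.sum_le_sum fun k _ => by
    rw [abs_mul, abs_mul, abs_of_nonneg (pow_nonneg h0 k), abs_of_nonneg (pow_nonneg (h0.trans h) k)]
    exact mul_le_mul_of_nonneg_left (pow_le_pow_left₀ h0 h k) (abs_nonneg _)

theorem nm_deep {ρ' : ℝ} (h0 : 0 < ρ) (h : ρ ≤ ρ') {p : ℝ[X]} {L : ℕ} (hL : X ^ L ∣ p) :
    nm ρ p ≤ (ρ / ρ') ^ L * nm ρ' p := by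
  obtain ⟨q, rfl⟩ := hL
  have h1 := h0.trans_le h
  rw [nm_X_pow_mul, nm_X_pow_mul, abs_of_pos h0, abs_of_pos h1, ← mul_assoc, ← mul_pow,
    div_mul_cancel₀ _ h1.ne']
  exact mul_le_mul_of_nonneg_left (nm_mono h0.le h q) (by positivity)

variable {s : Type} [Fintype s] [DecidableEq s]

/-- the total norm of a matrix -/
noncomputable def mnS (s : Type) [Fintype s] [DecidableEq s] (ρ : ℝ) :
    RingSeminorm (Matrix s s ℝ[X]) where
  toFun A := ∑ i, ∑ j, nm ρ (A i j)
  map_zero' := by simp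
  add_le' A B := by
    rw [← Finset.sum_add_distrib]
    refine Finset.sum_le_sum fun i _ => ?_
    rw [← Finset.sum_add_distrib]
    exact Finset.sum_le_sum fun j _ => nm_add _ _
  neg' A := by simp [nm_neg]
  mul_le' A B := by
    rw [Finset.sum_mul]
    refine Finset.sum_le_sum fun i _ => ?_
    calc ∑ j, nm ρ ((A * B) i j) ≤ ∑ j, ∑ l, nm ρ (A i l) * nm ρ (B l j) :=
          Finset.sum_le_sum fun j _ => (nm_sum _ _).trans (Finset.sum_le_sum fun l _ => nm_mul _ _)
      _ = ∑ l, nm ρ (A i l) * ∑ j, nm ρ (B l j) := by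
          rw [Finset.sum_comm]; simp only [Finset.mul_sum]
      _ ≤ _ := by
          rw [Finset.sum_mul]
          refine Finset.sum_le_sum fun l _ => mul_le_mul_of_nonneg_left ?_ (nm_nonneg _)
          exact Finset.single_le_sum (f := fun l => ∑ j, nm ρ (B l j))
            (fun _ _ => Finset.sum_nonneg fun _ _ => nm_nonneg _) (Finset.mem_univ l)

theorem mnS_def (A : Matrix s s ℝ[X]) : mnS s ρ A = ∑ i, ∑ j, nm ρ (A i j) := rfl

theorem nm_le_mn (A : Matrix s s ℝ[X]) (i j : s) : nm ρ (A i j) ≤ mnS s ρ A :=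
  (Finset.single_le_sum (f := fun j => nm ρ (A i j)) (fun _ _ => nm_nonneg _)
    (Finset.mem_univ j)).trans (Finset.single_le_sum (f := fun l => ∑ j, nm ρ (A l j))
      (fun _ _ => Finset.sum_nonneg fun _ _ => nm_nonneg _) (Finset.mem_univ i))

theorem mn_single (i j : s) (a : ℝ[X]) : mnS s ρ (single i j a) = nm ρ a := by
  rw [mnS_def, Finset.sum_eq_single i (fun c _ h => by simp [h.symm]) (by simp),
    Finset.sum_eq_single j (fun c _ h => by simp [h.symm]) (by simp)]
  simp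

/-- the trace of a small perturbation with determinant one is of second order -/
theorem nm_trace {ξ : Matrix s s ℝ[X]} (h : (1 + ξ).det = 1) (h1 : mnS s ρ ξ ≤ 1) :
    nm ρ ξ.trace ≤ ((Fintype.card s).factorial * 2 ^ Fintype.card s + 1) * mnS s ρ ξ ^ 2 := by
  set R := mnS s ρ ξ with hR
  have R0 : 0 ≤ R := apply_nonneg _ _
  have hd : nm ρ (∏ i, (1 + ξ) i i - 1 - ξ.trace) ≤ R ^ 2 := by
    have := (sn_prod2 (nmS ρ) Finset.univ.toList (fun i => (1 + ξ) i i) (S := R) ?_ h1).2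
    · simpa [trace] using this
    · rw [Finset.sum_map_toList]
      exact Finset.sum_le_sum fun i _ => by
        simpa using Finset.single_le_sum (f := fun j => nm ρ (ξ i j)) (fun _ _ => nm_nonneg _)
          (Finset.mem_univ i)
  have hp : ∀ (σ : Equiv.Perm s) (T : Finset s), nm ρ (∏ i ∈ T, (1 + ξ) (σ i) i) ≤ 2 ^ T.card := by
    intro σ T
    induction T using Finset.induction_on with
    | empty => simp [nm_one]
    | insert i T hi ih =>
      rw [Finset.prod_insert hi, Finset.card_insert_of_notMem hi, pow_succ']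
      refine (nm_mul _ _).trans (mul_le_mul ?_ ih (nm_nonneg _) (by norm_num))
      rw [Matrix.add_apply]
      refine (nm_add _ _).trans ?_
      have := nm_le_mn (ρ := ρ) ξ (σ i) i
      rw [one_apply]
      split_ifs
      · rw [nm_one]; linarith
      · rw [nm_zero]; linarith
  have ho : ∀ σ : Equiv.Perm s, σ ≠ 1 →
      nm ρ (Equiv.Perm.sign σ • ∏ i, (1 + ξ) (σ i) i) ≤ 2 ^ Fintype.card s * R ^ 2 := by
    intro σ hσ
    obtain ⟨a, ha⟩ : ∃ a, σ a ≠ a := by
      by_contra h2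
      exact hσ (Equiv.ext fun a => by simpa using fun h3 => h2 ⟨a, h3⟩)
    have hb : σ (σ a) ≠ σ a := σ.injective.ne ha
    have e : nm ρ (Equiv.Perm.sign σ • ∏ i, (1 + ξ) (σ i) i) = nm ρ (∏ i, (1 + ξ) (σ i) i) := by
      rcases Int.units_eq_one_or (Equiv.Perm.sign σ) with h2 | h2 <;> simp [h2, nm_neg]
    rw [e, ← Finset.mul_prod_erase _ _ (Finset.mem_univ a), ← Finset.mul_prod_erase _ _
      (Finset.mem_erase.2 ⟨ha, Finset.mem_univ _⟩)]
    have h2 := (hp σ ((Finset.univ.erase a).erase (σ a))).trans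
      (pow_le_pow_right₀ (by norm_num : (1 : ℝ) ≤ 2) (Finset.card_le_univ _))
    simp only [Matrix.add_apply, one_apply_ne ha, one_apply_ne hb, zero_add] at h2 ⊢
    refine (nm_mul _ _).trans ((mul_le_mul (nm_le_mn _ _ _) ((nm_mul _ _).trans
      (mul_le_mul (nm_le_mn _ _ _) h2 (nm_nonneg _) R0)) (nm_nonneg _) R0).trans (le_of_eq ?_))
    ring
  rw [det_apply, ← Finset.add_sum_erase _ _ (Finset.mem_univ 1)] at h
  simp only [Equiv.Perm.sign_one, one_smul, Equiv.Perm.coe_one, id] at h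
  have e : ξ.trace = -((∏ i, (1 + ξ) i i - 1 - ξ.trace) +
      ∑ σ ∈ Finset.univ.erase (1 : Equiv.Perm s), Equiv.Perm.sign σ • ∏ i, (1 + ξ) (σ i) i) := by
    linear_combination h
  rw [e, nm_neg]
  refine (nm_add _ _).trans ?_
  have h3 := (nm_sum (ρ := ρ) _ _).trans (Finset.sum_le_card_nsmul _ _ _ fun σ hσ =>
    ho σ (Finset.ne_of_mem_erase (s := Finset.univ) hσ))
  have h4 : ((Finset.univ.erase (1 : Equiv.Perm s)).card : ℝ) ≤ (Fintype.card s).factorial := by
    rw [← Fintype.card_perm]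
    exact_mod_cast Finset.card_le_univ _
  rw [nsmul_eq_mul] at h3
  have h5 := mul_le_mul_of_nonneg_right h4 (show 0 ≤ 2 ^ Fintype.card s * R ^ 2 by positivity)
  linarith

end Pool.Agent.MP_993212_an.H15
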