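import Pool.Agent.MP_993212_an.H15.LNorm

/-! Monomial paths with norm control. -/

set_option linter.unusedSectionVars false

namespace Pool.Agent.MP_993212_an.H15

open Matrix Polynomial Relation

/-- integral polynomials as real polynomials -/
noncomputable def zr : ℤ[X] →+* ℝ[X] := mapRingHom (Int.castRingHom ℝ)

/-- the norm of an integral polynomial -/
noncomputable def nz (ρ : ℝ) (a : ℤ[X]) : ℝ := nm ρ (zr a)

variable {ρ : ℝ} {s : Type} [Fintype s] [DecidableEq s]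

theorem zr_coeff (a : ℤ[X]) (k : ℕ) : (zr a).coeff k = a.coeff k := by simp [zr]

@[simp] theorem zr_X : zr X = X := by simp [zr]

theorem zr_dvd {a : ℤ[X]} {k : ℕ} (h : X ^ k ∣ a) : X ^ k ∣ zr a := by
  simpa using map_dvd zr h

theorem nz_eq {a : ℤ[X]} {T : Finset ℕ} (h : a.support ⊆ T) :
    nz ρ a = ∑ k ∈ T, |(a.coeff k : ℝ) * ρ ^ k| := by
  rw [nz, nm_eq (T := T) (p := zr a) ((support_map_subset _ _).trans h)]
  simp only [zr_coeff]

theorem nz_nonneg (a : ℤ[X]) : 0 ≤ nz ρ a := nm_nonneg _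

theorem nz_neg (a : ℤ[X]) : nz ρ (-a) = nz ρ a := by rw [nz, map_neg, nm_neg, nz]

theorem nz_add (a b : ℤ[X]) : nz ρ (a + b) ≤ nz ρ a + nz ρ b := by
  rw [nz, map_add]; exact nm_add _ _

theorem nz_sub (a b : ℤ[X]) : nz ρ (a - b) ≤ nz ρ a + nz ρ b := by
  rw [nz, map_sub]; exact nm_sub _ _

theorem nz_mul (a b : ℤ[X]) : nz ρ (a * b) ≤ nz ρ a * nz ρ b := by
  rw [nz, map_mul]; exact nm_mul _ _

theorem nz_X_pow (h : 0 ≤ ρ) (k : ℕ) : nz ρ (X ^ k) = ρ ^ k := by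
  rw [nz, map_pow, zr_X, nm_X_pow, abs_of_nonneg h]

/-- distance to the identity -/
noncomputable def mr (ρ : ℝ) (g : GL s ℝ[X]) : ℝ := mnS s ρ (g.val - 1)

theorem mr_nonneg (g : GL s ℝ[X]) : 0 ≤ mr ρ g := apply_nonneg _ _

theorem mr_mul (g h : GL s ℝ[X]) : 1 + mr ρ (g * h) ≤ (1 + mr ρ g) * (1 + mr ρ h) :=
  sn_mul_one _ _ _

theorem mr_inv {g : GL s ℝ[X]} (h : mr ρ g ≤ 1 / 2) : mr ρ g⁻¹ ≤ 2 * mr ρ g :=
  sn_inv _ g.mul_inv h

theorem mr_one : mr ρ (1 : GL s ℝ[X]) = 0 := by simp [mr]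

theorem mr_xe (i j : s) (a : ℝ[X]) : mr ρ (xe i j a) ≤ nm ρ a := by
  by_cases h : i = j
  · simp [h, mr_one, nm_nonneg]
  · rw [mr, xe_val h, add_sub_cancel_left, mn_single]

theorem mr_conj (u y : GL s ℝ[X]) : mr ρ (u * y * u⁻¹) ≤ (1 + mr ρ u) * mr ρ y * (1 + mr ρ u⁻¹) := by
  have e : (u * y * u⁻¹).val - 1 = u.val * (y.val - 1) * u⁻¹.val := by
    rw [mul_sub, sub_mul, mul_one, u.mul_inv]; rfl
  rw [mr, e]
  exact (sn_right _ _ _).trans (mul_le_mul_of_nonneg_right (sn_left _ _ _)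
    (add_nonneg zero_le_one (mr_nonneg _)))

/-- logarithmic distance to the identity -/
noncomputable def el (ρ : ℝ) (g : GL s ℤ[X]) : ℝ := Real.log (1 + mr ρ (gm zr g))

theorem el_nonneg (g : GL s ℤ[X]) : 0 ≤ el ρ g :=
  Real.log_nonneg (le_add_of_nonneg_right (mr_nonneg _))

theorem el_le_mr (g : GL s ℤ[X]) : el ρ g ≤ mr ρ (gm zr g) := by
  have := Real.log_le_sub_one_of_pos (add_pos_of_pos_of_nonneg one_pos (mr_nonneg (ρ := ρ) (gm zr g)))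
  rw [el]; linarith

theorem mr_le_of_el {g : GL s ℤ[X]} {τ : ℝ} (h : el ρ g ≤ τ) : mr ρ (gm zr g) ≤ Real.exp τ - 1 := by
  have := (Real.log_le_iff_le_exp
    (add_pos_of_pos_of_nonneg one_pos (mr_nonneg (ρ := ρ) (gm zr g)))).1 h
  linarith

theorem mr_le_two {g : GL s ℤ[X]} {τ : ℝ} (h : el ρ g ≤ τ) (h1 : τ ≤ 1) :
    mr ρ (gm zr g) ≤ 2 * τ := by
  have h0 := (el_nonneg g).trans h
  have := (le_abs_self _).trans (Real.abs_exp_sub_one_le (x := τ) (by rwa [abs_of_nonneg h0]))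
  rw [abs_of_nonneg h0] at this
  exact (mr_le_of_el h).trans this

theorem el_one : el ρ (1 : GL s ℤ[X]) = 0 := by simp [el, mr_one]

theorem el_mul (g h : GL s ℤ[X]) : el ρ (g * h) ≤ el ρ g + el ρ h := by
  have h1 := mr_nonneg (ρ := ρ) (gm zr g)
  have h2 := mr_nonneg (ρ := ρ) (gm zr h)
  have h3 := mr_nonneg (ρ := ρ) (gm zr g * gm zr h)
  rw [el, el, el, ← Real.log_mul (by positivity) (by positivity), map_mul]
  exact Real.log_le_log (by positivity) (mr_mul _ _)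

theorem el_conj {u : GL s ℤ[X]} {K : ℝ} (h1 : mr ρ (gm zr u) ≤ K) (h2 : mr ρ (gm zr u⁻¹) ≤ K)
    (y : GL s ℤ[X]) : el ρ (u * y * u⁻¹) ≤ (1 + K) ^ 2 * el ρ y := by
  have h3 := mr_nonneg (ρ := ρ) (gm zr y)
  have h4 := mr_nonneg (ρ := ρ) (gm zr u)
  have h5 := mr_nonneg (ρ := ρ) (gm zr (u * y * u⁻¹))
  have h6 : mr ρ (gm zr (u * y * u⁻¹)) ≤ (1 + K) ^ 2 * mr ρ (gm zr y) := by
    rw [map_inv] at h2
    rw [map_mul, map_mul, map_inv]
    refine (mr_conj _ _).trans ?_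
    have := mr_nonneg (ρ := ρ) (gm zr u)⁻¹
    calc _ ≤ (1 + K) * mr ρ (gm zr y) * (1 + K) := by
          have : 0 ≤ K := h4.trans h1
          gcongr
      _ = _ := by ring
  have h7 : 1 ≤ (1 + K) ^ 2 := one_le_pow₀ (by linarith)
  rw [el, el, ← Real.log_rpow (by linarith)]
  exact Real.log_le_log (by linarith) (le_trans (by linarith)
    (one_add_mul_self_le_rpow_one_add (by linarith) h7))

/-- one monomial left step, in either direction -/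
def Mv (ok : s → s → ℕ → Prop) (x y : GL s ℤ[X]) : Prop :=
  ∃ i j k, ok i j k ∧ (y = xe i j (X ^ k) * x ∨ x = xe i j (X ^ k) * y)

/-- joined by monomial steps within a given distance of the identity -/
def Rch (ok : s → s → ℕ → Prop) (ρ τ : ℝ) : GL s ℤ[X] → GL s ℤ[X] → Prop :=
  ReflTransGen fun x y => el ρ x ≤ τ ∧ el ρ y ≤ τ ∧ Mv ok x y

/-- joined to the identity -/
def Pa (ok : s → s → ℕ → Prop) (ρ τ : ℝ) (g : GL s ℤ[X]) : Prop := 0 ≤ τ ∧ Rch ok ρ τ 1 g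

variable {ok : s → s → ℕ → Prop} {τ τ' : ℝ} {a b g h : GL s ℤ[X]}

theorem Mv.symm (h : Mv ok a b) : Mv ok b a :=
  let ⟨i, j, k, h1, h2⟩ := h; ⟨i, j, k, h1, h2.symm⟩

theorem Mv.right (h : Mv ok a b) (c : GL s ℤ[X]) : Mv ok (a * c) (b * c) :=
  let ⟨i, j, k, h1, h2⟩ := h
  ⟨i, j, k, h1, h2.imp (fun e => by rw [e, mul_assoc]) fun e => by rw [e, mul_assoc]⟩

theorem Rch.mono (h : Rch ok ρ τ a b) (h1 : τ ≤ τ') : Rch ok ρ τ' a b := by
  induction h with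
  | refl => exact ReflTransGen.refl
  | tail _ h ih => exact ih.tail ⟨h.1.trans h1, h.2.1.trans h1, h.2.2⟩

theorem Rch.symm (h : Rch ok ρ τ a b) : Rch ok ρ τ b a := by
  induction h with
  | refl => exact ReflTransGen.refl
  | tail _ h ih => exact ReflTransGen.head ⟨h.2.1, h.1, h.2.2.symm⟩ ih

theorem Rch.right (h : Rch ok ρ τ a b) (c : GL s ℤ[X]) :
    Rch ok ρ (τ + el ρ c) (a * c) (b * c) := by
  induction h with
  | refl => exact ReflTransGen.refl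
  | tail _ h ih =>
    exact ih.tail ⟨(el_mul _ _).trans (by linarith [h.1]),
      (el_mul _ _).trans (by linarith [h.2.1]), h.2.2.right c⟩

theorem Pa.mono (h : Pa ok ρ τ g) (h1 : τ ≤ τ') : Pa ok ρ τ' g := ⟨h.1.trans h1, h.2.mono h1⟩

theorem Pa.one (h : 0 ≤ τ) : Pa ok ρ τ (1 : GL s ℤ[X]) := ⟨h, ReflTransGen.refl⟩

theorem Pa.el_le (h : Pa ok ρ τ g) : el ρ g ≤ τ := by
  rcases ReflTransGen.cases_tail h.2 with e | ⟨c, -, h1⟩
  · rw [e, el_one]; exact h.1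
  · exact h1.2.1

theorem Pa.step (h1 : Pa ok ρ τ g) (c : GL s ℤ[X]) : Rch ok ρ (τ + el ρ c) c (g * c) := by
  simpa using h1.2.right c

theorem Pa.mul_le {σ : ℝ} (h1 : Pa ok ρ τ g) (h2 : Pa ok ρ τ' h) (e1 : τ' ≤ σ)
    (e2 : τ + el ρ h ≤ σ) : Pa ok ρ σ (g * h) :=
  ⟨h2.1.trans e1, ReflTransGen.trans (h2.2.mono e1) ((h1.step h).mono e2)⟩

theorem Pa.mul (h1 : Pa ok ρ τ g) (h2 : Pa ok ρ τ' h) : Pa ok ρ (τ + τ') (g * h) :=
  h1.mul_le h2 (by linarith [h1.1]) (by linarith [h2.el_le])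

theorem Pa.inv (h1 : Pa ok ρ τ g) : Pa ok ρ (τ + el ρ g⁻¹) g⁻¹ :=
  ⟨add_nonneg h1.1 (el_nonneg _), by simpa using (h1.step g⁻¹).symm⟩

theorem Pa.pow (h1 : Pa ok ρ τ g) (n : ℕ) : Pa ok ρ (n * τ) (g ^ n) := by
  induction n with
  | zero => simpa using Pa.one le_rfl
  | succ n ih => rw [pow_succ, Nat.cast_succ, add_mul, one_mul]; exact ih.mul h1

theorem el_xe (i j : s) (a : ℤ[X]) : el ρ (xe i j a) ≤ nz ρ a :=
  (el_le_mr _).trans (by rw [gm_xe]; exact mr_xe _ _ _)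

theorem pa_xe {i j : s} {a : ℤ[X]} (h : ∀ k, a.coeff k ≠ 0 → ok i j k) :
    Pa ok ρ (nz ρ a) (xe i j a) := by
  have key : ∀ T : Finset ℕ, T ⊆ a.support →
      Pa ok ρ (∑ k ∈ T, |(a.coeff k : ℝ) * ρ ^ k|) (xe i j (∑ k ∈ T, C (a.coeff k) * X ^ k)) := by
    intro T
    induction T using Finset.induction_on with
    | empty => intro _; simpa using Pa.one le_rfl
    | insert k T hk ih =>
      intro hT
      rw [Finset.sum_insert hk, Finset.sum_insert hk, xe_add]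
      refine Pa.mul ?_ (ih ((Finset.subset_insert _ _).trans hT))
      have h1 := h k (mem_support_iff.1 (hT (Finset.mem_insert_self _ _)))
      have h2 : nz ρ (X ^ k) = |ρ ^ k| := by rw [nz, map_pow, zr_X, nm_X_pow, abs_pow]
      have p1 : Pa ok ρ |ρ ^ k| (xe i j (X ^ k)) := ⟨abs_nonneg _, ReflTransGen.single
        ⟨by simp [el_one], h2 ▸ el_xe _ _ _, i, j, k, h1, Or.inl (by simp)⟩⟩
      have p2 : Pa ok ρ |ρ ^ k| (xe i j (X ^ k))⁻¹ := ⟨abs_nonneg _, ReflTransGen.single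
        ⟨by simp [el_one], by rw [← xe_neg, ← h2, ← nz_neg]; exact el_xe _ _ _,
          i, j, k, h1, Or.inr (by simp)⟩⟩
      rw [eq_intCast C, xe_zsmul, abs_mul]
      obtain ⟨n, e | e⟩ := Int.eq_nat_or_neg (a.coeff k) <;> rw [e]
      · simpa using p1.pow n
      · simpa using p2.pow n
  have := key _ subset_rfl
  rwa [← nz_eq subset_rfl, ← as_sum_support_C_mul_X_pow] at this

/-- coefficientwise rounding of `x * p / X ^ L` -/
noncomputable def rd (L : ℕ) (x : ℝ) (p : ℝ[X]) : ℤ[X] :=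
  ∑ k ∈ Finset.range (p.natDegree + 1), monomial k ⌊x * p.coeff (k + L)⌋

theorem rd_coeff (L : ℕ) (x : ℝ) (p : ℝ[X]) (k : ℕ) :
    (rd L x p).coeff k = ⌊x * p.coeff (k + L)⌋ := by
  simp only [rd, finsetSum_coeff, coeff_monomial, Finset.sum_ite_eq', Finset.mem_range]
  split_ifs with h
  · rfl
  · rw [coeff_eq_zero_of_natDegree_lt (by omega)]; simp

theorem rd_zero (L : ℕ) (x : ℝ) : rd L x 0 = 0 := by
  ext k; simp [rd_coeff]

theorem rd_dvd (L : ℕ) (x : ℝ) {q : ℝ[X]} {M : ℕ} (h : X ^ M ∣ q) : X ^ M ∣ rd L x (X ^ L * q) :=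
  X_pow_dvd_iff.2 fun k hk => by
    rw [rd_coeff, coeff_X_pow_mul, X_pow_dvd_iff.1 h k hk]; simp

theorem rd_err (h0 : 0 ≤ ρ) (h1 : ρ < 1) (L : ℕ) (x : ℝ) {q : ℝ[X]} {M : ℕ} (h : X ^ M ∣ q) :
    nm ρ (zr (rd L x (X ^ L * q)) - C x * q) ≤ ρ ^ M / (1 - ρ) := by
  have := nm_le_of_coeff h0 h1 (c := 1) (dvd_sub (zr_dvd (rd_dvd L x h)) (h.mul_left (C x)))
    fun k => by
      rw [coeff_sub, zr_coeff, rd_coeff, coeff_X_pow_mul, coeff_C_mul, abs_le]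
      constructor <;> linarith [Int.floor_le (x * q.coeff k), Int.lt_floor_add_one (x * q.coeff k)]
  rwa [one_mul] at this

end Pool.Agent.MP_993212_an.H15
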