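import Pool.Agent.MP_993212_an.H15.LPath

/-! Conjugation by bounded letters preserves short monomial paths. -/

set_option linter.unusedSectionVars false

namespace Pool.Agent.MP_993212_an.H15

open Matrix Polynomial Relation
open scoped commutatorElement

variable {ρ : ℝ} {s : Type} [Fintype s] [DecidableEq s]

/-- a cyclic system of levels -/
structure Lv (N : s → s → ℕ) (σ : ℕ) (o : s) : Prop where
  pos : 1 ≤ σ
  tri : ∀ i l j, N i j ≤ N i l + N l j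
  low : ∀ i j, σ ≤ N i j
  up : ∀ i j, N i j ≤ 3 * σ
  fac : ∀ i j, N i j = σ ∨ ∃ m, m ≠ i ∧ m ≠ j ∧ N i m = σ ∧ N i j = σ + N m j
  opp : ∀ i j, N i j = σ → N j i ≠ σ
  dia : ∀ i, i ≠ o → N i i = N i o + N o i

/-- the allowed monomial letters -/
def okN (N : s → s → ℕ) (i j : s) (k : ℕ) : Prop := N i j ≤ k

variable {N : s → s → ℕ} {σ : ℕ} {o : s}

theorem pa_lv {i j : s} {a : ℤ[X]} (h : X ^ N i j ∣ a) : Pa (okN N) ρ (nz ρ a) (xe i j a) :=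
  pa_xe fun k hk => not_lt.1 fun h1 => hk (X_pow_dvd_iff.1 h k h1)

theorem lv_mul (L : Lv N σ o) {R : Type} [CommRing R] {i l j : s} {a b : R[X]} (ha : X ^ N i l ∣ a)
    (hb : X ^ N l j ∣ b) : X ^ N i j ∣ a * b :=
  (pow_dvd_pow X (L.tri i l j)).trans (pow_add (X : R[X]) _ _ ▸ mul_dvd_mul ha hb)

theorem pa_conj_nonopp (L : Lv N σ o) {k l i j : s} {c a : ℤ[X]} {K : ℝ} (hc : X ^ N k l ∣ c)
    (hK : nz ρ c ≤ K) (ha : X ^ N i j ∣ a) (h : ¬(l = i ∧ k = j)) :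
    Pa (okN N) ρ ((K + 1) * nz ρ a) (xe k l c * xe i j a * (xe k l c)⁻¹) := by
  have K0 := (nz_nonneg c).trans hK
  have a0 := nz_nonneg (ρ := ρ) a
  have p0 : Pa (okN N) ρ ((K + 1) * nz ρ a) (xe i j a) := (pa_lv ha).mono (by nlinarith)
  have hca : nz ρ (c * a) + nz ρ a ≤ (K + 1) * nz ρ a := by nlinarith [nz_mul (ρ := ρ) c a]
  by_cases hkl : k = l
  · simpa [hkl] using p0
  by_cases hij : i = j
  · simpa [hij] using Pa.one p0.1
  by_cases h1 : l = i <;> by_cases h2 : k = j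
  · exact absurd ⟨h1, h2⟩ h
  · subst h1
    rw [xe_conj1 hkl hij h2]
    exact ((pa_lv (lv_mul L hc ha)).mul (pa_lv ha)).mono hca
  · subst h2
    rw [xe_conj2 hkl h1 (Ne.symm hij)]
    refine ((pa_lv (lv_mul L ha hc).neg_right).mul (pa_lv ha)).mono ?_
    rwa [nz_neg, mul_comm a]
  · rwa [(xe_comm0 h1 h2 _ _).eq, mul_inv_cancel_right]

theorem pa_conj_short (h0 : 0 ≤ ρ) (h1 : ρ ≤ 1) (L : Lv N σ o) {k l : s} {c : ℤ[X]} {K : ℝ}
    (hs : N k l = σ) (hc : X ^ N k l ∣ c) (hK : nz ρ c ≤ K) {i j : s} {p : ℕ} (hp : N i j ≤ p) :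
    Pa (okN N) ρ (4 * (K + 1) * ρ ^ σ) (xe k l c * xe i j (X ^ p) * (xe k l c)⁻¹) := by
  have K0 := (nz_nonneg c).trans hK
  have g0 := pow_nonneg h0 σ
  have hq : ∀ q, σ ≤ q → (K + 1) * nz ρ (X ^ q) ≤ (K + 1) * ρ ^ σ := fun q hq => by
    rw [nz_X_pow h0]
    exact mul_le_mul_of_nonneg_left (pow_le_pow_of_le_one h0 h1 hq) (by linarith)
  by_cases h : l = i ∧ k = j
  swap
  · exact (pa_conj_nonopp L hc hK (pow_dvd_pow X hp) h).mono
      ((hq p ((L.low i j).trans hp)).trans (by nlinarith))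
  obtain ⟨rfl, rfl⟩ := h
  by_cases hkl : l = k
  · simpa [hkl] using Pa.one (by positivity)
  obtain ⟨m, m1, m2, e1, e2⟩ := (L.fac l k).resolve_left (L.opp k l hs)
  have d1 : (X : ℤ[X]) ^ N l m ∣ X ^ σ := e1 ▸ dvd_rfl
  have d2 : (X : ℤ[X]) ^ N m k ∣ X ^ (p - σ) := pow_dvd_pow X (by omega)
  have q2 := hq (p - σ) (by have := L.low m k; omega)
  have p1 := (pa_conj_nonopp L hc hK d1 fun h => m2 h.2.symm).mono (hq σ le_rfl)
  have p2 := (pa_conj_nonopp L hc hK d2 fun h => m1 h.1.symm).mono q2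
  have p3 := (pa_conj_nonopp L hc hK d1.neg_right fun h => m2 h.2.symm).mono
    ((nz_neg (ρ := ρ) _).symm ▸ hq σ le_rfl)
  have p4 := (pa_conj_nonopp L hc hK d2.neg_right fun h => m1 h.1.symm).mono
    ((nz_neg (ρ := ρ) _).symm ▸ q2)
  have e : (X : ℤ[X]) ^ p = X ^ σ * X ^ (p - σ) := by rw [← pow_add]; congr 1; omega
  rw [e, ← xe_comm1 m1.symm m2 hkl, commutatorElement_def]
  convert ((p1.mul p2).mul p3).mul p4 using 1
  · ring
  · rw [xe_neg, xe_neg]; group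

/-- conjugation by `u` enlarges path radii by a bounded factor -/
def Tame (ok : s → s → ℕ → Prop) (ρ g0 A : ℝ) (u : GL s ℤ[X]) : Prop :=
  ∀ τ, g0 ≤ τ → ∀ y, Pa ok ρ τ y → Pa ok ρ (A * τ) (u * y * u⁻¹)

variable {ok : s → s → ℕ → Prop} {g0 A B : ℝ} {u v : GL s ℤ[X]}

theorem tame_of {K : ℝ} (h1 : mr ρ (gm zr u) ≤ K) (h2 : mr ρ (gm zr u⁻¹) ≤ K) (hB : 0 ≤ B)
    (h : ∀ i j p, ok i j p → Pa ok ρ (B * g0) (u * xe i j (X ^ p) * u⁻¹)) :
    Tame ok ρ g0 ((1 + K) ^ 2 + B) u := by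
  intro τ hτ y hy
  have t0 := hy.1
  refine ⟨by positivity, ?_⟩
  have key : ∀ x, el ρ x ≤ τ → B * g0 + el ρ (u * x * u⁻¹) ≤ ((1 + K) ^ 2 + B) * τ := fun x hx => by
    have h3 := (el_conj h1 h2 x).trans (mul_le_mul_of_nonneg_left hx (by positivity))
    have h4 := mul_le_mul_of_nonneg_left hτ hB
    linarith
  have h3 := hy.2
  clear hy
  induction h3 with
  | refl => rw [mul_one, mul_inv_cancel]; exact ReflTransGen.refl
  | @tail b c _ h4 ih =>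
    obtain ⟨e1, e2, i, j, p, hp, e | e⟩ := h4
    · refine ih.trans (Rch.mono ?_ (key b e1))
      convert (h i j p hp).step (u * b * u⁻¹) using 1
      rw [e]; group
    · refine ih.trans (Rch.mono (Rch.symm ?_) (key c e2))
      convert (h i j p hp).step (u * c * u⁻¹) using 1
      rw [e]; group

theorem Tame.mul (h1 : Tame ok ρ g0 A u) (h2 : Tame ok ρ g0 B v) (hB : 1 ≤ B) :
    Tame ok ρ g0 (A * B) (u * v) := fun τ hτ y hy => by
  convert h1 _ (by nlinarith [hy.1]) _ (h2 τ hτ y hy) using 1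
  · ring
  · group

theorem Tame.mono (h1 : Tame ok ρ g0 A u) (h : A ≤ B) : Tame ok ρ g0 B u := fun τ hτ y hy =>
  (h1 τ hτ y hy).mono (mul_le_mul_of_nonneg_right h hy.1)

theorem tame_tiny {i j : s} {a : ℤ[X]} (ha : X ^ N i j ∣ a) (hB : 0 ≤ B) (h : nz ρ a ≤ B * g0) :
    Tame (okN N) ρ g0 (1 + 2 * B) (xe i j a) := fun τ hτ y hy => by
  rw [← xe_neg]
  refine (((pa_lv ha).mul hy).mul (pa_lv ha.neg_right)).mono ?_
  rw [nz_neg]
  nlinarith [mul_le_mul_of_nonneg_left hτ hB]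

theorem mr_zxe (i j : s) (a : ℤ[X]) : mr ρ (gm zr (xe i j a)) ≤ nz ρ a := by
  rw [gm_xe]; exact mr_xe _ _ _

theorem nz_natCast_mul (n : ℕ) (a : ℤ[X]) : nz ρ (n * a) = n * nz ρ a := by
  rw [nz, map_mul, map_natCast, ← C_eq_natCast, nm_C_mul, Nat.abs_cast, nz]

theorem ceil_bound {x κ : ℝ} (h0 : 0 < x) (hκ : 0 < κ) :
    κ ≤ ⌈κ / x⌉₊ * x ∧ ⌈κ / x⌉₊ * x ≤ κ + x := by
  have h1 := Nat.le_ceil (κ / x)
  have h2 := (Nat.ceil_lt_add_one (div_pos hκ h0).le).le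
  rw [div_le_iff₀ h0] at h1
  refine ⟨h1, ?_⟩
  calc _ ≤ (κ / x + 1) * x := mul_le_mul_of_nonneg_right h2 h0.le
    _ = _ := by field_simp

theorem tame_depth (h0 : 0 < ρ) (h1 : ρ < 1) (d : ℕ) : ∀ K : ℝ, ∃ A, 1 ≤ A ∧
    ∀ (N : s → s → ℕ) (σ : ℕ) (o : s), Lv N σ o → ∀ (i j : s) (c : ℤ[X]), N i j ≤ (d + 1) * σ →
      X ^ N i j ∣ c → nz ρ c ≤ K → Tame (okN N) ρ (ρ ^ σ) A (xe i j c) := by
  have short : ∀ K : ℝ, ∃ A, 1 ≤ A ∧ ∀ (N : s → s → ℕ) (σ : ℕ) (o : s), Lv N σ o →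
      ∀ (i j : s) (c : ℤ[X]), N i j = σ → X ^ N i j ∣ c → nz ρ c ≤ K →
        Tame (okN N) ρ (ρ ^ σ) A (xe i j c) := fun K =>
    ⟨(1 + |K|) ^ 2 + 4 * (|K| + 1), by nlinarith [abs_nonneg K], fun N σ o L i j c e hc hK =>
      tame_of ((mr_zxe _ _ _).trans (hK.trans (le_abs_self K)))
        (by rw [← xe_neg]; exact (mr_zxe _ _ _).trans (nz_neg c ▸ hK.trans (le_abs_self K)))
        (by positivity) fun _ _ _ hp =>
          pa_conj_short h0.le h1.le L e hc (hK.trans (le_abs_self K)) hp⟩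
  induction d with
  | zero =>
    intro K
    obtain ⟨A, hA, h⟩ := short K
    exact ⟨A, hA, fun N σ o L i j c e => h N σ o L i j c (by have := L.low i j; omega)⟩
  | succ d ih =>
    intro K
    have r0 : 0 < 1 - ρ := by linarith
    obtain ⟨A0, hA0, t0⟩ := short K
    obtain ⟨A1, hA1, t1⟩ := short 2
    obtain ⟨A2, hA2, t2⟩ := ih (K + 1 / (1 - ρ))
    have hB : (1 : ℝ) ≤ 1 + 2 * (2 / (1 - ρ)) := le_add_of_nonneg_right (by positivity)
    refine ⟨max A0 (A1 * A2 * A1 * A2 * (1 + 2 * (2 / (1 - ρ)))), le_max_of_le_left hA0,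
      fun N σ o L i j c e hc hK => ?_⟩
    rcases L.fac i j with e1 | ⟨m, m1, m2, e1, e2⟩
    · exact (t0 N σ o L i j c e1 hc hK).mono (le_max_left _ _)
    by_cases hij : i = j
    · intro τ _ y hy
      simpa [hij] using hy.mono (le_mul_of_one_le_left hy.1 (le_max_of_le_left hA0))
    refine Tame.mono ?_ (le_max_right _ _)
    have g0 : 0 < ρ ^ σ := pow_pos h0 σ
    have g1 : ρ ^ σ ≤ 1 := pow_le_one₀ h0.le h1.le
    obtain ⟨n1, n2⟩ := ceil_bound g0 one_pos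
    set n := ⌈1 / ρ ^ σ⌉₊
    have n0 : (0 : ℝ) < n := (pos_iff_pos_of_mul_pos (one_pos.trans_le n1)).2 g0
    obtain ⟨c', rfl⟩ := hc
    obtain ⟨q, hq⟩ : ∃ q, q = X ^ N m j * zr c' := ⟨_, rfl⟩
    have hq1 : X ^ N m j ∣ q := hq ▸ dvd_mul_right _ _
    have hq2 : zr (X ^ N i j * c') = X ^ σ * q := by
      rw [hq, e2, pow_add, map_mul, map_mul, map_pow, map_pow, zr_X, mul_assoc]
    have d2 := rd_dvd σ (1 / n) hq1
    have r2 := rd_err h0.le h1 σ (1 / n) hq1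
    set c2 := rd σ (1 / n) (X ^ σ * q)
    have r3 : ρ ^ N m j / (1 - ρ) ≤ ρ ^ σ / (1 - ρ) :=
      div_le_div_of_nonneg_right (pow_le_pow_of_le_one h0.le h1.le (L.low m j)) r0.le
    have r4 : ρ ^ σ / (1 - ρ) ≤ 1 / (1 - ρ) := div_le_div_of_nonneg_right g1 r0.le
    have d1 : X ^ N i m ∣ ((n : ℤ[X]) * X ^ σ : ℤ[X]) := e1 ▸ dvd_mul_left _ _
    have b1 : nz ρ ((n : ℤ[X]) * X ^ σ) ≤ 2 := by rw [nz_natCast_mul, nz_X_pow h0.le]; linarith
    have b2 : nz ρ c2 ≤ K + 1 / (1 - ρ) := by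
      have h3 := nm_add (ρ := ρ) (zr c2 - C (1 / (n : ℝ)) * q) (C (1 / (n : ℝ)) * q)
      rw [sub_add_cancel, nm_C_mul, abs_of_pos (one_div_pos.2 n0)] at h3
      rw [nz, hq2, nm_X_pow_mul, abs_of_pos h0] at hK
      have h4 : 1 / (n : ℝ) * nm ρ q ≤ ρ ^ σ * nm ρ q :=
        mul_le_mul_of_nonneg_right (by rw [div_le_iff₀ n0]; linarith) (nm_nonneg q)
      rw [nz]; linarith
    have b3 : nz ρ (X ^ N i j * c' - (n : ℤ[X]) * X ^ σ * c2) ≤ 2 / (1 - ρ) * ρ ^ σ := by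
      have e3 : zr (X ^ N i j * c' - (n : ℤ[X]) * X ^ σ * c2) =
          -(C (n : ℝ) * (X ^ σ * (zr c2 - C (1 / (n : ℝ)) * q))) := by
        have : C (n : ℝ) * C (1 / (n : ℝ)) = 1 := by rw [← C_mul, mul_one_div_cancel n0.ne', C_1]
        rw [map_sub, hq2, map_mul, map_mul, map_natCast, map_pow, zr_X, ← C_eq_natCast]
        linear_combination -(X ^ σ * q) * this
      rw [nz, e3, nm_neg, nm_C_mul, nm_X_pow_mul, abs_of_pos h0, abs_of_pos n0, ← mul_assoc]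
      calc _ ≤ 2 * (ρ ^ σ / (1 - ρ)) :=
            mul_le_mul (by linarith) (r2.trans r3) (nm_nonneg _) (by norm_num)
        _ = _ := by ring
    have e4 : N m j ≤ (d + 1) * σ := by
      have : (d + 1 + 1) * σ = σ + (d + 1) * σ := by ring
      omega
    have := ((((t1 N σ o L i m _ e1 d1 b1).mul (t2 N σ o L m j _ e4 d2 b2) hA2).mul
      (t1 N σ o L i m _ e1 d1.neg_right ((nz_neg _).trans_le b1)) hA1).mul
      (t2 N σ o L m j _ e4 d2.neg_right ((nz_neg _).trans_le b2)) hA2).mul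
      (tame_tiny (i := i) (j := j) (dvd_sub (dvd_mul_right _ _) (lv_mul L d1 d2)) (by positivity) b3)
      hB
    convert this using 1
    rw [xe_neg, xe_neg, ← commutatorElement_def, xe_comm1 m1.symm m2 hij, ← xe_add, add_sub_cancel]

theorem tame_letter (h0 : 0 < ρ) (h1 : ρ < 1) (K : ℝ) : ∃ A, 1 ≤ A ∧
    ∀ (N : s → s → ℕ) (σ : ℕ) (o : s), Lv N σ o → ∀ (i j : s) (c : ℤ[X]),
      X ^ N i j ∣ c → nz ρ c ≤ K → Tame (okN N) ρ (ρ ^ σ) A (xe i j c) :=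
  let ⟨A, hA, h⟩ := tame_depth h0 h1 2 K
  ⟨A, hA, fun N σ o L i j c => h N σ o L i j c (L.up i j)⟩

end Pool.Agent.MP_993212_an.H15
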