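import Pool.Agent.MP_993212_an.H15.FatA
import Pool.Agent.MP_993212_an.H92.PBase

/-! The construction in one world, up to the common diagonal. -/

set_option linter.unusedSectionVars false

namespace Pool.Agent.MP_993212_an.H15F

open Matrix Polynomial Finset H92 H18 Filter
open H15 hiding cf

variable {I J V G : Type} [Fintype I] [DecidableEq I] [Fintype J] [DecidableEq J] [Fintype V]
  [DecidableEq V] [AddCommGroup G] [Module ℤ[X] G]

theorem coeff_le_nz {ρ : ℝ} (p : ℤ[X]) (k : ℕ) : (p.coeff k : ℝ) * ρ ^ k ≤ nz ρ p := by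
  rw [nz_eq (T := insert k p.support) (subset_insert _ _)]
  exact (le_abs_self _).trans (single_le_sum (f := fun k => |(p.coeff k : ℝ) * ρ ^ k|)
    (fun _ _ => abs_nonneg _) (mem_insert_self _ _))

theorem Cert.mono {ρ ρ' η η' : ℝ} {z : I} {N : Matrix I I ℤ[X]} {p : I → ℝ} (h : Cert ρ η z N p)
    (h0 : 0 ≤ ρ') (h1 : ρ' ≤ ρ) (h2 : η' ≤ η) : Cert ρ' η' z N p :=
  ⟨h.1, fun j n => (sum_le_sum fun l _ => mul_le_mul_of_nonneg_right (nz_mono h0 h1 _)
    (h.1 l).le).trans ((h.2 j n).trans (mul_le_mul_of_nonneg_right (by linarith) (h.1 j).le))⟩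

theorem St.diag {ρ η : ℝ} {z : I} {L : ℕ} {N : Matrix I I ℤ[X]} (h : St ρ η z L N) {j : I}
    (n : j ≠ z) : nz ρ (N j j) ≤ 1 - η := by
  obtain ⟨p, h1, h2⟩ := h.cert
  exact le_of_mul_le_mul_right ((single_le_sum (f := fun l => nz ρ (N j l) * p l)
    (fun l _ => mul_nonneg (nz_nonneg _) (h1 l).le) (by simp [n])).trans (h2 j n)) (h1 j)

/-- the state after the extraction of the short loops -/
structure Ph (ρ η : ℝ) (o : ℕ → ℤ) (z : I) (L h : ℕ) (per : I → ℕ) (Na D : Finset I)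
    (N : Matrix I I ℤ[X]) : Prop where
  st : St ρ η z L N
  src : ∀ i, i ≠ z → i ∉ Na → ¬(per i ≠ 0 ∧ per i < h) → Src N i
  snk : ∀ i, i ≠ z → i ∉ Na → i ∉ D → ¬(per i ≠ 0 ∧ per i < h) → Snk N i
  low : ∀ w, per w ≠ 0 → per w < h → X ^ L ∣ N w w - X ^ per w
  hi : ∀ u, ¬(per u ≠ 0 ∧ per u < h) → X ^ h ∣ N u u
  hub : ∀ m, h ≤ m → m < 2 * h → o m * ρ ^ m ≤ m * ((N z z).coeff m * ρ ^ m + Na.card)

theorem phase1 (hE : EmbStmt) (hC : CleanStmt) (hT : TraceStmt) (hL : LowExtStmt)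
    (A : Matrix V V ℕ) {N₀ : Matrix J J ℤ[X]} {ξ₀ : J → G} {z₀ : J} {ρ η : ℝ} {p : J → ℝ}
    (e : J ↪ I) (Y : Matrix I J ℤ[X]) {L h : ℕ} (per : I → ℕ) (D : Finset I) (h0 : Hs N₀)
    (r0 : act (1 - N₀) ξ₀ = 0) (d0 : (1 - N₀).det = (H16.pen (H16.zz A)).det)
    (c0 : Cert ρ η z₀ N₀ p) (i0 : Inv0 z₀ N₀) (s0 : ∀ j, ¬Snk N₀ j)
    (o0 : ∀ j, j ≠ z₀ → N₀ z₀ j ≠ 0) (y1 : NN Y) (y2 : cf 0 Y = 0) (y3 : ∀ i, i ∉ D → Y i = 0)
    (e1 : ∀ j, e j ∉ D) (e2 : ∀ j, per (e j) = 0) (e3 : ∀ d ∈ D, per d = 0) (hρ : 0 < ρ)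
    (hη : 0 < η) (h1 : ρ ≤ 1 - 2 * η) (hh : 1 ≤ h) (hL' : 2 * h ≤ L)
    (ct : ∀ k, 1 ≤ k → k < h → ((univ.filter fun i => per i = k).card : ℤ) * k = H16.np k A) :
    ∃ (N : Matrix I I ℤ[X]) (ξ : I → G), Eq0 N₀ ξ₀ N ξ ∧ ξ (e z₀) = ξ₀ z₀ ∧
      (∀ d ∈ D, ξ d = act Y ξ₀ d) ∧
      Ph ρ η (fun m => H16.np m A) (e z₀) L h per ((univ.erase z₀).map e) D N := by
  have p1 : ∀ (K : Type) (F : Matrix K J ℤ[X]) i j, (F * pm ℤ[X] e) i (e j) = F i j :=
    fun K F i j => by simp [pm, mul_apply]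
  have p2 : ∀ (F : Matrix I J ℤ[X]) i b, b ∉ Set.range e → (F * pm ℤ[X] e) i b = 0 :=
    fun F i b n => by
      have : ∀ j, e j ≠ b := fun j c => n ⟨j, c⟩
      simp [pm, mul_apply, this]
  have p3 : ∀ j l, ((pm ℤ[X] e)ᵀ * N₀) (e j) l = N₀ j l := fun j l => by simp [pm, mul_apply]
  have p4 : ∀ b, b ∉ Set.range e → ∀ l, (pm ℤ[X] e)ᵀ b l = 0 := fun b n l => by
    have : e l ≠ b := fun c => n ⟨l, c⟩
    simp [pm, this]
  have p5 : NN (pm ℤ[X] e) := fun i j => by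
    simp only [pm, of_apply]
    split_ifs
    exacts [pow_zero (X : ℤ[X]) ▸ n1_pow 0, n1_zero]
  have q1 : act ((pm ℤ[X] e)ᵀ + Y) ξ₀ ∘ e = ξ₀ := by
    funext j
    simp [act, y3 _ (e1 j), pm, ite_smul]
  have q2 : ∀ ξ : I → G, act (pm ℤ[X] e) ξ = ξ ∘ e := fun ξ => by
    funext j
    simp [act, pm, ite_smul]
  have q3 : act N₀ ξ₀ = ξ₀ := by
    rw [act_sub, act_one, sub_eq_zero] at r0
    exact r0.symm
  have hs : Hs (((pm ℤ[X] e)ᵀ * N₀ + Y) * pm ℤ[X] e) :=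
    ⟨((p5.tr.mul h0.1).add y1).mul p5, by simp [H92.cf_mul, cf_add, h0.2, y2]⟩
  obtain ⟨a1, ⟨p', a2⟩, a3⟩ := hE J I G N₀ ξ₀ z₀ ρ η p e _ (act ((pm ℤ[X] e)ᵀ + Y) ξ₀) e.injective hs
    (by ext1 i j; simp [p1, p3, y3 _ (e1 i)]) (fun j n u => p2 _ u j n) q1
    (by rw [act_sub, act_one, H92.act_mul, q2, q1, act_add, act_add, H92.act_mul, q3, sub_self])
    (by linarith) c0 i0 s0 o0
  obtain ⟨N₂, b1, b2, b3⟩ := hC I G _ _ _ ρ η p' L hs a1.rel' hρ.le hη a2 a3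
  have k1 : ∀ i, i ∉ Set.range e → Src N₂ i := fun i n =>
    (b3 i (by simp)).1 fun u => p2 _ u i n
  have k2 : ∀ i, i ∉ Set.range e → i ∉ D → Snk N₂ i := fun i n m => (b3 i (by simp)).2 fun l => by
    simp only [mul_apply, Matrix.add_apply, p4 i n, y3 i m]
    simp
  have k3 : ∀ w, per w ≠ 0 → w ∉ Set.range e := by
    rintro _ n ⟨j, rfl⟩
    exact n (e2 j)
  have d2 : (1 - N₂).det = (H16.pen (H16.zz A)).det := (a1.trans b1).det.symm.trans d0
  set T := univ.filter fun i => per i ≠ 0 ∧ per i < h with hT'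
  have mT : ∀ i, i ∈ T ↔ per i ≠ 0 ∧ per i < h := fun i => by simp [hT']
  obtain ⟨N, ξ, c1, c2, c3, c4, c5, c6⟩ := hL V I G A N₂ _ (e z₀) ρ η L h T per d2 b2 b1.rel' hρ.le hη
    h1 (by omega) (by simp [mT, e2])
    (fun w m => by
      have m := (mT w).1 m
      exact ⟨k1 w (k3 w m.1), k2 w (k3 w m.1) fun c => m.1 (e3 w c), by omega, m.2⟩)
    (fun k a b => by
      rw [← ct k a b, hT', filter_filter]
      congr 3
      exact filter_congr fun i _ => by omega)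
  have k4 : ∀ i, i ≠ e z₀ → i ∉ (univ.erase z₀).map e → i ∉ Set.range e := by
    rintro _ a b ⟨j, rfl⟩
    exact b (mem_map_of_mem _ (by simpa using a))
  have k5 : ∀ i, i ≠ e z₀ → i ∉ (univ.erase z₀).map e → ¬(per i ≠ 0 ∧ per i < h) → Src N i :=
    fun i a b c => (c4 i (by simpa [mT] using c)).1 (k1 i (k4 i a b))
  refine ⟨N, ξ, (a1.trans b1).trans c1, ?_, fun d m => ?_, c3, k5,
    fun i a b m c => (c4 i (by simpa [mT] using c)).2 (k2 i (k4 i a b) m),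
    fun w a b => c5 w ((mT w).2 ⟨a, b⟩), fun u n => c6 u (by rwa [mT]), fun m m1 m2 => ?_⟩
  · rw [c2 _ (by simp [mT, e2])]; exact congrFun q1 z₀
  · rw [c2 _ (by simp [mT, e3 d m])]
    have : d ∉ Set.range e := by
      rintro ⟨j, rfl⟩
      exact e1 j m
    simp only [act, Matrix.add_apply, p4 d this, zero_add]
  have t := hT V I A N (e z₀) L h T per (c1.det.symm.trans d2) c3.clean hh
    (fun w m => ⟨by have := (mT w).1 m; omega, c5 w m⟩) c6 m (by omega) m2 (by omega)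
  rw [filter_false_of_mem fun w a => by have := (mT w).1 a; omega, card_empty, Nat.cast_zero,
    zero_add] at t
  rw [t]
  push_cast
  rw [mul_assoc, sum_mul, ← add_sum_erase _ _ (show e z₀ ∈ Tᶜ by simp [mT, e2])]
  refine mul_le_mul_of_nonneg_left (add_le_add le_rfl ?_) (Nat.cast_nonneg _)
  refine (sum_le_sum (g := fun u => if u ∈ (univ.erase z₀).map e then 1 else 0) fun u a => ?_).trans ?_
  · rw [mem_erase, mem_compl, mT] at a
    split_ifs with b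
    · linarith [coeff_le_nz (ρ := ρ) (N u u) m, St.diag c3 a.1]
    · simp [k5 u a.1 b a.2 u]
  · rw [sum_boole]
    exact_mod_cast card_le_card fun u a => (mem_filter.1 a).2

/-- the common loops -/
noncomputable def tg (h c₀ : ℕ) (per : I → ℕ) (r : I) (N N' : Matrix I I ℤ[X]) (i : I) : ℤ[X] :=
  if per i ≠ 0 then X ^ per i else if i = r then (c₀ : ℤ[X]) * X ^ h else N i i + N' i i

theorem tg_comm (h c₀ : ℕ) (per : I → ℕ) (r : I) (N N' : Matrix I I ℤ[X]) :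
    tg h c₀ per r N N' = tg h c₀ per r N' N := funext fun i => by rw [tg, tg, add_comm]

theorem phase2 (hM : MidStmt) {ρ ρ₁ η : ℝ} {o : ℕ → ℤ} {z r : I} {L h c₀ c : ℕ} {per : I → ℕ}
    {Na Nb D : Finset I} {N N' : Matrix I I ℤ[X]} {ξ : I → G} (a : Ph ρ η o z L h per Na D N)
    (b : Ph ρ η o z L h per Nb D N') (r0 : act (1 - N) ξ = 0) (h0 : 0 < ρ₁) (h1 : ρ₁ ≤ ρ)
    (hη : 0 < η) (h2 : ρ ≤ 1 - 2 * η) (hh : 1 ≤ h) (hL : 2 * h ≤ L) (pz : per z = 0)
    (pr : per r = 0) (rz : r ≠ z) (ra : r ∉ Na) (rb : r ∉ Nb) (rD : r ∉ D) (zb : z ∉ Nb)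
    (zD : z ∉ D) (pa : ∀ i ∈ Na, per i = 0) (pb : ∀ i ∈ Nb, per i = 0 ∧ i ∉ Na ∧ i ∉ D)
    (pD : ∀ i ∈ D, per i = 0 ∧ i ∉ Na)
    (ct : ∀ k, h ≤ k → (univ.filter fun i => per i = k).card ≤ 1)
    (k1 : (c₀ : ℝ) * ρ₁ ^ h ≤ 1 - η) (k2 : 1 ≤ (c₀ : ℝ) * ρ ^ h)
    (k3 : ∀ m, h ≤ m → m < 2 * h →
      m * (Na.card + Nb.card + 2 + (c₀ + c : ℝ) * ρ ^ m) ≤ o m * ρ ^ m) :
    ∃ (N₂ : Matrix I I ℤ[X]) (ξ₂ : I → G), Eq0 N ξ N₂ ξ₂ ∧ ξ₂ z = ξ z ∧ (∀ d ∈ D, ξ₂ d = ξ d) ∧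
      St ρ₁ (η / 2) z L N₂ ∧ (∀ d ∈ D, Src N₂ d) ∧ N1 (N₂ z z - ((c : ℤ[X]) * X ^ h + Wd h)) ∧
      ∀ i, i ≠ z → X ^ L ∣ N₂ i i - tg h c₀ per r N N' i := by
  have hρ : 0 < ρ := h0.trans_le h1
  set T := univ.filter fun i => i ∈ Nb ∨ h ≤ per i with hT
  have mT : ∀ i, i ∈ T ↔ i ∈ Nb ∨ h ≤ per i := fun i => by simp [hT]
  obtain ⟨tr, t1⟩ : ∃ tr : ℤ[X] → ℤ[X], ∀ p k, (tr p).coeff k = if k < L then p.coeff k else 0 :=
    ⟨fun p => PowerSeries.trunc L (p : PowerSeries ℤ), fun p k => by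
      rw [PowerSeries.coeff_trunc, coeff_coe]⟩
  let ψ : I → ℤ[X] := fun i => if i ∈ Nb then tr (N' i i) else tr (X ^ per i)
  have t2 : ∀ p : ℤ[X], X ^ L ∣ tr p - p := fun p =>
    X_pow_dvd_iff.2 fun k hk => by simp [t1, hk]
  have t3 : ∀ p : ℤ[X], N1 p → nz ρ p ≤ 1 - η → N1 (tr p) ∧
      nz ρ₁ (tr p) ≤ 1 - 2 * (η / 2) := fun p u v => by
    refine ⟨fun k => by rw [t1]; split_ifs; exacts [u k, le_rfl], ?_⟩
    refine le_trans ?_ ((nz_mono h0.le h1 p).trans (v.trans (by linarith)))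
    rw [nz_eq (T := p.support) fun k hk => by
      rw [mem_support_iff, t1] at hk
      exact mem_support_iff.2 fun c => hk (by simp [c]), nz_eq le_rfl]
    refine sum_le_sum fun k _ => ?_
    rw [t1]
    split_ifs
    · exact le_rfl
    · rw [Int.cast_zero, zero_mul, abs_zero]; exact abs_nonneg _
  have nT : ∀ w ∈ T, w ≠ z ∧ w ∉ Na ∧ w ∉ D ∧ ¬(per w ≠ 0 ∧ per w < h) := fun w m => by
    rcases (mT w).1 m with m | m
    · exact ⟨ne_of_mem_of_not_mem m zb, (pb w m).2.1, (pb w m).2.2, by simp [(pb w m).1]⟩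
    · exact ⟨by rintro rfl; omega, fun c => by have := pa w c; omega,
        fun c => by have := (pD w c).1; omega, by omega⟩
  obtain ⟨p, hp⟩ := a.st.cert
  obtain ⟨N₂, c1, c2, c3, c4, c5, c6, c7⟩ := hM I G N ξ z r ρ₁ ρ (η / 2) L h c₀ c T ψ (Nb.card + 1)
    ⟨a.st.hs, ⟨p, Cert.mono hp h0.le h1 (by linarith)⟩, a.st.inv, a.st.clean⟩ r0 h0.le hρ
    (by linarith) (half_pos hη) hh hL (fun m => (nT z m).1 rfl) (by rw [mT]; simp [rb, pr]; omega) rz
    (a.src r rz ra (by simp [pr])) (a.snk r rz ra rD (by simp [pr]))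
    (fun w m => by
      obtain ⟨n1, n2, n3, n4⟩ := nT w m
      refine ⟨a.src w n1 n2 n4, a.snk w n1 n2 n3 n4, ?_⟩
      simp only [ψ]
      split_ifs with u
      · exact t3 _ (b.st.hs.1 w w) (St.diag b.st n1)
      · refine t3 _ (n1_pow _) ?_
        have := ((mT w).1 m).resolve_left u
        rw [nz_X_pow hρ.le]
        exact (pow_le_of_le_one hρ.le (by linarith) (by omega)).trans (by linarith))
    (by linarith) k2
    (fun k => by
      rw [sum_mul]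
      split_ifs with u
      · refine (sum_le_sum (g := fun w => (if w ∈ Nb then 1 else 0) + if per w = k then 1 else 0)
          fun w m => ?_).trans ?_
        · simp only [ψ]
          split_ifs with v v' v'
          · rw [t1, if_pos u.2]
            linarith [coeff_le_nz (ρ := ρ) (N' w w) k, St.diag b.st (nT w m).1]
          · rw [t1, if_pos u.2]
            linarith [coeff_le_nz (ρ := ρ) (N' w w) k, St.diag b.st (nT w m).1]
          · rw [t1, if_pos u.2, v', coeff_X_pow_self]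
            simpa using pow_le_one₀ hρ.le (by linarith)
          · simp [t1, coeff_X_pow, Ne.symm v']
        · rw [sum_add_distrib, sum_boole, sum_boole]
          refine add_le_add ?_ ?_
          · exact_mod_cast card_le_card fun u a => (mem_filter.1 a).2
          · exact_mod_cast (card_le_card (filter_subset_filter _ (subset_univ _))).trans (ct k u.1)
      · refine (sum_eq_zero fun w m => ?_).le
        have v : ∀ p : ℤ[X], X ^ h ∣ p → (tr p).coeff k = 0 :=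
          fun p d => by
            rw [t1]
            split_ifs with v
            · exact X_pow_dvd_iff.1 d k (by omega)
            · rfl
        simp only [ψ]
        split_ifs with v'
        · simp [v _ (b.hi w (nT w m).2.2.2)]
        · rw [v _ (pow_dvd_pow _ (((mT w).1 m).resolve_left v'))]; simp)
    (fun k u v => by
      have := (k3 k u v).trans (a.hub k u v)
      have := le_of_mul_le_mul_left this (by exact_mod_cast (show 0 < k by omega))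
      linarith)
  have dT : ∀ d ∈ D, d ≠ r ∧ d ∉ T := fun d m =>
    ⟨ne_of_mem_of_not_mem m rD, fun c => (nT d c).2.2.1 m⟩
  refine ⟨N₂, _, c1, by simp, fun d m => by simp [dT d m], c2, fun d m =>
    (c3 d (by simp [dT d m])).1 (a.src d (ne_of_mem_of_not_mem m zD) (pD d m).2
      (by simp [(pD d m).1])), c7, fun i n => ?_⟩
  by_cases u : i = r
  · simpa [tg, u, pr] using c4
  by_cases v : i ∈ T
  · have w := c5 i v
    have w' := a.src i n (nT i v).2.1 (nT i v).2.2.2 i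
    simp only [ψ] at w
    split_ifs at w with x
    · simpa [tg, u, (pb i x).1, w'] using dvd_add w (t2 (N' i i))
    · have := ((mT i).1 v).resolve_left x
      simpa [tg, show per i ≠ 0 by omega] using dvd_add w (t2 (X ^ per i))
  have w := c6 i n u v
  rw [mT, not_or, not_le] at v
  by_cases x : per i = 0
  · simpa [tg, u, x, b.src i n v.1 (by simp [x]) i] using w
  · simpa [tg, x] using dvd_add w (a.low i x v.2)

end Pool.Agent.MP_993212_an.H15F
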