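import Pool.Agent.MP_993212_an.H15.SusA
import Pool.Agent.MP_993212_an.H15.KStab

/-! Injective stability: invertible integral polynomial matrices of large size that are trivial
at zero are elementary. -/

set_option linter.unusedSectionVars false

namespace Pool.Agent.MP_993212_an.H15

open Matrix Polynomial
open scoped commutatorElement

variable {R : Type} [CommRing R] {s : Type} [Fintype s] [DecidableEq s]

theorem tv_mulVec {v w : s → R} (h : w ⬝ᵥ v = 0) (z : s → R) :
    (tv v w).val *ᵥ z = z + (w ⬝ᵥ z) • v := by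
  rw [tv_val h, add_mulVec, one_mulVec, vecMulVec_mulVec]
  simp

theorem tv_vecMul {v w : s → R} (h : w ⬝ᵥ v = 0) (z : s → R) :
    z ᵥ* (tv v w).val = z + (z ⬝ᵥ v) • w := by
  rw [tv_val h, vecMul_add, vecMul_one, vecMul_vecMulVec]

theorem tv_inv_mulVec {v w : s → R} (h : w ⬝ᵥ v = 0) (z : s → R) :
    (tv v w)⁻¹.val *ᵥ z = z - (w ⬝ᵥ z) • v := by
  rw [← tv_neg, tv_mulVec (by simpa using h), smul_neg, sub_eq_add_neg]

/-- letters outside a column -/
def Pc (R : Type) [CommRing R] (a : s) : Subgroup (GL s R) :=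
  Subgroup.closure {g | ∃ i j c, j ≠ a ∧ g = xe i j c}

/-- letters outside a row -/
def Qr (R : Type) [CommRing R] (n : s) : Subgroup (GL s R) :=
  Subgroup.closure {g | ∃ i j c, i ≠ n ∧ g = xe i j c}

theorem xe_mem_Pc {a : s} (i : s) {j : s} {c : R} (h : j ≠ a ∨ c = 0) : xe i j c ∈ Pc R a := by
  rcases h with h | h
  · exact Subgroup.subset_closure ⟨i, j, c, h, rfl⟩
  · simp [h, one_mem]

theorem xe_mem_Qr {n i : s} (j : s) {c : R} (h : i ≠ n ∨ c = 0) : xe i j c ∈ Qr R n := by
  rcases h with h | h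
  · exact Subgroup.subset_closure ⟨i, j, c, h, rfl⟩
  · simp [h, one_mem]

theorem Pc_col {a : s} {p : GL s R} (h : p ∈ Pc R a) : p.val *ᵥ Pi.single a 1 = Pi.single a 1 := by
  induction h using Subgroup.closure_induction with
  | mem x hx =>
    obtain ⟨i, j, c, hj, rfl⟩ := hx
    by_cases e : i = j
    · rw [e, xe_self]; exact one_mulVec _
    · rw [xe, tv_mulVec (by simp [Ne.symm e])]; simp [hj]
  | one => exact one_mulVec _
  | mul x y _ _ h1 h2 => rw [Units.val_mul, ← mulVec_mulVec, h2, h1]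
  | inv x _ h1 =>
    conv_lhs => rw [← h1]
    rw [mulVec_mulVec, Units.inv_mul, one_mulVec]

theorem Qr_row {n : s} {q : GL s R} (h : q ∈ Qr R n) : Pi.single n 1 ᵥ* q.val = Pi.single n 1 := by
  induction h using Subgroup.closure_induction with
  | mem x hx =>
    obtain ⟨i, j, c, hj, rfl⟩ := hx
    by_cases e : i = j
    · simp [e]
    · rw [xe, tv_vecMul (by simp [Ne.symm e])]; simp [hj.symm]
  | one => simp
  | mul x y _ _ h1 h2 => rw [Units.val_mul, ← vecMul_vecMul, h1, h2]
  | inv x _ h1 =>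
    conv_lhs => rw [← h1]
    rw [vecMul_vecMul, Units.mul_inv, vecMul_one]

theorem row_mem_Pc {a m : s} {w : s → R} (h1 : w m = 0) (h2 : w a = 0) :
    tv (Pi.single m 1) w ∈ Pc R a :=
  row_mem h1 fun j => xe_mem_Pc _ (by by_cases e : j = a <;> simp [e, h2])

theorem col_mem_Qr {n m : s} {v : s → R} (h1 : v m = 0) (h2 : v n = 0) :
    tv v (Pi.single m 1) ∈ Qr R n :=
  col_mem h1 fun j => xe_mem_Qr _ (by by_cases e : j = n <;> simp [e, h2])

theorem tv_mem_Pc {a : s} (h4 : ∀ k l : s, ∃ m, m ≠ k ∧ m ≠ l ∧ m ≠ a) {u v w : s → R}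
    (hu : u ⬝ᵥ v = 1) (hua : u a = 0) (hw : w ⬝ᵥ v = 0) (hwa : w a = 0) : tv v w ∈ Pc R a := by
  have e := sum_wp u v w
  rw [hu, hw, one_smul, zero_smul, sub_zero] at e
  rw [← e]
  refine tv_sum_mem (wp_dot u v w) (fun p => ?_) _
  obtain ⟨m, h1, h2, h3⟩ := h4 p.1 p.2
  have h5 := wp_zero u v w h1 h2
  have h6 : wp u v w p a = 0 := by
    by_cases e1 : a = p.1
    · simp [wp, ← e1, hwa]
    by_cases e2 : a = p.2
    · simp [wp, ← e2, hua]
    exact wp_zero u v w e1 e2
  have e := tv_split h5 (wp_dot u v w p) 1 1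
  simp only [one_mul, one_smul] at e
  have h7 : tv (Function.update v m 0) (Pi.single m 1) ∈ Pc R a :=
    col_mem (by simp) fun i => xe_mem_Pc _ (Or.inl h3)
  have h8 := row_mem_Pc h5 h6
  rw [e]
  exact mul_mem (mul_mem (mul_mem (mul_mem h7 h8) (inv_mem h7)) (inv_mem h8))
    (row_mem_Pc (by simp [h5]) (by simp [h6]))

theorem dv_norm {m : ℕ} (hsr : SR R m) (hc : m + 2 ≤ Fintype.card s) {a n i : s} (han : a ≠ n)
    (hi : i ≠ a) {p : GL s R} (hp : p ∈ Pc R a) (r : R) :
    ∃ p' ∈ Pc R a, ∃ q ∈ Qr R n, p * xe n a r = p' * xe n a r * q ∧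
      (p'⁻¹.val *ᵥ Pi.single i 1) a = 0 := by
  set γ := p⁻¹.val *ᵥ Pi.single i 1 with hγ
  set u := Pi.single i 1 ᵥ* p.val with hu
  have h1 : u ⬝ᵥ γ = 1 := by
    rw [hu, hγ, ← dotProduct_mulVec, mulVec_mulVec, Units.mul_inv]; simp
  have h2 : u a = 0 := by
    have : u ⬝ᵥ Pi.single a 1 = 0 := by rw [hu, ← dotProduct_mulVec, Pc_col hp]; simp [hi]
    simpa using this
  have hn : n ∈ Finset.univ.erase a := by simp [han.symm]
  obtain ⟨w, v, hw, hv, h3⟩ := hsr s ((Finset.univ.erase a).erase n) γ u (γ n) (u n)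
    (by rw [Finset.card_erase_of_mem hn, Finset.card_erase_of_mem (by simp), Finset.card_univ]; omega)
    (by rw [Finset.sum_erase_add _ _ hn, Finset.sum_erase _ (by simp [h2])]; exact h1)
  have wa := hw a (by simp)
  have wn := hw n (by simp)
  have va := hv a (by simp)
  have vn := hv n (by simp)
  set t1 := tv w (Pi.single n 1)
  set z : s → R := Pi.single a 1 + r • Pi.single n 1 with hz
  set t2 := tv z (γ a • v)
  have d1 : (Pi.single n 1 : s → R) ⬝ᵥ w = 0 := by simp [wn]
  have d2 : (γ a • v) ⬝ᵥ z = 0 := by simp [hz, va, vn]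
  have dx : (Pi.single a 1 : s → R) ⬝ᵥ Pi.single n r = 0 := by simp [han]
  have m1 : t1 ∈ Pc R a := col_mem wn fun j => xe_mem_Pc _ (Or.inl han.symm)
  have m2 : t2 ∈ Pc R a := by
    simp only [t2, hz]
    rw [tv_add_left (by simp [va]) (by simp [vn]), tv_smul r]
    exact mul_mem (row_mem_Pc (by simp [va]) (by simp [va]))
      (row_mem_Pc (by simp [vn]) (by simp [va]))
  have c1 : (xe n a r)⁻¹ * t1 * (xe n a r)⁻¹⁻¹ ∈ Qr R n := by
    rw [conj_tv, inv_inv, xe, tv_inv_mulVec dx, tv_vecMul dx]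
    simp only [single_dotProduct, wa, mul_zero, zero_smul, sub_zero, one_mul, Pi.single_eq_same]
    rw [tv_add_right d1 (by simp [wa]), ← tv_smul]
    exact mul_mem (col_mem_Qr wn wn) (col_mem_Qr (by simp [wa]) (by simp [wn]))
  have c2 : (xe n a r)⁻¹ * t2 * (xe n a r)⁻¹⁻¹ ∈ Qr R n := by
    rw [conj_tv, inv_inv, xe, tv_inv_mulVec dx, tv_vecMul dx]
    have e1 : z - (Pi.single a 1 ⬝ᵥ z) • Pi.single n r = Pi.single a 1 := by
      simp [hz, han, ← Pi.single_smul]
    rw [e1]
    exact row_mem (by simp [va, vn]) fun j => xe_mem_Qr _ (Or.inl han)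
  refine ⟨p * t1 * t2, mul_mem (mul_mem hp m1) m2, _, mul_mem (inv_mem c2) (inv_mem c1),
    by group, ?_⟩
  rw [_root_.mul_inv_rev, _root_.mul_inv_rev, Units.val_mul, Units.val_mul, ← mulVec_mulVec,
    ← mulVec_mulVec, ← hγ, tv_inv_mulVec d1, tv_inv_mulVec d2, smul_dotProduct, single_dotProduct,
    one_mul, h3]
  simp [hz, wa, han]

/-- the Dennis-Vaserstein decomposition -/
theorem dv {m : ℕ} (hsr : SR R m) (hc : m + 2 ≤ Fintype.card s) {a n : s} (han : a ≠ n)
    (h4 : ∀ k l : s, ∃ m, m ≠ k ∧ m ≠ l ∧ m ≠ a) {g : GL s R} (hg : g ∈ El s R) :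
    ∃ p ∈ Pc R a, ∃ r, ∃ q ∈ Qr R n, g = p * xe n a r * q := by
  have key : ∀ (i j : s) (c : R) (g : GL s R),
      (∃ p ∈ Pc R a, ∃ r, ∃ q ∈ Qr R n, g = p * xe n a r * q) →
      ∃ p ∈ Pc R a, ∃ r, ∃ q ∈ Qr R n, xe i j c * g = p * xe n a r * q := by
    rintro i j c _ ⟨p0, hp0, r, q0, hq0, rfl⟩
    by_cases hj : j ≠ a
    · exact ⟨_, mul_mem (xe_mem_Pc i (c := c) (Or.inl hj)) hp0, r, q0, hq0, by group⟩
    obtain rfl := not_not.1 hj
    by_cases hi : i = j
    · exact ⟨p0, hp0, r, q0, hq0, by simp [hi]⟩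
    obtain ⟨p, hp, q, hq, e, h0⟩ := dv_norm hsr hc han hi hp0 r
    set γ := p⁻¹.val *ᵥ Pi.single i 1 with hγ
    set u := Pi.single j 1 ᵥ* p.val - Pi.single j 1 with hu
    have h1 : ∀ k, (Pi.single k 1 ᵥ* p.val) ⬝ᵥ γ = (Pi.single i 1 : s → R) k := fun k => by
      rw [hγ, ← dotProduct_mulVec, mulVec_mulVec, Units.mul_inv, one_mulVec, single_dotProduct,
        one_mul]
    have h2 : ∀ k, (Pi.single k 1 ᵥ* p.val) j = (Pi.single j 1 : s → R) k := fun k => by
      have : (Pi.single k 1 ᵥ* p.val) ⬝ᵥ Pi.single j 1 = (Pi.single j 1 : s → R) k := by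
        rw [← dotProduct_mulVec, Pc_col hp, single_dotProduct, one_mul]
      simpa using this
    have h3 : u ⬝ᵥ γ = 0 := by rw [hu, sub_dotProduct, h1]; simp [h0, Ne.symm hi]
    have h5 : u j = 0 := by rw [hu, Pi.sub_apply, h2, sub_self]
    have e1 : p⁻¹ * xe i j c * p⁻¹⁻¹ = tv γ (c • u) * tv (c • γ) (Pi.single j 1) := by
      rw [← tv_smul, ← tv_add_right (by simp [h3]) (by simp [h0]), hu, sub_add_cancel, xe, conj_tv,
        inv_inv, hγ, ← mulVec_smul, ← Pi.single_smul, smul_eq_mul, mul_one]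
    have m1 : tv γ (c • u) ∈ Pc R j :=
      tv_mem_Pc h4 (u := Pi.single i 1 ᵥ* p.val) (by rw [h1]; simp) (by rw [h2]; simp [hi])
        (by simp [h3]) (by simp [h5])
    have e2 : tv (c • γ) (Pi.single j 1) * xe n j r =
        xe n j (c * γ n + r) * tv (Function.update (c • γ) n 0) (Pi.single j 1) := by
      rw [xe, xe, ← tv_add_left (by simp [h0]) (by simp [han]),
        ← tv_add_left (by simp [han]) (by simp [han, h0])]
      congr 1
      funext k
      by_cases e : k = n
      · simp [e]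
      · simp [e]
    refine ⟨_, mul_mem hp m1, c * γ n + r, _,
      mul_mem (mul_mem (col_mem_Qr (v := Function.update (c • γ) n 0) (m := j) (by simp [han, h0])
        (by simp)) hq) hq0, ?_⟩
    calc xe i j c * (p0 * xe n j r * q0)
        = p * (p⁻¹ * xe i j c * p⁻¹⁻¹) * xe n j r * q * q0 := by rw [e]; group
      _ = p * tv γ (c • u) * (tv (c • γ) (Pi.single j 1) * xe n j r) * q * q0 := by rw [e1]; group
      _ = _ := by rw [e2]; group
  induction hg using Subgroup.closure_induction_left with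
  | one => exact ⟨1, one_mem _, 0, 1, one_mem _, by simp⟩
  | mul_left y hy z _ ih => obtain ⟨i, j, c, rfl⟩ := hy; exact key i j c z ih
  | inv_mul_cancel y hy z _ ih => obtain ⟨i, j, c, rfl⟩ := hy; exact xe_neg i j c ▸ key i j _ z ih

section Res

variable {u : Type} [Fintype u] [DecidableEq u]

theorem sub_mul_of (E : Option s ≃ u) {M N : Matrix u u R}
    (h : ∀ i j, M (E (some i)) (E none) * N (E none) (E (some j)) = 0) :
    (M * N).submatrix (E ∘ some) (E ∘ some) =
      M.submatrix (E ∘ some) (E ∘ some) * N.submatrix (E ∘ some) (E ∘ some) := by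
  ext i j
  simp only [submatrix_apply, mul_apply, Function.comp]
  rw [← E.sum_comp, Fintype.sum_option, h, zero_add]

theorem sub_xe (E : Option s ≃ u) (i j : u) (c : R) :
    ∃ e ∈ El s R, e.val = (xe i j c).val.submatrix (E ∘ some) (E ∘ some) := by
  have h1 : (1 : Matrix u u R).submatrix (E ∘ some) (E ∘ some) = 1 :=
    submatrix_one _ (E.injective.comp (Option.some_injective s))
  by_cases hij : i = j
  · exact ⟨1, one_mem _, by simp [hij, h1]⟩
  obtain ⟨i, rfl⟩ := E.surjective i
  obtain ⟨j, rfl⟩ := E.surjective j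
  rw [xe_val hij, submatrix_add]
  simp only [Pi.add_apply, h1]
  rcases i with _ | i
  · exact ⟨1, one_mem _, by ext; simp⟩
  rcases j with _ | j
  · exact ⟨1, one_mem _, by ext; simp⟩
  refine ⟨_, xe_mem_El i j c, ?_⟩
  rw [xe_val (by simpa using hij)]
  ext
  simp [Matrix.single_apply]

theorem res_Qr (E : Option s ≃ u) {q : GL u R} (h : q ∈ Qr R (E none)) :
    ∃ e ∈ El s R, e.val = q.val.submatrix (E ∘ some) (E ∘ some) := by
  have key : ∀ i j c, ∀ z ∈ Qr R (E none),
      (∃ e ∈ El s R, e.val = z.val.submatrix (E ∘ some) (E ∘ some)) →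
      ∃ e ∈ El s R, e.val = (xe i j c * z).val.submatrix (E ∘ some) (E ∘ some) := by
    rintro i j c z hz ⟨e, he, h⟩
    obtain ⟨x, hx, h'⟩ := sub_xe E i j c
    refine ⟨_, mul_mem hx he, ?_⟩
    rw [Units.val_mul, Units.val_mul, h, h', sub_mul_of E fun k l => ?_]
    have := congrFun (Qr_row hz) (E (some l))
    simp only [single_one_vecMul, row_apply] at this
    simp [this]
  induction h using Subgroup.closure_induction_left with
  | one => simpa using sub_xe E (E none) (E none) (0 : R)
  | mul_left y hy z hz ih => obtain ⟨i, j, c, -, rfl⟩ := hy; exact key i j c z hz ih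
  | inv_mul_cancel y hy z hz ih =>
    obtain ⟨i, j, c, -, rfl⟩ := hy
    exact xe_neg i j c ▸ key i j _ z hz ih

theorem res_Pc (E : Option s ≃ u) {p : GL u R} (h : p ∈ Pc R (E none)) :
    ∃ e ∈ El s R, e.val = p.val.submatrix (E ∘ some) (E ∘ some) := by
  have key : ∀ i j c, ∀ z ∈ Pc R (E none),
      (∃ e ∈ El s R, e.val = z.val.submatrix (E ∘ some) (E ∘ some)) →
      ∃ e ∈ El s R, e.val = (z * xe i j c).val.submatrix (E ∘ some) (E ∘ some) := by
    rintro i j c z hz ⟨e, he, h⟩
    obtain ⟨x, hx, h'⟩ := sub_xe E i j c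
    refine ⟨_, mul_mem he hx, ?_⟩
    rw [Units.val_mul, Units.val_mul, h, h', sub_mul_of E fun k l => ?_]
    have := congrFun (Pc_col hz) (E (some k))
    simp only [mulVec_single_one, col_apply] at this
    simp [this]
  induction h using Subgroup.closure_induction_right with
  | one => simpa using sub_xe E (E none) (E none) (0 : R)
  | mul_right z hz y hy ih => obtain ⟨i, j, c, -, rfl⟩ := hy; exact key i j c z hz ih
  | mul_inv_cancel z hz y hy ih =>
    obtain ⟨i, j, c, -, rfl⟩ := hy
    exact xe_neg i j c ▸ key i j _ z hz ih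

end Res

/-- injective stability, one step -/
theorem inj_stab {m : ℕ} (hsr : SR R m) (hc : m + 3 ≤ Fintype.card s) {g : GL s R}
    (hg : ext Function.Embedding.some g ∈ El (Option s) R) : g ∈ El s R := by
  obtain ⟨a⟩ : Nonempty s := Fintype.card_pos_iff.1 (by omega)
  obtain ⟨p, hp, r, q, hq, e⟩ := dv hsr (a := some a) (n := none) (by simp; omega) (by simp)
    (fun k l => by
      by_contra h2
      have : (Finset.univ : Finset (Option s)) ⊆ {k, l, some a} := fun m _ => by
        by_contra h3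
        exact h2 ⟨m, by simpa using h3⟩
      have h4 := (Finset.card_le_card this).trans Finset.card_le_three
      simp at h4
      omega) hg
  have h0 : Pi.single none 1 ᵥ* (p * xe none (some a) r).val = Pi.single none 1 := by
    rw [eq_mul_inv_of_mul_eq e.symm, Units.val_mul, ← vecMul_vecMul]
    have : Pi.single none 1 ᵥ* (ext Function.Embedding.some g).val = Pi.single none 1 := by
      funext k
      simp only [single_one_vecMul, row_apply]
      rw [ext_val, extM_left _ _ (by simp), one_apply, Pi.single_apply]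
      simp [eq_comm]
    rw [this, Qr_row (inv_mem hq)]
  have hcol : ∀ k, p.val k (some a) = if k = some a then 1 else 0 := fun k => by
    simpa [Pi.single_apply] using congrFun (Pc_col hp) k
  rw [Units.val_mul, ← vecMul_vecMul, xe, tv_vecMul (by simp)] at h0
  have hnn : p.val none none = 1 := by simpa using congrFun h0 none
  have hr : r = 0 := by simpa [hcol, hnn] using congrFun h0 (some a)
  have hrow : ∀ k, p.val none k = if k = none then 1 else 0 := fun k => by
    simpa [hr, Pi.single_apply] using congrFun h0 k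
  rw [hr, xe_zero, mul_one] at e
  obtain ⟨e1, he1, h1⟩ := res_Qr (Equiv.refl _) hq
  obtain ⟨e2, he2, h2⟩ := res_Pc (s := s) (Equiv.swap (some a) none) (p := p) (by simpa using hp)
  have h3 : (g * e1⁻¹).val = p.val.submatrix some some := by
    have := sub_mul_of (Equiv.refl (Option s)) (M := p.val) (N := q.val) fun k l => by
      have := congrFun (Qr_row hq) (some l)
      simp only [single_one_vecMul, row_apply] at this
      simp [this]
    rw [← h1, ← Units.val_mul, ← e] at this
    rw [Units.val_mul, Units.mul_inv_eq_iff_eq_mul]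
    refine Eq.trans ?_ this
    ext i j
    exact (extM_apply Function.Embedding.some g.val i j).symm
  have h4 : ∀ i j, e2.val i j = p.val (if i = a then none else some i)
      (if j = a then none else some j) := fun i j => by
    rw [h2]
    simp only [submatrix_apply, Function.comp, Equiv.swap_apply_def]
    simp
  have h5 : g * e1⁻¹ * tv (Pi.single a 1) (Function.update (fun j => -p.val (some a) (some j)) a 0) =
      tv (Function.update (fun i => -p.val (some i) none) a 0) (Pi.single a 1) * e2 := by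
    apply Units.ext
    rw [Units.val_mul, h3, Units.val_mul, tv_val (by simp), tv_val (by simp), mul_add, add_mul,
      mul_vecMulVec, vecMulVec_mul]
    ext i j
    by_cases hi : i = a <;> by_cases hj : j = a <;>
      simp [vecMulVec_apply, h4, hi, hj, hcol, hrow]
  have h6 := mul_mem (col_mem (S := El s R) (m := a)
    (v := Function.update (fun i => -p.val (some i) none) a 0) (by simp)
    fun i => xe_mem_El _ _ _) he2
  rw [← h5, (El s R).mul_mem_cancel_right (row_mem (by simp) fun i => xe_mem_El _ _ _),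
    (El s R).mul_mem_cancel_right (inv_mem he1)] at h6
  exact h6

theorem El_of_big {m : ℕ} (hsr : SR R m) (k : ℕ) : ∀ (s : Type) [Fintype s] [DecidableEq s]
    (g : GL s R), m + 3 ≤ Fintype.card s →
    (∀ (u : Type) [Fintype u] [DecidableEq u] (f : s ↪ u), Fintype.card s + k ≤ Fintype.card u →
      ext f g ∈ El u R) → g ∈ El s R := by
  induction k with
  | zero =>
    intro s _ _ g _ h
    have e : ext (Function.Embedding.refl s) g = g := Units.ext (by
      ext i j
      exact extM_apply (Function.Embedding.refl s) g.val i j)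
    exact e ▸ h s _ le_rfl
  | succ k ih =>
    intro s _ _ g hc h
    refine inj_stab hsr hc (ih _ _ (by simp; omega) fun u _ _ f hu => ?_)
    rw [← ext_trans]
    exact h u _ (by simp at hu; omega)

/-- stably elementary matrices of size at least six over `ℤ[X]` are elementary -/
theorem StE.mem_El (hc : 6 ≤ Fintype.card s) {g : GL s ℤ[X]} (h : StE g) : g ∈ El s ℤ[X] := by
  obtain ⟨N, hN⟩ := h.big
  exact El_of_big sr_three N s g hc fun u _ _ f hu => hN u f (by omega)

/-- invertible matrices of size at least six over `ℤ[X]` that are trivial at zero lie in the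
relative elementary group -/
theorem sus (hc : 6 ≤ Fintype.card s) : Cn s (tI 1) ≤ Hn s (tI 1) := fun _ h =>
  mem_Hn_one ((stE_of_Cn h).mem_El hc) h

end Pool.Agent.MP_993212_an.H15
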