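import Mathlib

/-! The stable range of the integral polynomial ring. -/

namespace Pool.Agent.MP_993212_an.H15

open Matrix Polynomial

variable {R : Type} [CommRing R]

theorem davis {S : Set (Ideal R)} (hS : S.Finite) (hp : ∀ p ∈ S, p.IsPrime)
    (hinc : ∀ p ∈ S, ∀ q ∈ S, p ≤ q → p = q) (a b : R) (hb : ∀ p ∈ S, b ∉ p) :
    ∃ c, ∀ p ∈ S, a + c * b ∉ p := by
  classical
  have h : ¬(((hS.toFinset.filter fun p => a ∉ p).inf id : Ideal R) : Set R) ⊆
      ⋃ i ∈ (↑(hS.toFinset.filter fun p => a ∈ p) : Set (Ideal R)), (id i : Ideal R) := by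
    rw [Ideal.subset_union_prime (f := id) ⊥ ⊥ fun i hi _ _ =>
      hp i (hS.mem_toFinset.1 (Finset.mem_filter.1 hi).1)]
    rintro ⟨p, hp1, hp2⟩
    simp only [Finset.mem_filter, Set.Finite.mem_toFinset] at hp1
    obtain ⟨q, hq1, hq2⟩ := (hp p hp1.1).inf_le'.1 hp2
    simp only [Finset.mem_filter, Set.Finite.mem_toFinset] at hq1
    exact hq1.2 (hinc q hq1.1 p hp1.1 hq2 ▸ hp1.2)
  obtain ⟨c, hc1, hc2⟩ := Set.not_subset.1 h
  refine ⟨c, fun p hpS h => ?_⟩
  by_cases ha : a ∈ p
  · rcases (hp p hpS).mem_or_mem ((p.add_mem_iff_right ha).1 h) with h | h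
    · exact hc2 (Set.mem_biUnion (x := p) (by simp [hpS, ha]) h)
    · exact hb p hpS h
  · have h1 : p ∈ hS.toFinset.filter fun p => a ∉ p :=
      Finset.mem_filter.2 ⟨hS.mem_toFinset.2 hpS, ha⟩
    have : c ∈ p := (Finset.inf_le (f := id) h1 :) hc1
    exact ha ((p.add_mem_iff_left (p.mul_mem_right b this)).1 h)

theorem bass [IsNoetherianRing R] {s : Type} [DecidableEq s] (γ : s → R) (b : R) (T : Finset s) :
    ∃ w : s → R, (∀ i, i ∉ T → w i = 0) ∧ ∀ p : Ideal R, p.IsPrime → b ∉ p →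
      (∀ i ∈ T, γ i - b * w i ∈ p) → (T.card : ℕ∞) ≤ p.height := by
  induction T using Finset.induction_on with
  | empty => exact ⟨0, by simp, by simp⟩
  | insert j T hj ih =>
    obtain ⟨w, h0, hw⟩ := ih
    let I : Ideal R := Ideal.span ((fun i => γ i - b * w i) '' T)
    obtain ⟨c, hc⟩ := davis (S := {p ∈ I.minimalPrimes | b ∉ p})
      ((I.finite_minimalPrimes_of_isNoetherianRing R).subset fun _ h => h.1)
      (fun p h => h.1.1.1) (fun p h q h' e => le_antisymm e (h'.1.2 h.1.1 e)) (γ j) b fun p h => h.2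
    refine ⟨Function.update w j (-c), fun i hi => ?_, fun q hq hb h => ?_⟩
    · rw [Finset.mem_insert, not_or] at hi
      rw [Function.update_of_ne hi.1, h0 i hi.2]
    · have hI : I ≤ q := Ideal.span_le.2 (by
        rintro _ ⟨i, hi, rfl⟩
        have := h i (Finset.mem_insert_of_mem hi)
        rwa [Function.update_of_ne (ne_of_mem_of_not_mem hi hj)] at this)
      obtain ⟨p, hp, hpq⟩ := Ideal.exists_minimalPrimes_le hI
      have hp1 : p.IsPrime := hp.1.1
      have hb' : b ∉ p := fun h => hb (hpq h)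
      have hlt : p < q := lt_of_le_of_ne hpq (by
        rintro rfl
        have := h j (Finset.mem_insert_self _ _)
        rw [Function.update_self] at this
        exact hc p ⟨hp, hb'⟩ (by convert this using 1; ring))
      rw [Finset.card_insert_of_notMem hj, Nat.cast_succ]
      refine le_trans ?_ (Ideal.height_add_one_le_of_lt_of_isPrime hlt)
      gcongr
      exact hw p hp1 hb' fun i hi => hp.1.2 (Ideal.subset_span ⟨i, hi, rfl⟩)

/-- the stable range condition -/
def SR (R : Type) [CommRing R] (m : ℕ) : Prop :=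
  ∀ (s : Type) [Fintype s] [DecidableEq s] (T : Finset s) (γ u : s → R) (b c : R), m ≤ T.card →
    ∑ i ∈ T, u i * γ i + c * b = 1 →
    ∃ w v : s → R, (∀ i, i ∉ T → w i = 0) ∧ (∀ i, i ∉ T → v i = 0) ∧ v ⬝ᵥ (γ - b • w) = 1

theorem sr_three : SR ℤ[X] 3 := by
  intro s _ _ T γ u b c hT h
  obtain ⟨w, h0, hw⟩ := bass γ b T
  have h1 : Ideal.span (Set.range fun i => if i ∈ T then γ i - b * w i else 0) = ⊤ := by
    by_contra h1
    obtain ⟨p, hp, hle⟩ := Ideal.exists_le_maximal _ h1
    have h2 : ∀ i ∈ T, γ i - b * w i ∈ p := fun i hi =>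
      hle (Ideal.subset_span ⟨i, by simp [hi]⟩)
    by_cases hb : b ∈ p
    · refine hp.ne_top ((Ideal.eq_top_iff_one _).2 (h ▸ p.add_mem (p.sum_mem fun i hi => ?_)
        (p.mul_mem_left _ hb)))
      exact p.mul_mem_left _ ((p.sub_mem_iff_left (p.mul_mem_right _ hb)).1 (h2 i hi))
    · have h3 := hw p hp.isPrime hb h2
      have h4 := Ideal.height_le_ringKrullDim_of_ne_top hp.ne_top
      rw [Polynomial.ringKrullDim_of_isNoetherianRing,
        IsPrincipalIdealRing.ringKrullDim_eq_one ℤ Int.not_isField] at h4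
      have h5 : ((3 : ℕ) : ℕ∞) ≤ p.height := le_trans (by exact_mod_cast hT) h3
      have h6 := (WithBot.coe_le_coe.2 h5).trans h4
      revert h6
      decide
  obtain ⟨v, hv⟩ := Ideal.mem_span_range_iff_exists_fun.1 ((Ideal.eq_top_iff_one _).1 h1)
  refine ⟨w, fun i => if i ∈ T then v i else 0, h0, fun i hi => if_neg hi, ?_⟩
  rw [← hv]
  exact Finset.sum_congr rfl fun i _ => by by_cases hi : i ∈ T <;> simp [hi]

end Pool.Agent.MP_993212_an.H15
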